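import Pool.Agent.Lib.MP_9a50b7_lc.Compute

/-! An undecidable reachability problem for guarded linear maps on integer vectors. -/

set_option autoImplicit false

namespace Pool.Agent.MP9a50b7

open Relation Matrix

/-- A guarded linear instruction: allowed at `v` if `g1 ⬝ v = 0` and `g2 ⬝ v = 0`, and then
`v` is replaced by `T v`. -/
structure AInstr (κ : Type) where
  g1 : κ → ℤ
  g2 : κ → ℤ
  T : Matrix κ κ ℤ

/-- The violation of the guards, as a natural-number valued quadratic form. -/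
def AInstr.pen {κ : Type} [Fintype κ] (b : AInstr κ) (v : κ → ℤ) : ℤ :=
  (b.g1 ⬝ᵥ v) ^ 2 + (b.g2 ⬝ᵥ v) ^ 2

/-- one allowed step -/
def AStep {κ ι : Type} [Fintype κ] (instr : ι → AInstr κ) (v v' : κ → ℤ) : Prop :=
  ∃ b, (instr b).pen v = 0 ∧ v' = (instr b).T *ᵥ v

/-- index type of the vectors: constant, program counter, registers -/
abbrev Idx (K : ℕ) := Option (Option (Fin K))

/-- encoding of a configuration as a vector -/
def enc (K : ℕ) {Λ : Type} (e : Λ → ℤ) (c : Λ × (ℕ → ℕ)) : Idx K → ℤ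
  | none => 1
  | some none => e c.1
  | some (some i) => (c.2 i : ℤ)

/-- the functional reading the constant -/
def cRow (K : ℕ) : Idx K → ℤ
  | none => 1
  | _ => 0

/-- the functional reading the program counter -/
def pRow (K : ℕ) : Idx K → ℤ
  | some none => 1
  | _ => 0

/-- the functional reading register `j` -/
def rRow (K : ℕ) (j : ℕ) : Idx K → ℤ
  | some (some i) => if (i : ℕ) = j then 1 else 0
  | _ => 0

theorem cRow_enc {K : ℕ} {Λ : Type} (e : Λ → ℤ) (c : Λ × (ℕ → ℕ)) :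
    cRow K ⬝ᵥ enc K e c = 1 := by
  simp [dotProduct, Fintype.sum_option, cRow, enc]

theorem cRow_dot {K : ℕ} (v : Idx K → ℤ) : cRow K ⬝ᵥ v = v none := by
  simp [dotProduct, Fintype.sum_option, cRow]

theorem pRow_enc {K : ℕ} {Λ : Type} (e : Λ → ℤ) (c : Λ × (ℕ → ℕ)) :
    pRow K ⬝ᵥ enc K e c = e c.1 := by
  simp [dotProduct, Fintype.sum_option, pRow, enc]

theorem rRow_enc {K : ℕ} {Λ : Type} (e : Λ → ℤ) (c : Λ × (ℕ → ℕ)) {j : ℕ} (hj : j < K) :
    rRow K j ⬝ᵥ enc K e c = (c.2 j : ℤ) := by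
  simp only [dotProduct, Fintype.sum_option, rRow, enc, zero_mul, zero_add, ite_mul, one_mul]
  rw [Finset.sum_eq_single ⟨j, hj⟩]
  · simp
  · intro b _ hb
    rw [if_neg]
    intro h
    exact hb (Fin.ext h)
  · simp

/-- second guard -/
def opGuard (K : ℕ) : Op → (Idx K → ℤ)
  | .test i j => rRow K i - rRow K j
  | _ => 0

/-- rows of the updates of the registers -/
def opRow (K : ℕ) : Op → ℕ → (Idx K → ℤ)
  | .inc a, i => if i = a then rRow K i + cRow K else rRow K i
  | .clear a, i => if i = a then 0 else rRow K i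
  | .copy a b, i => if i = a then rRow K b else rRow K i
  | .test _ _, i => rRow K i
  | .skip, i => rRow K i

/-- the matrix of a transition -/
def trMat (K : ℕ) {Λ : Type} (e : Λ → ℤ) (t : Λ × Op × Λ) : Matrix (Idx K) (Idx K) ℤ :=
  Matrix.of fun r => match r with
    | none => cRow K
    | some none => e t.2.2 • cRow K
    | some (some i) => opRow K t.2.1 i

/-- the instruction of a transition -/
def trInstr (K : ℕ) {Λ : Type} (e : Λ → ℤ) (t : Λ × Op × Λ) : AInstr (Idx K) where
  g1 := pRow K - e t.1 • cRow K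
  g2 := opGuard K t.2.1
  T := trMat K e t

/-- all registers of the operation are below `K` -/
def Op.bdd (K : ℕ) : Op → Prop
  | .inc a => a < K
  | .clear a => a < K
  | .copy a b => a < K ∧ b < K
  | .test a b => a < K ∧ b < K
  | .skip => True

theorem Op.bdd_mono {K K' : ℕ} (h : K ≤ K') (o : Op) (ho : o.bdd K) : o.bdd K' := by
  cases o <;> simp only [Op.bdd] at ho ⊢ <;> omega

theorem exists_bdd (o : Op) : ∃ K, o.bdd K := by
  cases o with
  | inc a => exact ⟨a + 1, by simp [Op.bdd]⟩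
  | clear a => exact ⟨a + 1, by simp [Op.bdd]⟩
  | copy a b => exact ⟨a + b + 1, by simp only [Op.bdd]; omega⟩
  | test a b => exact ⟨a + b + 1, by simp only [Op.bdd]; omega⟩
  | skip => exact ⟨0, trivial⟩

theorem exists_bdd_list {Λ : Type} (tr : List (Λ × Op × Λ)) :
    ∃ K, 1 ≤ K ∧ ∀ t ∈ tr, t.2.1.bdd K := by
  induction tr with
  | nil => exact ⟨1, le_rfl, by simp⟩
  | cons t tr ih =>
    obtain ⟨K, hK, h⟩ := ih
    obtain ⟨K', h'⟩ := exists_bdd t.2.1
    refine ⟨max K K', le_trans hK (le_max_left _ _), ?_⟩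
    intro u hu
    rcases List.mem_cons.1 hu with rfl | hu
    · exact Op.bdd_mono (le_max_right _ _) _ h'
    · exact Op.bdd_mono (le_max_left _ _) _ (h u hu)

theorem trMat_enc {K : ℕ} {Λ : Type} (e : Λ → ℤ) (t : Λ × Op × Λ) (ht : t.2.1.bdd K)
    (l : Λ) (s s' : ℕ → ℕ) (h : t.2.1.rel s s') :
    trMat K e t *ᵥ enc K e (l, s) = enc K e (t.2.2, s') := by
  funext r
  simp only [Matrix.mulVec]
  rcases r with _ | _ | i
  · change cRow K ⬝ᵥ _ = _
    rw [cRow_enc]; rfl
  · change (e t.2.2 • cRow K) ⬝ᵥ _ = _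
    rw [smul_dotProduct, cRow_enc]
    simp [enc]
  · change opRow K t.2.1 i ⬝ᵥ _ = _
    have hi := i.2
    obtain ⟨l1, o, l2⟩ := t
    simp only at h ht ⊢
    cases o with
    | inc a =>
      simp only [Op.rel] at h
      subst h
      simp only [opRow]
      by_cases hia : (i : ℕ) = a
      · rw [if_pos hia, add_dotProduct, rRow_enc _ _ hi, cRow_enc]
        subst hia
        simp [enc]
      · rw [if_neg hia, rRow_enc _ _ hi]
        simp [enc, Function.update_of_ne hia]
    | clear a =>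
      simp only [Op.rel] at h
      subst h
      simp only [opRow]
      by_cases hia : (i : ℕ) = a
      · rw [if_pos hia, zero_dotProduct]
        subst hia
        simp [enc]
      · rw [if_neg hia, rRow_enc _ _ hi]
        simp [enc, Function.update_of_ne hia]
    | copy a b =>
      simp only [Op.rel] at h
      subst h
      simp only [opRow]
      simp only [Op.bdd] at ht
      by_cases hia : (i : ℕ) = a
      · rw [if_pos hia, rRow_enc _ _ ht.2]
        subst hia
        simp [enc]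
      · rw [if_neg hia, rRow_enc _ _ hi]
        simp [enc, Function.update_of_ne hia]
    | test a b =>
      simp only [Op.rel] at h
      obtain ⟨-, h⟩ := h
      subst h
      simp only [opRow]
      rw [rRow_enc _ _ hi]
      simp [enc]
    | skip =>
      simp only [Op.rel] at h
      subst h
      simp only [opRow]
      rw [rRow_enc _ _ hi]
      simp [enc]

theorem pen_eq_zero {κ : Type} [Fintype κ] (b : AInstr κ) (v : κ → ℤ) :
    b.pen v = 0 ↔ b.g1 ⬝ᵥ v = 0 ∧ b.g2 ⬝ᵥ v = 0 := by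
  unfold AInstr.pen
  constructor
  · intro h
    have h1 := sq_nonneg (b.g1 ⬝ᵥ v)
    have h2 := sq_nonneg (b.g2 ⬝ᵥ v)
    constructor
    · have : (b.g1 ⬝ᵥ v) ^ 2 = 0 := by linarith
      exact pow_eq_zero_iff (two_ne_zero) |>.1 this
    · have : (b.g2 ⬝ᵥ v) ^ 2 = 0 := by linarith
      exact pow_eq_zero_iff (two_ne_zero) |>.1 this
  · rintro ⟨h1, h2⟩
    rw [h1, h2]; simp

theorem trInstr_g1 {K : ℕ} {Λ : Type} (e : Λ → ℤ) (t : Λ × Op × Λ) (c : Λ × (ℕ → ℕ)) :
    (trInstr K e t).g1 ⬝ᵥ enc K e c = e c.1 - e t.1 := by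
  simp only [trInstr]
  rw [sub_dotProduct, smul_dotProduct, pRow_enc, cRow_enc]
  simp

/-- guard of an operation on states -/
def Op.ok : Op → (ℕ → ℕ) → Prop
  | .test i j, s => s i = s j
  | _, _ => True

theorem Op.exists_rel (o : Op) (s : ℕ → ℕ) (h : o.ok s) : ∃ s', o.rel s s' := by
  cases o with
  | inc a => exact ⟨_, rfl⟩
  | clear a => exact ⟨_, rfl⟩
  | copy a b => exact ⟨_, rfl⟩
  | test a b => exact ⟨s, h, rfl⟩
  | skip => exact ⟨_, rfl⟩

theorem Op.ok_of_rel (o : Op) (s s' : ℕ → ℕ) (h : o.rel s s') : o.ok s := by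
  cases o <;> simp only [Op.rel, Op.ok] at h ⊢
  exact h.1

theorem trInstr_g2 {K : ℕ} {Λ : Type} (e : Λ → ℤ) (t : Λ × Op × Λ) (ht : t.2.1.bdd K)
    (c : Λ × (ℕ → ℕ)) :
    (trInstr K e t).g2 ⬝ᵥ enc K e c = 0 ↔ t.2.1.ok c.2 := by
  obtain ⟨l1, o, l2⟩ := t
  simp only [trInstr] at ht ⊢
  cases o with
  | test a b =>
    simp only [Op.bdd] at ht
    simp only [opGuard, Op.ok]
    rw [sub_dotProduct, rRow_enc _ _ ht.1, rRow_enc _ _ ht.2, sub_eq_zero]
    exact Nat.cast_inj
  | _ => simp [opGuard, Op.ok]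

theorem astep_enc {K : ℕ} {Λ : Type} (e : Λ → ℤ) (he : Function.Injective e)
    (tr : List (Λ × Op × Λ)) (hK : ∀ t ∈ tr, t.2.1.bdd K) (c : Λ × (ℕ → ℕ)) (v : Idx K → ℤ) :
    AStep (fun i : Fin tr.length => trInstr K e (tr.get i)) (enc K e c) v ↔
      ∃ c', Step tr c c' ∧ v = enc K e c' := by
  constructor
  · rintro ⟨i, h1, h2⟩
    set t := tr.get i with ht
    have htm : t ∈ tr := List.get_mem _ _
    obtain ⟨h3, h4⟩ := (pen_eq_zero _ _).1 h1
    rw [trInstr_g1, sub_eq_zero] at h3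
    have h5 := he h3
    rw [trInstr_g2 e t (hK t htm)] at h4
    obtain ⟨s', hs'⟩ := Op.exists_rel _ _ h4
    refine ⟨(t.2.2, s'), ⟨t.2.1, ?_, hs'⟩, ?_⟩
    · rw [h5]; exact htm
    · rw [h2]
      exact trMat_enc e t (hK t htm) c.1 c.2 s' hs'
  · rintro ⟨c', ⟨op, hmem, hrel⟩, rfl⟩
    obtain ⟨i, hi⟩ := List.get_of_mem hmem
    refine ⟨i, ?_, ?_⟩
    · simp only
      rw [pen_eq_zero, hi, trInstr_g1, trInstr_g2 e _ (hK _ hmem)]
      exact ⟨by simp, Op.ok_of_rel _ _ _ hrel⟩
    · simp only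
      rw [hi]
      exact (trMat_enc e (c.1, op, c'.1) (hK _ hmem) c.1 c.2 c'.2 hrel).symm

theorem astep_reach {K : ℕ} {Λ : Type} (e : Λ → ℤ) (he : Function.Injective e)
    (tr : List (Λ × Op × Λ)) (hK : ∀ t ∈ tr, t.2.1.bdd K) (c : Λ × (ℕ → ℕ)) (v : Idx K → ℤ) :
    ReflTransGen (AStep (fun i : Fin tr.length => trInstr K e (tr.get i))) (enc K e c) v ↔
      ∃ c', ReflTransGen (Step tr) c c' ∧ v = enc K e c' := by
  constructor
  · intro h
    induction h with
    | refl => exact ⟨c, ReflTransGen.refl, rfl⟩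
    | tail _ hbc ih =>
      obtain ⟨c', h1, rfl⟩ := ih
      obtain ⟨c'', h2, rfl⟩ := (astep_enc e he tr hK c' _).1 hbc
      exact ⟨c'', h1.tail h2, rfl⟩
  · rintro ⟨c', h, rfl⟩
    induction h with
    | refl => exact ReflTransGen.refl
    | tail _ hbc ih =>
      exact ih.tail ((astep_enc e he tr hK _ _).2 ⟨_, hbc, rfl⟩)

/-- The undecidable reachability problem. -/
theorem exists_undecidable :
    ∃ (K q : ℕ) (instr : Fin q → AInstr (Idx K)) (gf v0 v1 : Idx K → ℤ),
      (∀ b v, ((instr b).T *ᵥ v) none = v none) ∧ v0 none = 1 ∧ v1 none = 0 ∧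
      ¬ ComputablePred (fun x : ℕ =>
        ∃ v, ReflTransGen (AStep instr) (v0 + (x : ℤ) • v1) v ∧ gf ⬝ᵥ v = 0) := by
  classical
  -- the primitive recursive function
  set F : ℕ → ℕ → ℕ := fun x k =>
    if (Nat.Partrec.Code.evaln k (Denumerable.ofNat Nat.Partrec.Code x) 0).isSome then 0 else 1
    with hF
  have hFp : Primrec₂ F := by
    have h1 : Primrec fun a : ℕ × ℕ =>
        Nat.Partrec.Code.evaln a.2 (Denumerable.ofNat Nat.Partrec.Code a.1) 0 :=
      Nat.Partrec.Code.primrec_evaln.comp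
        ((Primrec.snd.pair ((Primrec.ofNat _).comp Primrec.fst)).pair (Primrec.const 0))
    have h2 : Primrec fun a : ℕ × ℕ =>
        (Nat.Partrec.Code.evaln a.2 (Denumerable.ofNat Nat.Partrec.Code a.1) 0).isSome :=
      Primrec.option_isSome.comp h1
    have h3 : Primrec fun a : ℕ × ℕ =>
        (cond (Nat.Partrec.Code.evaln a.2 (Denumerable.ofNat Nat.Partrec.Code a.1) 0).isSome
          (0:ℕ) 1) := Primrec.cond h2 (Primrec.const 0) (Primrec.const 1)
    refine h3.of_eq fun a => ?_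
    simp only [hF]
    cases (Nat.Partrec.Code.evaln a.2 (Denumerable.ofNat Nat.Partrec.Code a.1) 0).isSome <;> simp
  have hFh : ∀ x, (∃ k, F x k = 0) ↔
      (Nat.Partrec.Code.eval (Denumerable.ofNat Nat.Partrec.Code x) 0).Dom := by
    intro x
    rw [Part.dom_iff_mem]
    constructor
    · rintro ⟨k, hk⟩
      simp only [hF] at hk
      split_ifs at hk with h
      obtain ⟨y, hy⟩ := Option.isSome_iff_exists.1 h
      exact ⟨y, Nat.Partrec.Code.evaln_complete.2 ⟨k, hy⟩⟩
    · rintro ⟨y, hy⟩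
      obtain ⟨k, hk⟩ := Nat.Partrec.Code.evaln_complete.1 hy
      refine ⟨k, ?_⟩
      simp only [hF]
      rw [if_pos]
      exact Option.isSome_iff_exists.2 ⟨y, hk⟩
  obtain ⟨Λ, fΛ, a, b, tr, htr⟩ := recognises hFp
  obtain ⟨K, hK1, hK⟩ := exists_bdd_list tr
  haveI := fΛ
  set e : Λ → ℤ := fun l => ((Finite.equivFin Λ l : Fin _) : ℤ) with he
  have hinj : Function.Injective e := by
    intro l1 l2 h
    simp only [he] at h
    have h' : ((Finite.equivFin Λ l1 : Fin _) : ℕ) = ((Finite.equivFin Λ l2 : Fin _) : ℕ) := by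
      exact_mod_cast h
    exact (Finite.equivFin Λ).injective (Fin.ext h')
  refine ⟨K, tr.length, fun i => trInstr K e (tr.get i), pRow K - e b • cRow K,
    enc K e (a, fun _ => 0), rRow K 0, ?_, rfl, rfl, ?_⟩
  · intro i v
    change cRow K ⬝ᵥ v = v none
    exact cRow_dot v
  · intro hcomp
    have hv : ∀ x : ℕ, enc K e (a, fun _ => 0) + (x : ℤ) • rRow K 0 =
        enc K e (a, Function.update (fun _ => 0) 0 x) := by
      intro x
      funext r
      rcases r with _ | _ | i
      · simp [enc, rRow]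
      · simp [enc, rRow]
      · simp only [enc, rRow, Pi.add_apply, Pi.smul_apply, smul_eq_mul, Nat.cast_zero, zero_add,
          mul_ite, mul_one, mul_zero]
        by_cases hi : (i : ℕ) = 0
        · rw [if_pos hi, hi]; simp
        · rw [if_neg hi, Function.update_of_ne hi]; simp
    have hiff : ∀ x : ℕ, (∃ v, ReflTransGen
        (AStep (fun i : Fin tr.length => trInstr K e (tr.get i)))
        (enc K e (a, fun _ => 0) + (x : ℤ) • rRow K 0) v ∧ (pRow K - e b • cRow K) ⬝ᵥ v = 0) ↔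
        (Nat.Partrec.Code.eval (Denumerable.ofNat Nat.Partrec.Code x) 0).Dom := by
      intro x
      rw [← hFh x, ← htr x, hv x]
      constructor
      · rintro ⟨v, h1, h2⟩
        obtain ⟨c', h3, rfl⟩ := (astep_reach e hinj tr hK _ _).1 h1
        rw [sub_dotProduct, smul_dotProduct, pRow_enc, cRow_enc, smul_eq_mul, mul_one,
          sub_eq_zero] at h2
        have h4 := hinj h2
        refine ⟨c'.2, ?_⟩
        rw [← h4]
        exact h3
      · rintro ⟨s', hs'⟩
        refine ⟨enc K e (b, s'), (astep_reach e hinj tr hK _ _).2 ⟨_, hs', rfl⟩, ?_⟩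
        rw [sub_dotProduct, smul_dotProduct, pRow_enc, cRow_enc]
        simp
    have h1 : ComputablePred (fun x : ℕ =>
        (Nat.Partrec.Code.eval (Denumerable.ofNat Nat.Partrec.Code x) 0).Dom) :=
      hcomp.of_eq hiff
    refine ComputablePred.halting_problem 0 ?_
    obtain ⟨f, hf, hfe⟩ := ComputablePred.computable_iff.1 h1
    refine ComputablePred.computable_iff.2 ⟨fun c => f (Encodable.encode c),
      hf.comp Computable.encode, ?_⟩
    funext c
    have := congrFun hfe (Encodable.encode c)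
    simp only [Denumerable.ofNat_encode] at this
    exact this

end Pool.Agent.MP9a50b7
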