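import Pool.Agent.Lib.MP_9a50b7_lc.Affine

/-! A bounded family of matrices whose products detect valid runs of guarded linear
instructions with a gap. -/

set_option autoImplicit false

namespace Pool.Agent.MP9a50b7

open Relation Matrix

set_option linter.unusedSectionVars false
set_option linter.unusedSimpArgs false
set_option linter.unusedVariables false

variable {κ : Type} [Fintype κ] [DecidableEq κ] {q : ℕ}

/-- index type of the amplifier -/
abbrev Sig (κ : Type) := Fin 3 ⊕ (κ × κ)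

/-- a state of the amplifier -/
def st (acc m D : ℝ) (E : κ → κ → ℝ) : Sig κ → ℝ :=
  Sum.elim ![acc, m, D] (fun p => E p.1 p.2)

/-- functional computing the new mass at a reset -/
def muF (gf : κ → ℤ) (c0 : κ) (kp ε : ℝ) : Sig κ → ℝ :=
  Sum.elim ![0, 1, -kp] (fun p => -(kp * (gf p.1 : ℝ) * (gf p.2 : ℝ))
    - (if p = (c0, c0) then ε * kp else 0))

/-- functional computing the new accepted mass at a reset -/
def acF (c0 : κ) (kp ε : ℝ) : Sig κ → ℝ :=
  Sum.elim ![1, 0, 0] (fun p => if p = (c0, c0) then ε * kp else 0)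

/-- functional computing the new penalty at an instruction -/
def peF (b : AInstr κ) : Sig κ → ℝ :=
  Sum.elim ![0, 0, 1] (fun p => (b.g1 p.1 : ℝ) * (b.g1 p.2 : ℝ) + (b.g2 p.1 : ℝ) * (b.g2 p.2 : ℝ))

/-- functional computing the new entry of `E` at an instruction -/
def enF (θ : ℝ) (b : AInstr κ) (r : κ × κ) : Sig κ → ℝ :=
  Sum.elim ![0, 0, 0] (fun p => θ * (b.T r.1 p.1 : ℝ) * (b.T r.2 p.2 : ℝ))

/-- The matrices of the amplifier; `none` is idle, `some none` is the reset. They act on row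
vectors from the right. -/
def Bmat (instr : Fin q → AInstr κ) (gf ξ : κ → ℤ) (c0 : κ) (θ kp ε : ℝ) :
    Option (Option (Fin q)) → Matrix (Sig κ) (Sig κ) ℝ
  | none => 1
  | some none => Matrix.of fun p r =>
      Sum.elim ![acF c0 kp ε p, muF gf c0 kp ε p, 0]
        (fun r' => muF gf c0 kp ε p * (ξ r'.1 : ℝ) * (ξ r'.2 : ℝ)) r
  | some (some b) => Matrix.of fun p r =>
      Sum.elim ![Sum.elim ![1, 0, 0] 0 p, Sum.elim ![0, 1, 0] 0 p, peF (instr b) p]
        (fun r' => enF θ (instr b) r' p) r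

theorem vecMul_sig (y : Sig κ → ℝ) (M : Matrix (Sig κ) (Sig κ) ℝ) (r : Sig κ) :
    (y ᵥ* M) r = y (Sum.inl 0) * M (Sum.inl 0) r + y (Sum.inl 1) * M (Sum.inl 1) r +
      y (Sum.inl 2) * M (Sum.inl 2) r + ∑ i, ∑ j, y (Sum.inr (i, j)) * M (Sum.inr (i, j)) r := by
  simp only [Matrix.vecMul, dotProduct, Fintype.sum_sum_type, Fin.sum_univ_three,
    Fintype.sum_prod_type]

theorem st_ext {a m D : ℝ} {E : κ → κ → ℝ} {y : Sig κ → ℝ} (h0 : y (Sum.inl 0) = a)
    (h1 : y (Sum.inl 1) = m) (h2 : y (Sum.inl 2) = D) (h3 : ∀ i j, y (Sum.inr (i, j)) = E i j) :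
    y = st a m D E := by
  funext r
  rcases r with r | ⟨i, j⟩
  · fin_cases r
    · simpa [st] using h0
    · simpa [st] using h1
    · simpa [st] using h2
  · simpa [st] using h3 i j

theorem quad_sum (g v : κ → ℝ) (c : ℝ) :
    ∑ i, ∑ j, c * v i * v j * (g i * g j) = c * (∑ i, g i * v i) ^ 2 := by
  rw [sq, Finset.sum_mul_sum, Finset.mul_sum]
  refine Finset.sum_congr rfl fun i _ => ?_
  rw [Finset.mul_sum]
  refine Finset.sum_congr rfl fun j _ => ?_
  ring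

theorem quad_sum' (a b v : κ → ℝ) (c : ℝ) :
    ∑ i, ∑ j, c * v i * v j * (a i * b j) = c * ((∑ i, a i * v i) * (∑ j, b j * v j)) := by
  rw [Finset.sum_mul_sum, Finset.mul_sum]
  refine Finset.sum_congr rfl fun i _ => ?_
  rw [Finset.mul_sum]
  refine Finset.sum_congr rfl fun j _ => ?_
  ring

theorem pen_cast (b : AInstr κ) (v : κ → ℤ) :
    ((b.pen v : ℤ) : ℝ) = (∑ i, (b.g1 i : ℝ) * (v i : ℝ)) ^ 2 +
      (∑ i, (b.g2 i : ℝ) * (v i : ℝ)) ^ 2 := by
  simp [AInstr.pen, dotProduct]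

/-- action of an instruction on a pst state -/
theorem instr_st (instr : Fin q → AInstr κ) (gf ξ : κ → ℤ) (c0 : κ) (θ kp ε : ℝ) (b : Fin q)
    (acc M Δ t : ℝ) (v : κ → ℤ) :
    (st acc M (M * Δ) fun i j => M * t * (v i : ℝ) * (v j : ℝ)) ᵥ*
      Bmat instr gf ξ c0 θ kp ε (some (some b)) =
    st acc M (M * (Δ + t * ((instr b).pen v : ℤ))) fun i j =>
      M * (θ * t) * ((((instr b).T *ᵥ v) i : ℤ) : ℝ) * ((((instr b).T *ᵥ v) j : ℤ) : ℝ) := by
  refine st_ext ?_ ?_ ?_ ?_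
  · rw [vecMul_sig]; simp [Bmat, st]
  · rw [vecMul_sig]; simp [Bmat, st]
  · rw [vecMul_sig, pen_cast]
    simp only [Bmat, st, peF, Matrix.of_apply, Sum.elim_inl, Sum.elim_inr, Matrix.cons_val_zero,
      Matrix.cons_val_one, Matrix.cons_val_two, Matrix.head_cons, Matrix.tail_cons,
      Matrix.cons_val]
    simp only [mul_add, Finset.sum_add_distrib]
    rw [quad_sum (fun i => ((instr b).g1 i : ℝ)) (fun i => (v i : ℝ)) (M * t),
      quad_sum (fun i => ((instr b).g2 i : ℝ)) (fun i => (v i : ℝ)) (M * t)]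
    ring
  · intro i j
    rw [vecMul_sig]
    simp only [Bmat, st, enF, Matrix.of_apply, Sum.elim_inl, Sum.elim_inr, Matrix.cons_val_zero,
      Matrix.cons_val_one, Matrix.cons_val_two, Matrix.head_cons, Matrix.tail_cons,
      Matrix.cons_val]
    have : ∀ i' j' : κ, M * t * (v i' : ℝ) * (v j' : ℝ) *
        (θ * ((instr b).T i i' : ℝ) * ((instr b).T j j' : ℝ)) =
        (M * (θ * t)) * (v i' : ℝ) * (v j' : ℝ) * (((instr b).T i i' : ℝ) *
          ((instr b).T j j' : ℝ)) := fun i' j' => by ring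
    simp only [this]
    rw [quad_sum' (fun i' => ((instr b).T i i' : ℝ)) (fun j' => ((instr b).T j j' : ℝ))
      (fun i => (v i : ℝ)) (M * (θ * t))]
    simp only [Matrix.mulVec, dotProduct]
    push_cast
    ring

/-- action of the reset on an arbitrary state -/
theorem reset_gen (instr : Fin q → AInstr κ) (gf ξ : κ → ℤ) (c0 : κ) (θ kp ε : ℝ)
    (y : Sig κ → ℝ) :
    y ᵥ* Bmat instr gf ξ c0 θ kp ε (some none) =
    st (y ⬝ᵥ acF c0 kp ε) (y ⬝ᵥ muF gf c0 kp ε) 0 fun i j =>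
      (y ⬝ᵥ muF gf c0 kp ε) * (ξ i : ℝ) * (ξ j : ℝ) := by
  refine st_ext ?_ ?_ ?_ ?_
  · simp [Matrix.vecMul, dotProduct, Bmat]
  · simp [Matrix.vecMul, dotProduct, Bmat]
  · simp [Matrix.vecMul, dotProduct, Bmat]
  · intro i j
    simp only [Matrix.vecMul, dotProduct, Bmat, Matrix.of_apply, Sum.elim_inr, Finset.sum_mul]
    refine Finset.sum_congr rfl fun p _ => ?_
    ring

theorem acF_st (c0 : κ) (kp ε acc m D : ℝ) (E : κ → κ → ℝ) :
    st acc m D E ⬝ᵥ acF c0 kp ε = acc + ε * kp * E c0 c0 := by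
  simp only [dotProduct, Fintype.sum_sum_type, Fin.sum_univ_three, st, acF, Sum.elim_inl,
    Sum.elim_inr, Matrix.cons_val_zero, Matrix.cons_val_one, Matrix.cons_val]
  simp
  ring

theorem muF_st (gf : κ → ℤ) (c0 : κ) (kp ε acc M Δ t : ℝ) (v : κ → ℤ) (hv : v c0 = 1) :
    (st acc M (M * Δ) fun i j => M * t * (v i : ℝ) * (v j : ℝ)) ⬝ᵥ muF gf c0 kp ε =
      M * (1 - kp * (Δ + t * ((gf ⬝ᵥ v : ℤ) : ℝ) ^ 2) - ε * kp * t) := by
  simp only [dotProduct, Fintype.sum_sum_type, Fin.sum_univ_three, st, muF, Sum.elim_inl,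
    Sum.elim_inr, Matrix.cons_val_zero, Matrix.cons_val_one, Matrix.cons_val, mul_sub,
    Finset.sum_sub_distrib, mul_ite, mul_zero]
  rw [Finset.sum_ite_eq' Finset.univ (c0, c0)]
  rw [Fintype.sum_prod_type]
  have : ∀ i' j' : κ, M * t * (v i' : ℝ) * (v j' : ℝ) *
        (-(kp * (gf i' : ℝ) * (gf j' : ℝ))) =
        (-(M * t * kp)) * (v i' : ℝ) * (v j' : ℝ) * ((gf i' : ℝ) * (gf j' : ℝ)) :=
    fun i' j' => by ring
  simp only [this]
  rw [quad_sum (fun i' => (gf i' : ℝ)) (fun i => (v i : ℝ)) (-(M * t * kp))]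
  simp only [Finset.mem_univ, if_true, hv]
  push_cast
  ring

/-- The numerical part of a run since the last reset: weight, vector, accumulated penalty. -/
inductive Seg (instr : Fin q → AInstr κ) (ξ : κ → ℤ) (θ : ℝ) : ℝ → (κ → ℤ) → ℝ → Prop
  | nil : Seg instr ξ θ 1 ξ 0
  | snoc {t : ℝ} {v : κ → ℤ} {Δ : ℝ} (b : Fin q) : Seg instr ξ θ t v Δ →
      Seg instr ξ θ (θ * t) ((instr b).T *ᵥ v) (Δ + t * ((instr b).pen v : ℤ))

/-- the standing assumptions -/
structure Good (instr : Fin q → AInstr κ) (gf ξ : κ → ℤ) (c0 : κ) (θ kp ε R X : ℝ) : Prop where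
  hR : 1 ≤ R
  hX : 1 ≤ X
  hrow : ∀ b i, ∑ j, |((instr b).T i j : ℝ)| ≤ R
  hcol : ∀ b j, ∑ i, |((instr b).T i j : ℝ)| ≤ R
  hg1 : ∀ b, ∑ j, |((instr b).g1 j : ℝ)| ≤ R
  hg2 : ∀ b, ∑ j, |((instr b).g2 j : ℝ)| ≤ R
  hgf : ∑ j, |(gf j : ℝ)| ≤ R
  hξ : ∀ i, |(ξ i : ℝ)| ≤ X
  hc0 : ξ c0 = 1
  hT0 : ∀ b v, ((instr b).T *ᵥ v) c0 = v c0
  hθ : 0 < θ
  hθR : θ * R ^ 2 ≤ 1 / 2
  hkp : 0 < kp
  hkpX : kp * (4 * R ^ 2 * X ^ 2 + 1) ≤ 1
  hε : 0 < ε
  hε1 : ε ≤ 1

theorem abs_dot_le (g v : κ → ℝ) (R Y : ℝ) (hg : ∑ j, |g j| ≤ R)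
    (hv : ∀ i, |v i| ≤ Y) (hY : 0 ≤ Y) : |∑ j, g j * v j| ≤ R * Y := by
  calc |∑ j, g j * v j| ≤ ∑ j, |g j * v j| := Finset.abs_sum_le_sum_abs _ _
    _ = ∑ j, |g j| * |v j| := by simp [abs_mul]
    _ ≤ ∑ j, |g j| * Y := Finset.sum_le_sum fun j _ =>
        mul_le_mul_of_nonneg_left (hv j) (abs_nonneg _)
    _ = (∑ j, |g j|) * Y := by rw [Finset.sum_mul]
    _ ≤ R * Y := mul_le_mul_of_nonneg_right hg hY

/-- numerical invariant of a segment -/
theorem Seg.bound {instr : Fin q → AInstr κ} {gf ξ : κ → ℤ} {c0 : κ} {θ kp ε R X : ℝ}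
    (G : Good instr gf ξ c0 θ kp ε R X) {t : ℝ} {v : κ → ℤ} {Δ : ℝ}
    (h : Seg instr ξ θ t v Δ) :
    0 < t ∧ t ≤ 1 ∧ v c0 = 1 ∧ 0 ≤ Δ ∧
      ∃ Y, 0 ≤ Y ∧ (∀ i, |(v i : ℝ)| ≤ Y) ∧ Δ + 4 * R ^ 2 * (t * Y ^ 2) ≤ 4 * R ^ 2 * X ^ 2 := by
  induction h with
  | nil =>
    refine ⟨one_pos, le_rfl, G.hc0, le_rfl, X, le_trans zero_le_one G.hX, G.hξ, ?_⟩
    simp
  | @snoc t v Δ b hs ih =>
    obtain ⟨h1, h2, h3, h4, Y, h5, h6, h7⟩ := ih
    have hθ1 : θ ≤ 1 := by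
      have := G.hθR
      have h8 : (1:ℝ) ≤ R ^ 2 := one_le_pow₀ G.hR
      nlinarith [G.hθ]
    have hR0 : 0 ≤ R := le_trans zero_le_one G.hR
    have hpen : (((instr b).pen v : ℤ) : ℝ) ≤ 2 * (R ^ 2 * Y ^ 2) := by
      rw [pen_cast]
      have e1 := abs_dot_le (fun i => ((instr b).g1 i : ℝ)) (fun i => (v i : ℝ)) R Y (G.hg1 b) h6 h5
      have e2 := abs_dot_le (fun i => ((instr b).g2 i : ℝ)) (fun i => (v i : ℝ)) R Y (G.hg2 b) h6 h5
      have e1' := sq_le_sq' (neg_le_of_abs_le e1) (le_of_abs_le e1)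
      have e2' := sq_le_sq' (neg_le_of_abs_le e2) (le_of_abs_le e2)
      rw [mul_pow] at e1' e2'
      linarith
    have hpen0 : (0:ℝ) ≤ (((instr b).pen v : ℤ) : ℝ) := by
      rw [pen_cast]; positivity
    refine ⟨mul_pos G.hθ h1, ?_, ?_, ?_, R * Y, mul_nonneg hR0 h5, ?_, ?_⟩
    · calc θ * t ≤ 1 * 1 := mul_le_mul hθ1 h2 h1.le zero_le_one
        _ = 1 := one_mul 1
    · rw [G.hT0, h3]
    · exact add_nonneg h4 (mul_nonneg h1.le hpen0)
    · intro i
      have := abs_dot_le (fun j => ((instr b).T i j : ℝ)) (fun i => (v i : ℝ)) R Y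
        (G.hrow b i) h6 h5
      simp only [Matrix.mulVec, dotProduct]
      push_cast
      exact this
    · have e1 : t * (((instr b).pen v : ℤ) : ℝ) ≤ t * (2 * (R ^ 2 * Y ^ 2)) :=
        mul_le_mul_of_nonneg_left hpen h1.le
      have e2 : θ * t * (R * Y) ^ 2 ≤ 1 / 2 * (t * Y ^ 2) := by
        have : θ * t * (R * Y) ^ 2 = (θ * R ^ 2) * (t * Y ^ 2) := by ring
        rw [this]
        exact mul_le_mul_of_nonneg_right G.hθR (mul_nonneg h1.le (sq_nonneg _))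
      have e3 : 4 * R ^ 2 * (θ * t * (R * Y) ^ 2) ≤ 4 * R ^ 2 * (1 / 2 * (t * Y ^ 2)) :=
        mul_le_mul_of_nonneg_left e2 (by positivity)
      nlinarith

/-- a segment is a valid run, or its penalty is at least its weight -/
theorem Seg.dichotomy {instr : Fin q → AInstr κ} {gf ξ : κ → ℤ} {c0 : κ} {θ kp ε R X : ℝ}
    (G : Good instr gf ξ c0 θ kp ε R X) {t : ℝ} {v : κ → ℤ} {Δ : ℝ}
    (h : Seg instr ξ θ t v Δ) :
    (ReflTransGen (AStep instr) ξ v ∧ Δ = 0) ∨ t ≤ Δ := by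
  induction h with
  | nil => exact Or.inl ⟨ReflTransGen.refl, rfl⟩
  | @snoc t v Δ b hs ih =>
    obtain ⟨h1, h2, h3, h4, Y, h5, h6, h7⟩ := hs.bound G
    have hθ1 : θ ≤ 1 := by
      have := G.hθR
      have h8 : (1:ℝ) ≤ R ^ 2 := one_le_pow₀ G.hR
      nlinarith [G.hθ]
    have hθt : θ * t ≤ t := by nlinarith
    have hpen0 : (0:ℝ) ≤ (((instr b).pen v : ℤ) : ℝ) := by
      rw [pen_cast]; positivity
    rcases ih with ⟨ih1, ih2⟩ | ih
    · by_cases hp : (instr b).pen v = 0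
      · left
        refine ⟨ih1.tail ⟨b, hp, rfl⟩, ?_⟩
        rw [hp, ih2]; simp
      · right
        have : (1:ℤ) ≤ (instr b).pen v := by
          have : (0:ℤ) ≤ (instr b).pen v := by exact_mod_cast hpen0
          omega
        have : (1:ℝ) ≤ (((instr b).pen v : ℤ) : ℝ) := by exact_mod_cast this
        nlinarith
    · right
      have := mul_nonneg h1.le hpen0
      linarith

/-- the pst states -/
def pst (acc M Δ t : ℝ) (v : κ → ℤ) : Sig κ → ℝ :=
  st acc M (M * Δ) fun i j => M * t * (v i : ℝ) * (v j : ℝ)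

/-- the initial state -/
def y0 (ξ : κ → ℤ) : Sig κ → ℝ := pst 0 1 0 1 ξ

theorem reset_pure (instr : Fin q → AInstr κ) (gf ξ : κ → ℤ) (c0 : κ) (θ kp ε : ℝ)
    (acc M Δ t : ℝ) (v : κ → ℤ) (hv : v c0 = 1) :
    pst acc M Δ t v ᵥ* Bmat instr gf ξ c0 θ kp ε (some none) =
    pst (acc + ε * kp * (M * t))
      (M * (1 - kp * (Δ + t * ((gf ⬝ᵥ v : ℤ) : ℝ) ^ 2) - ε * kp * t)) 0 1 ξ := by
  unfold pst
  rw [reset_gen, acF_st, muF_st _ _ _ _ _ _ _ _ _ hv]
  simp [hv]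

theorem final_bound {instr : Fin q → AInstr κ} {gf ξ : κ → ℤ} {c0 : κ} {θ kp ε R X : ℝ}
    (G : Good instr gf ξ c0 θ kp ε R X) {t : ℝ} {v : κ → ℤ} {Δ : ℝ}
    (h : Seg instr ξ θ t v Δ) :
    0 ≤ kp * (Δ + t * ((gf ⬝ᵥ v : ℤ) : ℝ) ^ 2) ∧
    kp * (Δ + t * ((gf ⬝ᵥ v : ℤ) : ℝ) ^ 2) + ε * kp * t ≤ 1 := by
  obtain ⟨h1, h2, h3, h4, Y, h5, h6, h7⟩ := h.bound G
  have hR0 : 0 ≤ R := le_trans zero_le_one G.hR
  have e1 := abs_dot_le (fun i => (gf i : ℝ)) (fun i => (v i : ℝ)) R Y G.hgf h6 h5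
  have e1' := sq_le_sq' (neg_le_of_abs_le e1) (le_of_abs_le e1)
  have e2 : ((gf ⬝ᵥ v : ℤ) : ℝ) ^ 2 ≤ R ^ 2 * Y ^ 2 := by
    rw [mul_pow] at e1'
    simp only [dotProduct]
    push_cast
    exact e1'
  have hkp := G.hkp
  constructor
  · have := sq_nonneg ((gf ⬝ᵥ v : ℤ) : ℝ)
    exact mul_nonneg hkp.le (add_nonneg h4 (mul_nonneg h1.le this))
  · have e3 : t * ((gf ⬝ᵥ v : ℤ) : ℝ) ^ 2 ≤ t * (R ^ 2 * Y ^ 2) :=
      mul_le_mul_of_nonneg_left e2 h1.le
    have e4 : 0 ≤ R ^ 2 * (t * Y ^ 2) :=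
      mul_nonneg (sq_nonneg _) (mul_nonneg h1.le (sq_nonneg _))
    have e5 : Δ + t * ((gf ⬝ᵥ v : ℤ) : ℝ) ^ 2 ≤ 4 * R ^ 2 * X ^ 2 := by nlinarith
    have e6 : ε * t ≤ 1 := by
      calc ε * t ≤ 1 * 1 := mul_le_mul G.hε1 h2 h1.le zero_le_one
        _ = 1 := one_mul 1
    calc kp * (Δ + t * ((gf ⬝ᵥ v : ℤ) : ℝ) ^ 2) + ε * kp * t
        = kp * (Δ + t * ((gf ⬝ᵥ v : ℤ) : ℝ) ^ 2 + ε * t) := by ring
      _ ≤ kp * (4 * R ^ 2 * X ^ 2 + 1) := mul_le_mul_of_nonneg_left (by linarith) hkp.le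
      _ ≤ 1 := G.hkpX

/-- product along a word, on the right of row vectors -/
theorem vecMul_cons_prod (instr : Fin q → AInstr κ) (gf ξ : κ → ℤ) (c0 : κ) (θ kp ε : ℝ)
    (y : Sig κ → ℝ) (a : Option (Option (Fin q))) (w : List (Option (Option (Fin q)))) :
    y ᵥ* ((a :: w).map (Bmat instr gf ξ c0 θ kp ε)).prod =
      (y ᵥ* Bmat instr gf ξ c0 θ kp ε a) ᵥ* (w.map (Bmat instr gf ξ c0 θ kp ε)).prod := by
  rw [List.map_cons, List.prod_cons, Matrix.vecMul_vecMul]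

/-- reachable states stay pst -/
theorem reach_pure {instr : Fin q → AInstr κ} {gf ξ : κ → ℤ} {c0 : κ} {θ kp ε R X : ℝ}
    (G : Good instr gf ξ c0 θ kp ε R X) (w : List (Option (Option (Fin q)))) :
    ∀ (acc M Δ t : ℝ) (v : κ → ℤ), Seg instr ξ θ t v Δ → 0 ≤ acc → 0 ≤ M → acc + M ≤ 1 →
      ∃ acc' M' Δ' t' v', pst acc M Δ t v ᵥ* (w.map (Bmat instr gf ξ c0 θ kp ε)).prod =
        pst acc' M' Δ' t' v' ∧ Seg instr ξ θ t' v' Δ' ∧ 0 ≤ acc' ∧ 0 ≤ M' ∧ acc' + M' ≤ 1 := by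
  induction w with
  | nil =>
    intro acc M Δ t v hs ha hM haM
    exact ⟨acc, M, Δ, t, v, by simp, hs, ha, hM, haM⟩
  | cons a w ih =>
    intro acc M Δ t v hs ha hM haM
    rw [vecMul_cons_prod]
    rcases a with _ | _ | b
    · have : pst acc M Δ t v ᵥ* Bmat instr gf ξ c0 θ kp ε none = pst acc M Δ t v := by
        simp [Bmat]
      rw [this]
      exact ih _ _ _ _ _ hs ha hM haM
    · obtain ⟨h1, h2, h3, h4, Y, h5, h6, h7⟩ := hs.bound G
      obtain ⟨f1, f2⟩ := final_bound G hs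
      rw [reset_pure _ _ _ _ _ _ _ _ _ _ _ _ h3]
      have hη : 0 ≤ ε * kp * t := mul_nonneg (mul_nonneg G.hε.le G.hkp.le) h1.le
      refine ih _ _ _ _ _ Seg.nil ?_ ?_ ?_
      · have : 0 ≤ ε * kp * (M * t) := by
          have := mul_nonneg hM hη
          nlinarith
        linarith
      · exact mul_nonneg hM (by linarith)
      · nlinarith [mul_nonneg hM f1]
    · have : pst acc M Δ t v ᵥ* Bmat instr gf ξ c0 θ kp ε (some (some b)) =
        pst acc M (Δ + t * ((instr b).pen v : ℤ)) (θ * t) ((instr b).T *ᵥ v) := by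
        unfold pst
        exact instr_st instr gf ξ c0 θ kp ε b acc M Δ t v
      rw [this]
      exact ih _ _ _ _ _ (Seg.snoc b hs) ha hM haM

/-- if no valid run passes the final test, the accepted mass stays small -/
theorem reach_small {instr : Fin q → AInstr κ} {gf ξ : κ → ℤ} {c0 : κ} {θ kp ε R X : ℝ}
    (G : Good instr gf ξ c0 θ kp ε R X)
    (hno : ¬ ∃ v, ReflTransGen (AStep instr) ξ v ∧ gf ⬝ᵥ v = 0)
    (w : List (Option (Option (Fin q)))) :
    ∀ (acc M Δ t : ℝ) (v : κ → ℤ), Seg instr ξ θ t v Δ → 0 ≤ acc → 0 ≤ M → acc ≤ ε * (1 - M) →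
      ∃ acc' M' Δ' t' v', pst acc M Δ t v ᵥ* (w.map (Bmat instr gf ξ c0 θ kp ε)).prod =
        pst acc' M' Δ' t' v' ∧ 0 ≤ acc' ∧ 0 ≤ M' ∧ acc' ≤ ε * (1 - M') := by
  induction w with
  | nil =>
    intro acc M Δ t v hs ha hM haM
    exact ⟨acc, M, Δ, t, v, by simp, ha, hM, haM⟩
  | cons a w ih =>
    intro acc M Δ t v hs ha hM haM
    rw [vecMul_cons_prod]
    rcases a with _ | _ | b
    · have : pst acc M Δ t v ᵥ* Bmat instr gf ξ c0 θ kp ε none = pst acc M Δ t v := by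
        simp [Bmat]
      rw [this]
      exact ih _ _ _ _ _ hs ha hM haM
    · obtain ⟨h1, h2, h3, h4, Y, h5, h6, h7⟩ := hs.bound G
      obtain ⟨f1, f2⟩ := final_bound G hs
      rw [reset_pure _ _ _ _ _ _ _ _ _ _ _ _ h3]
      have hη : 0 ≤ ε * kp * t := mul_nonneg (mul_nonneg G.hε.le G.hkp.le) h1.le
      have hε := G.hε
      have hkp := G.hkp
      -- the penalty dominates the weight
      have hdom : t ≤ Δ + t * ((gf ⬝ᵥ v : ℤ) : ℝ) ^ 2 := by
        rcases hs.dichotomy G with ⟨d1, d2⟩ | d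
        · have hne : gf ⬝ᵥ v ≠ 0 := fun h0 => hno ⟨v, d1, h0⟩
          have : (1:ℤ) ≤ (gf ⬝ᵥ v) ^ 2 := by
            have := sq_nonneg (gf ⬝ᵥ v)
            have h0 : (gf ⬝ᵥ v) ^ 2 ≠ 0 := pow_ne_zero _ hne
            omega
          have : (1:ℝ) ≤ ((gf ⬝ᵥ v : ℤ) : ℝ) ^ 2 := by exact_mod_cast this
          rw [d2]
          nlinarith
        · have := mul_nonneg h1.le (sq_nonneg ((gf ⬝ᵥ v : ℤ) : ℝ))
          linarith
      refine ih _ _ _ _ _ Seg.nil ?_ ?_ ?_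
      · have : 0 ≤ ε * kp * (M * t) := by
          have := mul_nonneg hM hη
          nlinarith
        linarith
      · exact mul_nonneg hM (by linarith)
      · have e1 : kp * t ≤ kp * (Δ + t * ((gf ⬝ᵥ v : ℤ) : ℝ) ^ 2) :=
          mul_le_mul_of_nonneg_left hdom hkp.le
        have e2 : ε * kp * (M * t) ≤ ε * (M * (kp * (Δ + t * ((gf ⬝ᵥ v : ℤ) : ℝ) ^ 2))) := by
          have := mul_le_mul_of_nonneg_left (mul_le_mul_of_nonneg_left e1 hM) hε.le
          nlinarith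
        have e3 : 0 ≤ ε * (M * (ε * kp * t)) := mul_nonneg hε.le (mul_nonneg hM hη)
        nlinarith
    · have : pst acc M Δ t v ᵥ* Bmat instr gf ξ c0 θ kp ε (some (some b)) =
        pst acc M (Δ + t * ((instr b).pen v : ℤ)) (θ * t) ((instr b).T *ᵥ v) := by
        unfold pst
        exact instr_st instr gf ξ c0 θ kp ε b acc M Δ t v
      rw [this]
      exact ih _ _ _ _ _ (Seg.snoc b hs) ha hM haM

theorem vecMul_append_prod (instr : Fin q → AInstr κ) (gf ξ : κ → ℤ) (c0 : κ) (θ kp ε : ℝ)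
    (y : Sig κ → ℝ) (w w' : List (Option (Option (Fin q)))) :
    y ᵥ* ((w ++ w').map (Bmat instr gf ξ c0 θ kp ε)).prod =
      (y ᵥ* (w.map (Bmat instr gf ξ c0 θ kp ε)).prod) ᵥ*
        (w'.map (Bmat instr gf ξ c0 θ kp ε)).prod := by
  rw [List.map_append, List.prod_append, Matrix.vecMul_vecMul]

/-- a valid run gives a word without penalty -/
theorem run_word {instr : Fin q → AInstr κ} {gf ξ : κ → ℤ} {c0 : κ} {θ kp ε R X : ℝ}
    (G : Good instr gf ξ c0 θ kp ε R X) {v : κ → ℤ}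
    (h : ReflTransGen (AStep instr) ξ v) :
    ∃ (w : List (Option (Option (Fin q)))) (t : ℝ), Seg instr ξ θ t v 0 ∧ ∀ acc M,
      pst acc M 0 1 ξ ᵥ* (w.map (Bmat instr gf ξ c0 θ kp ε)).prod = pst acc M 0 t v := by
  induction h with
  | refl => exact ⟨[], 1, Seg.nil, fun acc M => by simp⟩
  | @tail b c _ hbc ih =>
    obtain ⟨w, t, hs, hw⟩ := ih
    obtain ⟨i, hi, rfl⟩ := hbc
    refine ⟨w ++ [some (some i)], θ * t, ?_, fun acc M => ?_⟩
    · have := Seg.snoc i hs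
      rwa [hi, Int.cast_zero, mul_zero, add_zero] at this
    · rw [vecMul_append_prod, hw]
      have : pst acc M 0 t b ᵥ* Bmat instr gf ξ c0 θ kp ε (some (some i)) =
        pst acc M (0 + t * ((instr i).pen b : ℤ)) (θ * t) ((instr i).T *ᵥ b) := by
        unfold pst
        exact instr_st instr gf ξ c0 θ kp ε i acc M 0 t b
      simp only [List.map_cons, List.map_nil, List.prod_cons, List.prod_nil, mul_one]
      rw [this, hi]
      simp

/-- if a valid run passes the final test, the accepted mass can be made large -/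
theorem reach_large {instr : Fin q → AInstr κ} {gf ξ : κ → ℤ} {c0 : κ} {θ kp ε R X : ℝ}
    (G : Good instr gf ξ c0 θ kp ε R X)
    (hyes : ∃ v, ReflTransGen (AStep instr) ξ v ∧ gf ⬝ᵥ v = 0) :
    ∃ w : List (Option (Option (Fin q))),
      1 / 2 ≤ (y0 ξ ᵥ* (w.map (Bmat instr gf ξ c0 θ kp ε)).prod) (Sum.inl 0) := by
  obtain ⟨v, hv1, hv2⟩ := hyes
  obtain ⟨w, t, hs, hw⟩ := run_word G hv1
  obtain ⟨h1, h2, h3, h4, Y, h5, h6, h7⟩ := hs.bound G
  obtain ⟨f1, f2⟩ := final_bound G hs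
  set η := ε * kp * t with hη
  have hη0 : 0 < η := mul_pos (mul_pos G.hε G.hkp) h1
  have hη1 : η ≤ 1 := by linarith
  have hblock : ∀ acc M, pst acc M 0 1 ξ ᵥ*
      ((w ++ [some none]).map (Bmat instr gf ξ c0 θ kp ε)).prod =
      pst (acc + η * M) (M * (1 - η)) 0 1 ξ := by
    intro acc M
    rw [vecMul_append_prod, hw]
    simp only [List.map_cons, List.map_nil, List.prod_cons, List.prod_nil, mul_one]
    rw [reset_pure _ _ _ _ _ _ _ _ _ _ _ _ h3, hv2]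
    congr 1
    · rw [hη]; ring
    · rw [hη]; simp
  have hpow : ∀ n : ℕ, ∃ w' : List (Option (Option (Fin q))),
      y0 ξ ᵥ* (w'.map (Bmat instr gf ξ c0 θ kp ε)).prod =
        pst (1 - (1 - η) ^ n) ((1 - η) ^ n) 0 1 ξ := by
    intro n
    induction n with
    | zero => exact ⟨[], by simp [y0]⟩
    | succ n ih =>
      obtain ⟨w', hw'⟩ := ih
      refine ⟨w' ++ (w ++ [some none]), ?_⟩
      rw [vecMul_append_prod, hw', hblock]
      congr 1
      ring
  obtain ⟨n, hn⟩ := exists_pow_lt_of_lt_one (show (0:ℝ) < 1 / 2 by norm_num)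
    (show 1 - η < 1 by linarith)
  obtain ⟨w', hw'⟩ := hpow n
  refine ⟨w', ?_⟩
  rw [hw']
  simp only [pst, st, Sum.elim_inl, Matrix.cons_val_zero]
  linarith

/-- small acceptance, in the form used later -/
theorem accept_small {instr : Fin q → AInstr κ} {gf ξ : κ → ℤ} {c0 : κ} {θ kp ε R X : ℝ}
    (G : Good instr gf ξ c0 θ kp ε R X)
    (hno : ¬ ∃ v, ReflTransGen (AStep instr) ξ v ∧ gf ⬝ᵥ v = 0)
    (w : List (Option (Option (Fin q)))) :
    |(y0 ξ ᵥ* (w.map (Bmat instr gf ξ c0 θ kp ε)).prod) (Sum.inl 0)| ≤ ε := by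
  obtain ⟨acc', M', Δ', t', v', h1, h2, h3, h4⟩ := reach_small G hno w 0 1 0 1 ξ Seg.nil le_rfl
    zero_le_one (by simp)
  rw [y0, h1]
  simp only [pst, st, Sum.elim_inl, Matrix.cons_val_zero]
  rw [abs_of_nonneg h2]
  nlinarith [G.hε]

/-- a norm for general states -/
def nrm (R : ℝ) (y : Sig κ → ℝ) : ℝ :=
  |y (Sum.inl 0)| + |y (Sum.inl 1)| + |y (Sum.inl 2)| +
    4 * R ^ 2 * ∑ p : κ × κ, |y (Sum.inr p)|

theorem nrm_coord {R : ℝ} (hR : 1 ≤ R) (y : Sig κ → ℝ) (r : Sig κ) : |y r| ≤ nrm R y := by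
  have h0 : 0 ≤ ∑ p : κ × κ, |y (Sum.inr p)| := Finset.sum_nonneg fun _ _ => abs_nonneg _
  have hR2 : 1 ≤ 4 * R ^ 2 := by nlinarith
  have h1 : ∑ p : κ × κ, |y (Sum.inr p)| ≤ 4 * R ^ 2 * ∑ p : κ × κ, |y (Sum.inr p)| := by
    nlinarith
  have a0 := abs_nonneg (y (Sum.inl 0))
  have a1 := abs_nonneg (y (Sum.inl 1))
  have a2 := abs_nonneg (y (Sum.inl 2))
  unfold nrm
  rcases r with r | p
  · fin_cases r
    · simp only [Fin.zero_eta, Fin.isValue]; linarith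
    · simp only [Fin.mk_one, Fin.isValue]; linarith
    · simp only [Fin.reduceFinMk, Fin.isValue]; linarith
  · have : |y (Sum.inr p)| ≤ ∑ p : κ × κ, |y (Sum.inr p)| :=
      Finset.single_le_sum (f := fun p => |y (Sum.inr p)|) (fun _ _ => abs_nonneg _)
        (Finset.mem_univ p)
    linarith

theorem nrm_instr {instr : Fin q → AInstr κ} {gf ξ : κ → ℤ} {c0 : κ} {θ kp ε R X : ℝ}
    (G : Good instr gf ξ c0 θ kp ε R X) (b : Fin q) (y : Sig κ → ℝ) :
    nrm R (y ᵥ* Bmat instr gf ξ c0 θ kp ε (some (some b))) ≤ nrm R y := by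
  have hR := G.hR
  have hR0 : 0 ≤ R := le_trans zero_le_one hR
  set S := ∑ p : κ × κ, |y (Sum.inr p)| with hS
  have hS0 : 0 ≤ S := Finset.sum_nonneg fun _ _ => abs_nonneg _
  have e0 : (y ᵥ* Bmat instr gf ξ c0 θ kp ε (some (some b))) (Sum.inl 0) = y (Sum.inl 0) := by
    rw [vecMul_sig]; simp [Bmat]
  have e1 : (y ᵥ* Bmat instr gf ξ c0 θ kp ε (some (some b))) (Sum.inl 1) = y (Sum.inl 1) := by
    rw [vecMul_sig]; simp [Bmat]
  have e2 : (y ᵥ* Bmat instr gf ξ c0 θ kp ε (some (some b))) (Sum.inl 2) =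
      y (Sum.inl 2) + ∑ p : κ × κ, y (Sum.inr p) * (((instr b).g1 p.1 : ℝ) * ((instr b).g1 p.2 : ℝ)
        + ((instr b).g2 p.1 : ℝ) * ((instr b).g2 p.2 : ℝ)) := by
    rw [vecMul_sig, Fintype.sum_prod_type]; simp [Bmat, peF]
  have e3 : ∀ r : κ × κ, (y ᵥ* Bmat instr gf ξ c0 θ kp ε (some (some b))) (Sum.inr r) =
      ∑ p : κ × κ, y (Sum.inr p) * (θ * ((instr b).T r.1 p.1 : ℝ) * ((instr b).T r.2 p.2 : ℝ)) := by
    intro r
    rw [vecMul_sig, Fintype.sum_prod_type]; simp [Bmat, enF]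
  have hgle : ∀ (g : κ → ℤ), ∑ j, |(g j : ℝ)| ≤ R → ∀ i, |(g i : ℝ)| ≤ R := by
    intro g hg i
    refine le_trans ?_ hg
    exact Finset.single_le_sum (f := fun j => |(g j : ℝ)|) (fun _ _ => abs_nonneg _)
      (Finset.mem_univ i)
  have b2 : |(y ᵥ* Bmat instr gf ξ c0 θ kp ε (some (some b))) (Sum.inl 2)| ≤
      |y (Sum.inl 2)| + 2 * R ^ 2 * S := by
    rw [e2]
    refine le_trans (abs_add_le _ _) ?_
    refine add_le_add le_rfl ?_
    refine le_trans (Finset.abs_sum_le_sum_abs _ _) ?_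
    rw [hS, Finset.mul_sum]
    refine Finset.sum_le_sum fun p _ => ?_
    rw [abs_mul, mul_comm]
    refine mul_le_mul_of_nonneg_right ?_ (abs_nonneg _)
    refine le_trans (abs_add_le _ _) ?_
    rw [abs_mul, abs_mul]
    have c1 := hgle _ (G.hg1 b) p.1
    have c2 := hgle _ (G.hg1 b) p.2
    have c3 := hgle _ (G.hg2 b) p.1
    have c4 := hgle _ (G.hg2 b) p.2
    have d1 : |((instr b).g1 p.1 : ℝ)| * |((instr b).g1 p.2 : ℝ)| ≤ R * R :=
      mul_le_mul c1 c2 (abs_nonneg _) hR0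
    have d2 : |((instr b).g2 p.1 : ℝ)| * |((instr b).g2 p.2 : ℝ)| ≤ R * R :=
      mul_le_mul c3 c4 (abs_nonneg _) hR0
    nlinarith
  have b3 : ∑ r : κ × κ, |(y ᵥ* Bmat instr gf ξ c0 θ kp ε (some (some b))) (Sum.inr r)| ≤
      1 / 2 * S := by
    calc ∑ r : κ × κ, |(y ᵥ* Bmat instr gf ξ c0 θ kp ε (some (some b))) (Sum.inr r)|
        ≤ ∑ r : κ × κ, ∑ p : κ × κ, |y (Sum.inr p)| *
            (θ * |((instr b).T r.1 p.1 : ℝ)| * |((instr b).T r.2 p.2 : ℝ)|) := by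
          refine Finset.sum_le_sum fun r _ => ?_
          rw [e3]
          refine le_trans (Finset.abs_sum_le_sum_abs _ _) ?_
          refine Finset.sum_le_sum fun p _ => ?_
          rw [abs_mul, abs_mul, abs_mul, abs_of_pos G.hθ]
      _ = ∑ p : κ × κ, |y (Sum.inr p)| * (θ * ((∑ i, |((instr b).T i p.1 : ℝ)|) *
            (∑ j, |((instr b).T j p.2 : ℝ)|))) := by
          rw [Finset.sum_comm]
          refine Finset.sum_congr rfl fun p _ => ?_
          rw [← Finset.mul_sum]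
          congr 1
          rw [Finset.sum_mul_sum, Fintype.sum_prod_type, Finset.mul_sum]
          refine Finset.sum_congr rfl fun (i : κ) _ => ?_
          rw [Finset.mul_sum]
          refine Finset.sum_congr rfl fun (j : κ) _ => ?_
          ring
      _ ≤ ∑ p : κ × κ, |y (Sum.inr p)| * (1 / 2) := by
          refine Finset.sum_le_sum fun p _ => ?_
          refine mul_le_mul_of_nonneg_left ?_ (abs_nonneg _)
          have d1 : (∑ i, |((instr b).T i p.1 : ℝ)|) * (∑ j, |((instr b).T j p.2 : ℝ)|) ≤ R * R :=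
            mul_le_mul (G.hcol b _) (G.hcol b _) (Finset.sum_nonneg fun _ _ => abs_nonneg _) hR0
          calc θ * ((∑ i, |((instr b).T i p.1 : ℝ)|) * (∑ j, |((instr b).T j p.2 : ℝ)|))
              ≤ θ * (R * R) := mul_le_mul_of_nonneg_left d1 G.hθ.le
            _ = θ * R ^ 2 := by ring
            _ ≤ 1 / 2 := G.hθR
      _ = 1 / 2 * S := by rw [← Finset.sum_mul, hS]; ring
  unfold nrm
  rw [e0, e1]
  have : 4 * R ^ 2 * ∑ r : κ × κ, |(y ᵥ* Bmat instr gf ξ c0 θ kp ε (some (some b))) (Sum.inr r)| ≤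
      4 * R ^ 2 * (1 / 2 * S) := mul_le_mul_of_nonneg_left b3 (by positivity)
  nlinarith

theorem nrm_reset {instr : Fin q → AInstr κ} {gf ξ : κ → ℤ} {c0 : κ} {θ kp ε R X : ℝ}
    (G : Good instr gf ξ c0 θ kp ε R X) (y : Sig κ → ℝ) :
    |y ⬝ᵥ acF c0 kp ε| ≤ nrm R y ∧ |y ⬝ᵥ muF gf c0 kp ε| ≤ nrm R y := by
  have hR := G.hR
  have hR0 : 0 ≤ R := le_trans zero_le_one hR
  have hX := G.hX
  have hkp := G.hkp
  have hε := G.hε
  have hε1 := G.hε1
  have hkp1 : kp ≤ 1 := by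
    have h1 : 1 ≤ 4 * R ^ 2 * X ^ 2 + 1 := by
      have : 0 ≤ 4 * R ^ 2 * X ^ 2 := by positivity
      linarith
    calc kp = kp * 1 := (mul_one _).symm
      _ ≤ kp * (4 * R ^ 2 * X ^ 2 + 1) := mul_le_mul_of_nonneg_left h1 hkp.le
      _ ≤ 1 := G.hkpX
  have hek : ε * kp ≤ 1 := by
    calc ε * kp ≤ 1 * 1 := mul_le_mul hε1 hkp1 hkp.le zero_le_one
      _ = 1 := one_mul 1
  have hek0 : 0 ≤ ε * kp := by positivity
  set S := ∑ p : κ × κ, |y (Sum.inr p)| with hS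
  have hS0 : 0 ≤ S := Finset.sum_nonneg fun _ _ => abs_nonneg _
  have a0 := abs_nonneg (y (Sum.inl 0))
  have a1 := abs_nonneg (y (Sum.inl 1))
  have a2 := abs_nonneg (y (Sum.inl 2))
  have hR2 : 1 ≤ R ^ 2 := one_le_pow₀ hR
  have hgle : ∀ i, |(gf i : ℝ)| ≤ R := by
    intro i
    refine le_trans ?_ G.hgf
    exact Finset.single_le_sum (f := fun j => |(gf j : ℝ)|) (fun _ _ => abs_nonneg _)
      (Finset.mem_univ i)
  constructor
  · have e : y ⬝ᵥ acF c0 kp ε = y (Sum.inl 0) +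
        ∑ p : κ × κ, y (Sum.inr p) * (if p = (c0, c0) then ε * kp else 0) := by
      simp [dotProduct, Fintype.sum_sum_type, Fin.sum_univ_three, acF]
    have b : |∑ p : κ × κ, y (Sum.inr p) * (if p = (c0, c0) then ε * kp else 0)| ≤ S := by
      refine le_trans (Finset.abs_sum_le_sum_abs _ _) ?_
      rw [hS]
      refine Finset.sum_le_sum fun p _ => ?_
      rw [abs_mul]
      calc |y (Sum.inr p)| * |if p = (c0, c0) then ε * kp else 0| ≤ |y (Sum.inr p)| * 1 := by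
            refine mul_le_mul_of_nonneg_left ?_ (abs_nonneg _)
            split_ifs
            · rw [abs_of_nonneg hek0]; exact hek
            · simp
        _ = _ := mul_one _
    rw [e]
    refine le_trans (abs_add_le _ _) ?_
    unfold nrm
    nlinarith
  · have e : y ⬝ᵥ muF gf c0 kp ε = y (Sum.inl 1) + y (Sum.inl 2) * (-kp) +
        ∑ p : κ × κ, y (Sum.inr p) * (-(kp * (gf p.1 : ℝ) * (gf p.2 : ℝ))
          - (if p = (c0, c0) then ε * kp else 0)) := by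
      simp only [dotProduct, Fintype.sum_sum_type, Fin.sum_univ_three, muF, Sum.elim_inl,
        Sum.elim_inr, Matrix.cons_val_zero, Matrix.cons_val_one, Matrix.cons_val]
      simp
    have b : |∑ p : κ × κ, y (Sum.inr p) * (-(kp * (gf p.1 : ℝ) * (gf p.2 : ℝ))
          - (if p = (c0, c0) then ε * kp else 0))| ≤ 2 * R ^ 2 * S := by
      refine le_trans (Finset.abs_sum_le_sum_abs _ _) ?_
      rw [hS, Finset.mul_sum]
      refine Finset.sum_le_sum fun p _ => ?_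
      rw [abs_mul, mul_comm]
      refine mul_le_mul_of_nonneg_right ?_ (abs_nonneg _)
      refine le_trans (abs_sub _ _) ?_
      rw [abs_neg, abs_mul, abs_mul, abs_of_pos hkp]
      have d1 : |(gf p.1 : ℝ)| * |(gf p.2 : ℝ)| ≤ R * R :=
        mul_le_mul (hgle _) (hgle _) (abs_nonneg _) hR0
      have d2 : kp * |(gf p.1 : ℝ)| * |(gf p.2 : ℝ)| ≤ 1 * (R * R) := by
        rw [mul_assoc]
        exact mul_le_mul hkp1 d1 (by positivity) zero_le_one
      have d3 : |if p = (c0, c0) then ε * kp else 0| ≤ 1 := by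
        split_ifs
        · rw [abs_of_nonneg hek0]; exact hek
        · simp
      nlinarith
    have b' : |y (Sum.inl 2) * (-kp)| ≤ |y (Sum.inl 2)| := by
      rw [abs_mul, abs_neg, abs_of_pos hkp]
      nlinarith
    rw [e]
    refine le_trans (abs_add_le _ _) ?_
    refine le_trans (add_le_add (abs_add_le _ _) le_rfl) ?_
    unfold nrm
    nlinarith

/-- all coordinates of states reachable from `y0` are bounded -/
theorem y0_bound {instr : Fin q → AInstr κ} {gf ξ : κ → ℤ} {c0 : κ} {θ kp ε R X : ℝ}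
    (G : Good instr gf ξ c0 θ kp ε R X) (w : List (Option (Option (Fin q)))) (r : Sig κ) :
    |(y0 ξ ᵥ* (w.map (Bmat instr gf ξ c0 θ kp ε)).prod) r| ≤ 4 * R ^ 2 * X ^ 2 := by
  obtain ⟨acc, M, Δ, t, v, h1, h2, h3, h4, h5⟩ := reach_pure G w 0 1 0 1 ξ Seg.nil le_rfl
    zero_le_one (by simp)
  obtain ⟨f1, f2, f3, f4, Y, f5, f6, f7⟩ := h2.bound G
  have hR2 : 1 ≤ R ^ 2 := one_le_pow₀ G.hR
  have hX2 : 1 ≤ X ^ 2 := one_le_pow₀ G.hX
  have hRX : 1 ≤ R ^ 2 * X ^ 2 := by nlinarith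
  have htY : 0 ≤ t * Y ^ 2 := mul_nonneg f1.le (sq_nonneg _)
  have htY' : t * Y ^ 2 ≤ X ^ 2 := by
    have : 4 * R ^ 2 * (t * Y ^ 2) ≤ 4 * R ^ 2 * X ^ 2 := by linarith
    exact le_of_mul_le_mul_left this (by positivity)
  have hM1 : M ≤ 1 := by linarith
  rw [y0, h1]
  rcases r with r | ⟨i, j⟩
  · fin_cases r
    · simp only [pst, st, Fin.zero_eta, Sum.elim_inl, Matrix.cons_val_zero]
      rw [abs_of_nonneg h3]; nlinarith
    · simp only [pst, st, Fin.mk_one, Sum.elim_inl, Matrix.cons_val_one, Matrix.cons_val_zero]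
      rw [abs_of_nonneg h4]; nlinarith
    · have : pst acc M Δ t v (Sum.inl ((fun i => i) ⟨2, by omega⟩)) = M * Δ := by
        simp [pst, st]
      simp only at this
      rw [this, abs_of_nonneg (mul_nonneg h4 f4)]
      have h6 : 0 ≤ 4 * R ^ 2 * (t * Y ^ 2) := by positivity
      nlinarith
  · simp only [pst, st, Sum.elim_inr]
    have : M * t * (v i : ℝ) * (v j : ℝ) = M * (t * ((v i : ℝ) * (v j : ℝ))) := by ring
    rw [this, abs_mul, abs_mul, abs_mul, abs_of_nonneg h4, abs_of_pos f1]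
    have g1 : |(v i : ℝ)| * |(v j : ℝ)| ≤ Y * Y :=
      mul_le_mul (f6 i) (f6 j) (abs_nonneg _) f5
    have g2 : t * (|(v i : ℝ)| * |(v j : ℝ)|) ≤ t * (Y * Y) :=
      mul_le_mul_of_nonneg_left g1 f1.le
    have g3 : 0 ≤ t * (|(v i : ℝ)| * |(v j : ℝ)|) := by positivity
    nlinarith

/-- boundedness of all products -/
theorem Bmat_bounded {instr : Fin q → AInstr κ} {gf ξ : κ → ℤ} {c0 : κ} {θ kp ε R X : ℝ}
    (G : Good instr gf ξ c0 θ kp ε R X) :
    ∃ C : ℝ, 0 < C ∧ ∀ (w : List (Option (Option (Fin q)))) (p r : Sig κ),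
      |((w.map (Bmat instr gf ξ c0 θ kp ε)).prod) p r| ≤ C := by
  set C0 := 4 * R ^ 2 * X ^ 2 with hC0
  have hC0' : 0 ≤ C0 := by positivity
  have hacc : ∀ (w : List (Option (Option (Fin q)))),
      st 1 0 0 (fun _ _ => 0) ᵥ* (w.map (Bmat instr gf ξ c0 θ kp ε)).prod =
      st (κ := κ) 1 0 0 (fun _ _ => 0) := by
    intro w
    induction w with
    | nil => simp
    | cons a w ih =>
      rw [vecMul_cons_prod]
      have h : st (κ := κ) 1 0 0 (fun _ _ => 0) ᵥ* Bmat instr gf ξ c0 θ kp ε a =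
          st 1 0 0 (fun _ _ => 0) := by
        rcases a with _ | _ | b
        · simp [Bmat]
        · rw [reset_gen, acF_st]
          refine st_ext ?_ ?_ ?_ ?_
          · simp [st]
          · simp [st, dotProduct, muF, Fintype.sum_sum_type, Fin.sum_univ_three]
          · simp [st]
          · intro i j
            simp [st, dotProduct, muF, Fintype.sum_sum_type, Fin.sum_univ_three]
        · have := instr_st instr gf ξ c0 θ kp ε b 1 0 0 0 0
          simpa using this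
      rw [h, ih]
  have key : ∀ (w : List (Option (Option (Fin q)))) (y : Sig κ → ℝ) (r : Sig κ),
      |(y ᵥ* (w.map (Bmat instr gf ξ c0 θ kp ε)).prod) r| ≤ (1 + C0) * nrm R y := by
    intro w
    induction w with
    | nil =>
      intro y r
      simp only [List.map_nil, List.prod_nil, Matrix.vecMul_one]
      have h1 := nrm_coord G.hR y r
      have h2 : 0 ≤ nrm R y := le_trans (abs_nonneg _) h1
      nlinarith
    | cons a w ih =>
      intro y r
      rw [vecMul_cons_prod]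
      rcases a with _ | _ | b
      · have : y ᵥ* Bmat instr gf ξ c0 θ kp ε none = y := by simp [Bmat]
        rw [this]; exact ih y r
      · rw [reset_gen]
        obtain ⟨n1, n2⟩ := nrm_reset G y
        have hsplit : (st (y ⬝ᵥ acF c0 kp ε) (y ⬝ᵥ muF gf c0 kp ε) 0 fun i j =>
            (y ⬝ᵥ muF gf c0 kp ε) * (ξ i : ℝ) * (ξ j : ℝ)) =
            (y ⬝ᵥ acF c0 kp ε) • st (κ := κ) 1 0 0 (fun _ _ => 0) +
              (y ⬝ᵥ muF gf c0 kp ε) • y0 ξ := by
          symm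
          refine st_ext ?_ ?_ ?_ ?_
          · simp [st, y0, pst]
          · simp [st, y0, pst]
          · simp [st, y0, pst]
          · intro i j
            simp [st, y0, pst]
            ring
        rw [hsplit, Matrix.add_vecMul, Matrix.smul_vecMul, Matrix.smul_vecMul, hacc]
        simp only [Pi.add_apply, Pi.smul_apply, smul_eq_mul]
        refine le_trans (abs_add_le _ _) ?_
        rw [abs_mul, abs_mul]
        have g1 : |st (κ := κ) 1 0 0 (fun _ _ => 0) r| ≤ 1 := by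
          rcases r with r | p
          · fin_cases r <;> simp [st]
          · simp [st]
        have g2 := y0_bound G w r
        have g3 := abs_nonneg (st (κ := κ) 1 0 0 (fun _ _ => 0) r)
        have g4 := abs_nonneg ((y0 ξ ᵥ* (w.map (Bmat instr gf ξ c0 θ kp ε)).prod) r)
        have g5 := abs_nonneg (y ⬝ᵥ acF c0 kp ε)
        have g6 := abs_nonneg (y ⬝ᵥ muF gf c0 kp ε)
        have k1 : |y ⬝ᵥ acF c0 kp ε| * |st (κ := κ) 1 0 0 (fun _ _ => 0) r| ≤ nrm R y * 1 :=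
          mul_le_mul n1 g1 g3 (le_trans g5 n1)
        have k2 : |y ⬝ᵥ muF gf c0 kp ε| *
            |(y0 ξ ᵥ* (w.map (Bmat instr gf ξ c0 θ kp ε)).prod) r| ≤ nrm R y * C0 :=
          mul_le_mul n2 g2 g4 (le_trans g6 n2)
        linarith
      · refine le_trans (ih _ r) ?_
        exact mul_le_mul_of_nonneg_left (nrm_instr G b y) (by linarith)
  refine ⟨(1 + C0) * (4 * R ^ 2 + 1) , by positivity, fun w p r => ?_⟩
  have h1 := key w (Pi.single p 1) r
  rw [Matrix.single_one_vecMul] at h1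
  refine le_trans h1 ?_
  refine mul_le_mul_of_nonneg_left ?_ (by linarith)
  have hR2 : 0 ≤ 4 * R ^ 2 := by positivity
  unfold nrm
  rcases p with p | p
  · have e1 : ∑ p' : κ × κ, |(Pi.single (Sum.inl p) (1:ℝ) : Sig κ → ℝ) (Sum.inr p')| = 0 := by
      simp
    rw [e1]
    fin_cases p <;> simp <;> linarith
  · have e1 : ∑ p' : κ × κ, |(Pi.single (Sum.inr p) (1:ℝ) : Sig κ → ℝ) (Sum.inr p')| = 1 := by
      rw [Finset.sum_eq_single p]
      · simp
      · intro b _ hb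
        rw [Pi.single_eq_of_ne]
        · simp
        · intro h; exact hb (Sum.inr_injective h)
      · simp
    rw [e1]
    simp

end Pool.Agent.MP9a50b7
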