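import Pool.Agent.Lib.MP_9a50b7_lc.Core

/-! Combination of a core family with a bounded family through one reset letter. -/

set_option autoImplicit false
set_option linter.unusedSectionVars false

namespace Pool.Agent.MP9a50b7

open Matrix

open scoped Kronecker

variable {ι β S : Type} [Fintype S] [DecidableEq S] {d : ℕ}

/-- the initial row -/
def row0 (y : S → ℝ) (i0 : Fin d) : Fin d × S → ℝ := fun p => if p.1 = i0 then y p.2 else 0

/-- the combined family; `none` is the reset letter -/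
noncomputable def cmb (A : ι → Matrix (Fin d) (Fin d) ℝ) (B : β → Matrix S S ℝ) (y : S → ℝ) (s0 : S)
    (K : ℝ) (i0 j0 : Fin d) : Option (ι × β) → Matrix (Fin d × S) (Fin d × S) ℝ
  | none => vecMulVec (Pi.single (j0, s0) K) (row0 y i0)
  | some p => (A p.1) ⊗ₖ (B p.2)

section basic

variable (A : ι → Matrix (Fin d) (Fin d) ℝ) (B : β → Matrix S S ℝ) (y : S → ℝ) (s0 : S)
  (K : ℝ) (i0 j0 : Fin d)

theorem cmb_pure (u : List (ι × β)) :
    ((u.map some).map (cmb A B y s0 K i0 j0)).prod =
      ((u.map Prod.fst).map A).prod ⊗ₖ ((u.map Prod.snd).map B).prod := by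
  induction u with
  | nil => simp
  | cons a u ih =>
    simp only [List.map_cons, List.prod_cons, ih, Matrix.mul_kronecker_mul]
    rfl

/-- row of a word -/
noncomputable def rw0 (w : List (Option (ι × β))) : Fin d × S → ℝ :=
  row0 y i0 ᵥ* (w.map (cmb A B y s0 K i0 j0)).prod

/-- the scalar of a word -/
noncomputable def phi (w : List (Option (ι × β))) : ℝ := K * rw0 A B y s0 K i0 j0 w (j0, s0)

theorem rw0_pure (u : List (ι × β)) (j : Fin d) (s : S) :
    rw0 A B y s0 K i0 j0 (u.map some) (j, s) =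
      ((u.map Prod.fst).map A).prod i0 j * (y ᵥ* ((u.map Prod.snd).map B).prod) s := by
  unfold rw0
  rw [cmb_pure]
  simp only [Matrix.vecMul, dotProduct, row0, Fintype.sum_prod_type, Matrix.kroneckerMap_apply]
  rw [Finset.sum_eq_single i0]
  · simp only [if_true, Finset.mul_sum]
    refine Finset.sum_congr rfl fun t _ => ?_
    ring
  · intro i _ hi
    simp [hi]
  · intro h
    exact absurd (Finset.mem_univ _) h

theorem phi_pure (u : List (ι × β)) :
    phi A B y s0 K i0 j0 (u.map some) =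
      K * (((u.map Prod.fst).map A).prod i0 j0 * (y ᵥ* ((u.map Prod.snd).map B).prod) s0) := by
  unfold phi
  rw [rw0_pure]

theorem prod_split (x w' : List (Option (ι × β))) :
    ((x ++ none :: w').map (cmb A B y s0 K i0 j0)).prod =
      vecMulVec ((x.map (cmb A B y s0 K i0 j0)).prod *ᵥ (Pi.single (j0, s0) K))
        (rw0 A B y s0 K i0 j0 w') := by
  rw [List.map_append, List.prod_append, List.map_cons, List.prod_cons]
  simp only [cmb, rw0]
  rw [Matrix.vecMulVec_mul, Matrix.mul_vecMulVec]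

theorem dot_col (v : Fin d × S → ℝ) (x : List (Option (ι × β))) :
    v ⬝ᵥ ((x.map (cmb A B y s0 K i0 j0)).prod *ᵥ (Pi.single (j0, s0) K)) =
      K * (v ᵥ* (x.map (cmb A B y s0 K i0 j0)).prod) (j0, s0) := by
  rw [Matrix.dotProduct_mulVec, dotProduct_single, mul_comm]

theorem rw0_split (x w' : List (Option (ι × β))) :
    rw0 A B y s0 K i0 j0 (x ++ none :: w') =
      phi A B y s0 K i0 j0 x • rw0 A B y s0 K i0 j0 w' := by
  conv_lhs => rw [rw0, prod_split]
  rw [Matrix.vecMul_vecMulVec, dot_col]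
  rfl

theorem phi_split (x w' : List (Option (ι × β))) :
    phi A B y s0 K i0 j0 (x ++ none :: w') =
      phi A B y s0 K i0 j0 x * phi A B y s0 K i0 j0 w' := by
  conv_lhs => rw [phi, rw0_split]
  rw [Pi.smul_apply, smul_eq_mul]
  conv_rhs => rw [phi, phi]
  rw [phi]
  ring

/-- powers of a product containing the reset letter -/
theorem pow_split (x w' : List (Option (ι × β))) (k : ℕ) :
    ((x ++ none :: w').map (cmb A B y s0 K i0 j0)).prod ^ (k + 1) =
      (phi A B y s0 K i0 j0 (w' ++ x)) ^ k •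
        ((x ++ none :: w').map (cmb A B y s0 K i0 j0)).prod := by
  induction k with
  | zero => simp
  | succ k ih =>
    rw [pow_succ, ih, Matrix.smul_mul]
    conv_lhs => rw [prod_split, Matrix.vecMulVec_mul_vecMulVec, dot_col]
    rw [prod_split]
    have e1 : rw0 A B y s0 K i0 j0 w' ᵥ* (x.map (cmb A B y s0 K i0 j0)).prod =
        rw0 A B y s0 K i0 j0 (w' ++ x) := by
      rw [rw0, rw0, Matrix.vecMul_vecMul, List.map_append, List.prod_append]
    rw [e1]
    ext p q
    simp only [Matrix.smul_apply, vecMulVec_apply, smul_eq_mul, Pi.smul_apply, phi, pow_succ]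
    ring

end basic

/-- decomposition of words -/
theorem word_cases {γ : Type} (w : List (Option γ)) :
    (∃ u : List γ, w = u.map some) ∨ ∃ (u : List γ) (w' : List (Option γ)),
      w = u.map some ++ none :: w' := by
  induction w with
  | nil => exact Or.inl ⟨[], rfl⟩
  | cons a w ih =>
    cases a with
    | none => exact Or.inr ⟨[], w, rfl⟩
    | some a =>
      rcases ih with ⟨u, rfl⟩ | ⟨u, w', rfl⟩
      · exact Or.inl ⟨a :: u, rfl⟩
      · exact Or.inr ⟨a :: u, w', rfl⟩

theorem exists_rate {z ρ0 : ℝ} {n : ℕ} (hρ0 : 0 < ρ0) (hz : z < ρ0 ^ n) :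
    ∃ ρ, 0 < ρ ∧ ρ < ρ0 ∧ z ≤ ρ ^ n := by
  have h1 : ∀ᶠ ρ in nhds ρ0, z < ρ ^ n :=
    ((continuous_pow n).tendsto ρ0).eventually (lt_mem_nhds hz)
  have h2 : ∀ᶠ ρ in nhds ρ0, 0 < ρ := lt_mem_nhds hρ0
  have h3 : ∀ᶠ ρ in nhdsWithin ρ0 (Set.Iio ρ0), z < ρ ^ n ∧ 0 < ρ ∧ ρ < ρ0 := by
    filter_upwards [nhdsWithin_le_nhds h1, nhdsWithin_le_nhds h2, self_mem_nhdsWithin]
      with ρ a b c
    exact ⟨a, b, c⟩
  obtain ⟨ρ, a, b, c⟩ := h3.exists
  exact ⟨ρ, b, c, a.le⟩

theorem entry_bound {I : Type} [Fintype I] (P : Matrix I I ℝ) (i j : I) :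
    |P i j| ≤ ∑ i, ∑ j, |P i j| := by
  have e4 := Finset.single_le_sum (f := fun i => ∑ j, |P i j|)
    (fun _ _ => Finset.sum_nonneg fun _ _ => abs_nonneg _) (Finset.mem_univ i)
  have e5 := Finset.single_le_sum (f := fun j => |P i j|) (fun _ _ => abs_nonneg _)
    (Finset.mem_univ j)
  exact le_trans e5 e4

section main

variable {A : ι → Matrix (Fin d) (Fin d) ℝ} {B : β → Matrix S S ℝ} {y : S → ℝ} {s0 : S}
  {K ρ0 C c : ℝ} {i0 j0 : Fin d}

theorem prod_idle {b0 : β} (hb0 : B b0 = 1) (n : ℕ) : ((List.replicate n b0).map B).prod = 1 := by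
  rw [List.map_replicate, List.prod_replicate, hb0, one_pow]

theorem cmb_not_gr (hA : CoreFam A ρ0 C c i0 j0) {b0 : β} (hb0 : B b0 = 1) {ρ : ℝ} (hρ : 0 < ρ)
    (hlt : ρ < ρ0) : ¬ Gr (cmb A B y s0 K i0 j0) ρ := by
  rintro ⟨C', hC'⟩
  have hq : 1 < ρ0 / ρ := (one_lt_div hρ).2 hlt
  obtain ⟨N, hN⟩ := pow_unbounded_of_one_lt (C' / c) hq
  obtain ⟨w, hw1, hw2⟩ := hA.L N
  have h1 := hC' ((w.map fun a => (a, b0)).map some) (i0, s0) (j0, s0)
  rw [cmb_pure] at h1
  simp only [List.length_map, Matrix.kroneckerMap_apply, List.map_map] at h1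
  have e1 : (List.map (A ∘ Prod.fst ∘ fun a => (a, b0)) w) = w.map A := rfl
  have e2 : (List.map (B ∘ Prod.snd ∘ fun (a : ι) => (a, b0)) w).prod = 1 := by
    have : (B ∘ Prod.snd ∘ fun (a : ι) => (a, b0)) = fun _ => (1 : Matrix S S ℝ) := by
      funext a; exact hb0
    rw [this, List.map_const', List.prod_replicate, one_pow]
  rw [e1, e2, Matrix.one_apply_eq, mul_one] at h1
  have h2 : c * ρ0 ^ w.length ≤ C' * ρ ^ w.length := hw2.trans h1
  have h3 : (ρ0 / ρ) ^ N ≤ (ρ0 / ρ) ^ w.length := pow_le_pow_right₀ hq.le hw1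
  have h4 : (ρ0 / ρ) ^ w.length ≤ C' / c := by
    rw [div_pow, div_le_div_iff₀ (pow_pos hρ _) hA.hc]
    linarith
  linarith

theorem cmb_phi_lt (hA : CoreFam A ρ0 C c i0 j0) (hK : 0 < K) {ε : ℝ}
    (hsmall : ∀ w : List β, |(y ᵥ* (w.map B).prod) s0| ≤ ε) (hε : K * C * ε < ρ0)
    (w : List (Option (ι × β))) : |phi A B y s0 K i0 j0 w| < ρ0 ^ (w.length + 1) := by
  have hpure : ∀ u : List (ι × β),
      |phi A B y s0 K i0 j0 (u.map some)| < ρ0 ^ (u.length + 1) := by
    intro u
    rw [phi_pure, abs_mul, abs_mul, abs_of_pos hK]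
    have e1 := hA.U (u.map Prod.fst) i0 j0
    rw [List.length_map] at e1
    have e2 := hsmall (u.map Prod.snd)
    have e3 : 0 < ρ0 ^ u.length := pow_pos hA.hρ0 _
    calc K * (|((u.map Prod.fst).map A).prod i0 j0| *
          |(y ᵥ* ((u.map Prod.snd).map B).prod) s0|) ≤ K * (C * ρ0 ^ u.length * ε) := by
          refine mul_le_mul_of_nonneg_left ?_ hK.le
          exact mul_le_mul e1 e2 (abs_nonneg _) (mul_nonneg hA.hC.le e3.le)
      _ = (K * C * ε) * ρ0 ^ u.length := by ring
      _ < ρ0 * ρ0 ^ u.length := mul_lt_mul_of_pos_right hε e3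
      _ = ρ0 ^ (u.length + 1) := by rw [pow_succ]; ring
  induction hw : w.length using Nat.strong_induction_on generalizing w with
  | _ m ih =>
    rcases word_cases w with ⟨u, rfl⟩ | ⟨u, w', rfl⟩
    · rw [List.length_map] at hw
      rw [← hw]
      exact hpure u
    · rw [phi_split, abs_mul]
      rw [List.length_append, List.length_map, List.length_cons] at hw
      have e1 := ih w'.length (by omega) w' rfl
      have e2 := hpure u
      have e3 : m + 1 = (u.length + 1) + (w'.length + 1) := by omega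
      rw [e3, pow_add]
      exact mul_lt_mul'' e2 e1 (abs_nonneg _) (abs_nonneg _)

/-- the finiteness property fails when the acceptance is small -/
theorem cmb_fail (hA : CoreFam A ρ0 C c i0 j0) {b0 : β} (hb0 : B b0 = 1) (hK : 0 < K) {ε CB : ℝ}
    (hB : ∀ (w : List β) p r, |(w.map B).prod p r| ≤ CB)
    (hsmall : ∀ w : List β, |(y ᵥ* (w.map B).prod) s0| ≤ ε) (hε : K * C * ε < ρ0) :
    ¬ FPg (cmb A B y s0 K i0 j0) := by
  rintro ⟨w, hw, h⟩
  have hCB : 0 ≤ CB := (abs_nonneg _).trans (hB [] s0 s0)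
  have key : ∃ ρ, 0 < ρ ∧ ρ < ρ0 ∧
      PGr ((w.map (cmb A B y s0 K i0 j0)).prod) (ρ ^ w.length) := by
    rcases word_cases w with ⟨u, rfl⟩ | ⟨u, w', rfl⟩
    · have hu : u.map Prod.fst ≠ [] := by
        intro h0
        apply hw
        rw [List.map_eq_nil_iff] at h0 ⊢
        exact h0
      obtain ⟨ρ, h1, h2, C', h3⟩ := hA.E _ hu
      refine ⟨ρ, h1, h2, |C'| * CB, fun k p q => ?_⟩
      rw [cmb_pure]
      have e1 : (((u.map Prod.fst).map A).prod ⊗ₖ ((u.map Prod.snd).map B).prod) ^ k =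
          (((u.map Prod.fst).map A).prod ^ k) ⊗ₖ (((u.map Prod.snd).map B).prod ^ k) := by
        induction k with
        | zero => simp
        | succ k ih => rw [pow_succ, pow_succ, pow_succ, ih, Matrix.mul_kronecker_mul]
      rw [e1, Matrix.kroneckerMap_apply, abs_mul]
      have e2 := h3 k p.1 q.1
      rw [List.length_map] at e2
      have e3 : |(((u.map Prod.snd).map B).prod ^ k) p.2 q.2| ≤ CB := by
        have e4 : ((u.map Prod.snd).map B).prod ^ k =
            (((List.replicate k (u.map Prod.snd)).flatten).map B).prod := by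
          rw [List.map_flatten, List.prod_flatten, List.map_replicate, List.map_replicate,
            List.prod_replicate]
        rw [e4]
        exact hB _ _ _
      have e5 : 0 ≤ (ρ ^ u.length) ^ k := by positivity
      have e6 : C' * (ρ ^ u.length) ^ k ≤ |C'| * (ρ ^ u.length) ^ k :=
        mul_le_mul_of_nonneg_right (le_abs_self _) e5
      rw [List.length_map]
      calc _ ≤ |C'| * (ρ ^ u.length) ^ k * CB :=
            mul_le_mul (e2.trans e6) e3 (abs_nonneg _) (by positivity)
        _ = _ := by ring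
    · set W := u.map some ++ none :: w' with hW
      have hlen : W.length = (w' ++ u.map some).length + 1 := by
        simp [hW]; omega
      have hz := cmb_phi_lt hA hK hsmall hε (w' ++ u.map some)
      rw [← hlen] at hz
      obtain ⟨ρ, h1, h2, h3⟩ := exists_rate hA.hρ0 hz
      set P := (W.map (cmb A B y s0 K i0 j0)).prod with hP
      set z := phi A B y s0 K i0 j0 (w' ++ u.map some) with hzdef
      set Pm := ∑ i, ∑ j, |P i j| with hPm
      have hPm0 : 0 ≤ Pm := Finset.sum_nonneg fun _ _ => Finset.sum_nonneg fun _ _ => abs_nonneg _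
      have hρw : 0 < ρ ^ W.length := pow_pos h1 _
      refine ⟨ρ, h1, h2, 1 + Pm / ρ ^ W.length, fun k p q => ?_⟩
      cases k with
      | zero =>
        rw [pow_zero, pow_zero, mul_one]
        have : |(1 : Matrix (Fin d × S) (Fin d × S) ℝ) p q| ≤ 1 := by
          rw [Matrix.one_apply]
          split_ifs <;> simp
        have h4 : 0 ≤ Pm / ρ ^ W.length := by positivity
        linarith
      | succ k =>
        have e1 : P ^ (k + 1) = z ^ k • P := pow_split A B y s0 K i0 j0 (u.map some) w' k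
        rw [e1, Matrix.smul_apply, smul_eq_mul, abs_mul, abs_pow]
        have e2 : |z| ^ k ≤ (ρ ^ W.length) ^ k := pow_le_pow_left₀ (abs_nonneg _) h3 k
        have e3 : |P p q| ≤ Pm := entry_bound P p q
        have e4 : 0 ≤ (ρ ^ W.length) ^ (k + 1) := by positivity
        calc |z| ^ k * |P p q| ≤ (ρ ^ W.length) ^ k * Pm :=
              mul_le_mul e2 e3 (abs_nonneg _) (by positivity)
          _ = Pm / ρ ^ W.length * (ρ ^ W.length) ^ (k + 1) := by
              rw [pow_succ]; field_simp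
          _ ≤ (1 + Pm / ρ ^ W.length) * (ρ ^ W.length) ^ (k + 1) :=
              mul_le_mul_of_nonneg_right (by linarith) e4
  obtain ⟨ρ, h1, h2, h3⟩ := key
  have h4 := h ρ h1 h3 ((ρ0 - ρ) / 2) (by linarith)
  exact cmb_not_gr hA hb0 (by linarith) (by linarith) h4

/-- a maximal scalar -/
theorem cmb_exists_max [Finite ι] [Finite β] (hA : CoreFam A ρ0 C c i0 j0) (hK : 0 < K) {CB : ℝ}
    (hB : ∀ (w : List β) p r, |(w.map B).prod p r| ≤ CB)
    {u1 : List (ι × β)} (hu1 : ρ0 ^ (u1.length + 1) < |phi A B y s0 K i0 j0 (u1.map some)|) :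
    ∃ (lam : ℝ) (u : List (ι × β)), ρ0 < lam ∧
      |phi A B y s0 K i0 j0 (u.map some)| = lam ^ (u.length + 1) ∧
      ∀ u' : List (ι × β), |phi A B y s0 K i0 j0 (u'.map some)| ≤ lam ^ (u'.length + 1) := by
  classical
  have hCB : 0 ≤ CB := (abs_nonneg _).trans (hB [] s0 s0)
  set f : List (ι × β) → ℝ := fun u =>
    |phi A B y s0 K i0 j0 (u.map some)| ^ (((u.length + 1 : ℕ) : ℝ)⁻¹) with hf
  have hf0 : ∀ u, 0 ≤ f u := fun u => Real.rpow_nonneg (abs_nonneg _) _
  have hfp : ∀ u, f u ^ (u.length + 1) = |phi A B y s0 K i0 j0 (u.map some)| := fun u =>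
    Real.rpow_inv_natCast_pow (abs_nonneg _) (Nat.succ_ne_zero _)
  have hf1 : ρ0 < f u1 := by
    refine lt_of_pow_lt_pow_left₀ (u1.length + 1) (hf0 _) ?_
    rw [hfp]
    exact hu1
  have hf1pos : 0 < f u1 := hA.hρ0.trans hf1
  set Y := ∑ s, |y s| with hY
  have hY0 : 0 ≤ Y := Finset.sum_nonneg fun _ _ => abs_nonneg _
  have hacc : ∀ (w : List β) (s : S), |(y ᵥ* (w.map B).prod) s| ≤ Y * CB := by
    intro w s
    simp only [Matrix.vecMul, dotProduct]
    refine (Finset.abs_sum_le_sum_abs _ _).trans ?_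
    rw [hY, Finset.sum_mul]
    refine Finset.sum_le_sum fun t _ => ?_
    rw [abs_mul]
    exact mul_le_mul_of_nonneg_left (hB _ _ _) (abs_nonneg _)
  have hphi : ∀ u : List (ι × β), |phi A B y s0 K i0 j0 (u.map some)| ≤
      (K * C * (Y * CB)) * ρ0 ^ u.length := by
    intro u
    rw [phi_pure, abs_mul, abs_mul, abs_of_pos hK]
    have e1 := hA.U (u.map Prod.fst) i0 j0
    rw [List.length_map] at e1
    have e2 := hacc (u.map Prod.snd) s0
    have e3 : 0 < ρ0 ^ u.length := pow_pos hA.hρ0 _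
    calc K * (|((u.map Prod.fst).map A).prod i0 j0| *
          |(y ᵥ* ((u.map Prod.snd).map B).prod) s0|) ≤ K * (C * ρ0 ^ u.length * (Y * CB)) := by
          refine mul_le_mul_of_nonneg_left ?_ hK.le
          exact mul_le_mul e1 e2 (abs_nonneg _) (mul_nonneg hA.hC.le e3.le)
      _ = _ := by ring
  have hq : 1 < f u1 / ρ0 := (one_lt_div hA.hρ0).2 hf1
  obtain ⟨N, hN⟩ := pow_unbounded_of_one_lt (K * C * (Y * CB) / f u1) hq
  have hbig : ∀ u : List (ι × β), N ≤ u.length → f u ≤ f u1 := by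
    intro u hu
    refine le_of_pow_le_pow_left₀ (n := u.length + 1) (Nat.succ_ne_zero _) hf1pos.le ?_
    rw [hfp]
    refine (hphi u).trans ?_
    have e1 : (f u1 / ρ0) ^ N ≤ (f u1 / ρ0) ^ u.length := pow_le_pow_right₀ hq.le hu
    have e2 : K * C * (Y * CB) / f u1 < (f u1 / ρ0) ^ u.length := lt_of_lt_of_le hN e1
    rw [div_pow, div_lt_div_iff₀ hf1pos (pow_pos hA.hρ0 _)] at e2
    rw [pow_succ]
    linarith
  have hfin : (insert u1 {u : List (ι × β) | u.length < N}).Finite :=
    (List.finite_length_lt (ι × β) N).insert u1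
  obtain ⟨u, hu, hmax⟩ := Set.exists_max_image _ f hfin ⟨u1, Set.mem_insert _ _⟩
  have hmax' : ∀ u', f u' ≤ f u := by
    intro u'
    by_cases h : u'.length < N
    · exact hmax u' (Set.mem_insert_of_mem _ h)
    · push Not at h
      exact (hbig u' h).trans (hmax u1 (Set.mem_insert _ _))
  refine ⟨f u, u, hf1.trans_le (hmax' u1), (hfp u).symm, fun u' => ?_⟩
  rw [← hfp u']
  exact pow_le_pow_left₀ (hf0 _) (hmax' u') _

/-- the finiteness property holds when the acceptance is large -/
theorem cmb_hold [Finite ι] [Finite β] (hA : CoreFam A ρ0 C c i0 j0) {b0 : β} (hb0 : B b0 = 1)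
    (hK : 0 < K) {CB : ℝ}
    (hB : ∀ (w : List β) p r, |(w.map B).prod p r| ≤ CB)
    (hlarge : ∃ w : List β, 1 / 2 ≤ (y ᵥ* (w.map B).prod) s0) (hKc : 2 * ρ0 < K * c) :
    FPg (cmb A B y s0 K i0 j0) := by
  classical
  have hCB : 0 ≤ CB := (abs_nonneg _).trans (hB [] s0 s0)
  obtain ⟨v, hv⟩ := hlarge
  obtain ⟨w, hw1, hw2⟩ := hA.L v.length
  set v' := v ++ List.replicate (w.length - v.length) b0 with hv'
  have hv'l : v'.length = w.length := by simp [hv']; omega
  have hv'B : (v'.map B).prod = (v.map B).prod := by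
    rw [hv', List.map_append, List.prod_append, prod_idle hb0, mul_one]
  set u1 := w.zip v' with hu1
  have hfst : u1.map Prod.fst = w := List.map_fst_zip (by omega)
  have hsnd : u1.map Prod.snd = v' := List.map_snd_zip (by omega)
  have hu1l : u1.length = w.length := by rw [hu1, List.length_zip, hv'l, min_self]
  have hgt : ρ0 ^ (u1.length + 1) < |phi A B y s0 K i0 j0 (u1.map some)| := by
    rw [phi_pure, hfst, hsnd, hv'B, hu1l, abs_mul, abs_mul, abs_of_pos hK]
    have e1 : 1 / 2 ≤ |(y ᵥ* (v.map B).prod) s0| := hv.trans (le_abs_self _)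
    have e2 : 0 < ρ0 ^ w.length := pow_pos hA.hρ0 _
    calc ρ0 ^ (w.length + 1) = ρ0 * ρ0 ^ w.length := by rw [pow_succ]; ring
      _ < K * c / 2 * ρ0 ^ w.length := mul_lt_mul_of_pos_right (by linarith) e2
      _ = K * (c * ρ0 ^ w.length * (1 / 2)) := by ring
      _ ≤ _ := by
        refine mul_le_mul_of_nonneg_left ?_ hK.le
        exact mul_le_mul hw2 e1 (by norm_num) (abs_nonneg _)
  obtain ⟨lam, u, h1, h2, h3⟩ := cmb_exists_max hA hK hB hgt
  have hlam0 : 0 < lam := hA.hρ0.trans h1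
  set Y := ∑ s, |y s| with hY
  have hY0 : 0 ≤ Y := Finset.sum_nonneg fun _ _ => abs_nonneg _
  have hacc : ∀ (w : List β) (s : S), |(y ᵥ* (w.map B).prod) s| ≤ Y * CB := by
    intro w s
    simp only [Matrix.vecMul, dotProduct]
    refine (Finset.abs_sum_le_sum_abs _ _).trans ?_
    rw [hY, Finset.sum_mul]
    refine Finset.sum_le_sum fun t _ => ?_
    rw [abs_mul]
    exact mul_le_mul_of_nonneg_left (hB _ _ _) (abs_nonneg _)
  have hpl : ∀ n : ℕ, ρ0 ^ n ≤ lam ^ n := fun n => pow_le_pow_left₀ hA.hρ0.le h1.le n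
  set C1 := C * (Y * CB) with hC1
  have hC10 : 0 ≤ C1 := mul_nonneg hA.hC.le (mul_nonneg hY0 hCB)
  -- rows
  have hrow : ∀ (w : List (Option (ι × β))) (q : Fin d × S),
      |rw0 A B y s0 K i0 j0 w q| ≤ C1 * lam ^ w.length := by
    intro w
    induction hw : w.length using Nat.strong_induction_on generalizing w with
    | _ m ih =>
      intro q
      rcases word_cases w with ⟨u', rfl⟩ | ⟨u', w', rfl⟩
      · rw [List.length_map] at hw
        rw [show q = (q.1, q.2) from rfl, rw0_pure, abs_mul, ← hw]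
        have e1 := hA.U (u'.map Prod.fst) i0 q.1
        rw [List.length_map] at e1
        have e2 := hacc (u'.map Prod.snd) q.2
        have e3 : 0 < ρ0 ^ u'.length := pow_pos hA.hρ0 _
        calc _ ≤ C * ρ0 ^ u'.length * (Y * CB) :=
              mul_le_mul e1 e2 (abs_nonneg _) (mul_nonneg hA.hC.le e3.le)
          _ = C1 * ρ0 ^ u'.length := by rw [hC1]; ring
          _ ≤ C1 * lam ^ u'.length := mul_le_mul_of_nonneg_left (hpl _) hC10
      · rw [rw0_split, Pi.smul_apply, smul_eq_mul, abs_mul]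
        rw [List.length_append, List.length_map, List.length_cons] at hw
        have e1 := ih w'.length (by omega) w' rfl q
        have e2 := h3 u'
        have e3 : m = (u'.length + 1) + w'.length := by omega
        rw [e3, pow_add]
        calc _ ≤ lam ^ (u'.length + 1) * (C1 * lam ^ w'.length) :=
              mul_le_mul e2 e1 (abs_nonneg _) (by positivity)
          _ = _ := by ring
  -- growth
  have hpureE : ∀ (u' : List (ι × β)) (p q : Fin d × S),
      |((u'.map some).map (cmb A B y s0 K i0 j0)).prod p q| ≤ C * CB * lam ^ u'.length := by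
    intro u' p q
    rw [cmb_pure, Matrix.kroneckerMap_apply, abs_mul]
    have e1 := hA.U (u'.map Prod.fst) p.1 q.1
    rw [List.length_map] at e1
    have e3 : 0 < ρ0 ^ u'.length := pow_pos hA.hρ0 _
    calc _ ≤ C * ρ0 ^ u'.length * CB :=
          mul_le_mul e1 (hB _ _ _) (abs_nonneg _) (mul_nonneg hA.hC.le e3.le)
      _ = C * CB * ρ0 ^ u'.length := by ring
      _ ≤ _ := mul_le_mul_of_nonneg_left (hpl _) (mul_nonneg hA.hC.le hCB)
  have hgr : Gr (cmb A B y s0 K i0 j0) lam := by
    refine ⟨C * CB + C * CB * K * C1 / lam, fun w p q => ?_⟩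
    have hCCB : 0 ≤ C * CB := mul_nonneg hA.hC.le hCB
    have hsec : 0 ≤ C * CB * K * C1 / lam := by positivity
    rcases word_cases w with ⟨u', rfl⟩ | ⟨u', w', rfl⟩
    · refine (hpureE u' p q).trans ?_
      rw [List.length_map]
      exact mul_le_mul_of_nonneg_right (by linarith) (pow_nonneg hlam0.le _)
    · rw [prod_split, vecMulVec_apply, abs_mul]
      have e1 : ((((u'.map some).map (cmb A B y s0 K i0 j0)).prod) *ᵥ
          (Pi.single (j0, s0) K : Fin d × S → ℝ)) p =
          ((u'.map some).map (cmb A B y s0 K i0 j0)).prod p (j0, s0) * K := by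
        rw [Matrix.mulVec, dotProduct_single]
      rw [e1, abs_mul, abs_of_pos hK]
      have e2 := hpureE u' p (j0, s0)
      have e3 := hrow w' q
      have e4 : 0 ≤ C * CB * lam ^ u'.length * K := by positivity
      have hlenw : (u'.map some ++ none :: w').length = u'.length + w'.length + 1 := by
        simp; omega
      rw [hlenw]
      calc _ ≤ C * CB * lam ^ u'.length * K * (C1 * lam ^ w'.length) :=
            mul_le_mul (mul_le_mul_of_nonneg_right e2 hK.le) e3 (abs_nonneg _) e4
        _ = C * CB * K * C1 / lam * lam ^ (u'.length + w'.length + 1) := by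
            rw [pow_succ, pow_add]; field_simp
        _ ≤ _ := mul_le_mul_of_nonneg_right (by linarith) (pow_nonneg hlam0.le _)
  refine ⟨none :: u.map some, by simp, fun ρ hρ hP ε hε => ?_⟩
  obtain ⟨C', hC'⟩ := hP
  set P := ((none :: u.map some).map (cmb A B y s0 K i0 j0)).prod with hPdef
  set z := phi A B y s0 K i0 j0 (u.map some) with hz
  have hpow : ∀ k, P ^ (k + 1) = z ^ k • P := by
    intro k
    have := pow_split A B y s0 K i0 j0 [] (u.map some) k
    simpa [hPdef, hz] using this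
  have hPz : P (j0, s0) (j0, s0) = z := by
    have := prod_split A B y s0 K i0 j0 [] (u.map some)
    rw [List.nil_append] at this
    rw [hPdef, this, vecMulVec_apply]
    simp [hz, phi]
  have hzle : |z| ≤ ρ ^ (none :: u.map some).length := by
    refine le_of_pow_le (C := C') (abs_nonneg _) (pow_pos hρ _) fun k => ?_
    have e1 := hC' k (j0, s0) (j0, s0)
    cases k with
    | zero => simpa using e1
    | succ k =>
      rw [hpow, Matrix.smul_apply, smul_eq_mul, hPz, ← pow_succ, abs_pow] at e1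
      exact e1
  rw [h2] at hzle
  have hlen2 : (none :: u.map some).length = u.length + 1 := by simp
  rw [hlen2] at hzle
  have hle : lam ≤ ρ := le_of_pow_le_pow_left₀ (Nat.succ_ne_zero _) hρ.le hzle
  exact hgr.mono hlam0.le (by linarith)

end main

end Pool.Agent.MP9a50b7
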