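import Pool.Agent.Lib.MP_9a50b7_lc.Machine

/-! Every primitive recursive function is computed by a control graph. -/

set_option autoImplicit false

namespace Pool.Agent.MP9a50b7

open Relation

/-- `f` can be computed into register `N` from argument registers below `N`, keeping all
registers below `N`. -/
def Computes {n : ℕ} (f : List.Vector ℕ n → ℕ) : Prop :=
  ∀ (N : ℕ) (idx : Fin n → ℕ), (∀ i, idx i < N) →
    ∃ ρ, Real ρ ∧
      (∀ s s', ρ s s' → (∀ i < N, s' i = s i) ∧
        s' N = f (List.Vector.ofFn fun i => s (idx i))) ∧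
      (∀ s, ∃ s', ρ s s')

theorem computes_family {m : ℕ} (n : ℕ) (g : Fin n → List.Vector ℕ m → ℕ)
    (hg : ∀ i, Computes (g i)) (N : ℕ) (idx : Fin m → ℕ) (hidx : ∀ i, idx i < N) :
    ∃ ρ, Real ρ ∧
      (∀ s s', ρ s s' → (∀ i < N, s' i = s i) ∧
        ∀ i : Fin n, s' (N + i) = g i (List.Vector.ofFn fun i => s (idx i))) ∧
      (∀ s, ∃ s', ρ s s') := by
  induction n with
  | zero =>
    refine ⟨Op.skip.rel, Real.op _, fun s s' h => ?_, fun s => ⟨s, rfl⟩⟩
    simp only [Op.rel] at h
    subst h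
    exact ⟨fun _ _ => rfl, fun i => i.elim0⟩
  | succ n ih =>
    obtain ⟨ρ1, r1, c1, t1⟩ := ih (fun i => g i.castSucc) (fun i => hg _)
    obtain ⟨ρ2, r2, c2, t2⟩ := hg (Fin.last n) (N + n) idx
      (fun i => lt_of_lt_of_le (hidx i) (Nat.le_add_right _ _))
    refine ⟨_, r1.seq r2, ?_, ?_⟩
    · rintro s s' ⟨m1, hm1, hm2⟩
      obtain ⟨a1, a2⟩ := c1 _ _ hm1
      obtain ⟨b1, b2⟩ := c2 _ _ hm2
      have hv : (List.Vector.ofFn fun i => m1 (idx i)) = List.Vector.ofFn fun i => s (idx i) := by
        congr 1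
        funext i
        exact a1 _ (hidx i)
      refine ⟨fun i hi => ?_, fun i => ?_⟩
      · rw [b1 i (by omega), a1 i hi]
      · refine Fin.lastCases ?_ (fun j => ?_) i
        · rw [Fin.val_last, b2, hv]
        · rw [Fin.val_castSucc, b1 _ (by have := j.2; omega), a2 j]
    · intro s
      obtain ⟨m1, h1⟩ := t1 s
      obtain ⟨s', h2⟩ := t2 m1
      exact ⟨s', m1, h1, h2⟩

/-- the body of the loop for a primitive recursion -/
def recFun {n : ℕ} (f : List.Vector ℕ n → ℕ) (g : List.Vector ℕ (n + 2) → ℕ)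
    (v : List.Vector ℕ n) (m : ℕ) : ℕ :=
  Nat.rec (f v) (fun y IH => g (y ::ᵥ IH ::ᵥ v)) m

theorem computes_prec {n : ℕ} {f : List.Vector ℕ n → ℕ} {g : List.Vector ℕ (n + 2) → ℕ}
    (hf : Computes f) (hg : Computes g) :
    Computes fun v : List.Vector ℕ (n + 1) => recFun f g v.tail v.head := by
  intro N idx hidx
  -- initial part
  obtain ⟨ρ1, r1, c1, t1⟩ := hf (N + 1) (fun i => idx i.succ)
    (fun i => Nat.lt_succ_of_lt (hidx _))
  -- loop body: evaluate g
  obtain ⟨ρ2, r2, c2, t2⟩ := hg (N + 2)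
    (Fin.cons N (Fin.cons (N + 1) fun i : Fin n => idx i.succ))
    (fun i => by
      refine Fin.cases ?_ (fun i => ?_) i
      · simp
      · refine Fin.cases ?_ (fun i => ?_) i
        · simp
        · simp only [Fin.cons_succ]
          have := hidx i.succ
          omega)
  set body : (ℕ → ℕ) → (ℕ → ℕ) → Prop := fun s s' => ∃ m, ρ2 s m ∧ ∃ m', (Op.copy (N + 1) (N + 2)).rel m m' ∧
    (Op.inc N).rel m' s' with hbody
  have rbody : Real body := r2.seq ((Real.op _).seq (Real.op _))
  have cbody : ∀ s s', body s s' → (∀ i < N, s' i = s i) ∧ s' N = s N + 1 ∧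
      s' (N + 1) = g (s N ::ᵥ s (N + 1) ::ᵥ List.Vector.ofFn fun i => s (idx i.succ)) := by
    rintro s s' ⟨m, h1, m', h2, h3⟩
    obtain ⟨a1, a2⟩ := c2 _ _ h1
    simp only [Op.rel] at h2 h3
    subst h2
    subst h3
    refine ⟨fun i hi => ?_, ?_, ?_⟩
    · rw [Function.update_of_ne (by omega), Function.update_of_ne (by omega), a1 i (by omega)]
    · rw [Function.update_self, Function.update_of_ne (by omega), a1 N (by omega)]
    · rw [Function.update_of_ne (by omega), Function.update_self, a2]
      congr 1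
  have tbody : ∀ s, ∃ s', body s s' := by
    intro s
    obtain ⟨m, hm⟩ := t2 s
    exact ⟨_, m, hm, _, rfl, rfl⟩
  -- total program
  refine ⟨fun s s' => ∃ s1, (Op.clear N).rel s s1 ∧ ∃ s2, ρ1 s1 s2 ∧
    ∃ s3, ReflTransGen body s2 s3 ∧ ∃ s4, (Op.test (idx 0) N).rel s3 s4 ∧
      (Op.copy N (N + 1)).rel s4 s', ?_, ?_, ?_⟩
  · exact (Real.op _).seq (r1.seq (rbody.star.seq ((Real.op _).seq (Real.op _))))
  · rintro s s' ⟨s1, h1, s2, h2, s3, h3, s4, h4, h5⟩
    simp only [Op.rel] at h1 h4 h5
    obtain ⟨a1, a2⟩ := c1 _ _ h2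
    have key : (∀ i < N, s3 i = s i) ∧
        s3 (N + 1) = recFun f g (List.Vector.ofFn fun i => s (idx i.succ)) (s3 N) := by
      clear h4 h5
      induction h3 with
      | refl =>
        refine ⟨fun i hi => ?_, ?_⟩
        · rw [a1 i (by omega), h1, Function.update_of_ne (by omega)]
        · rw [a2, a1 N (by omega), h1, Function.update_self]
          simp only [recFun]
          congr 2
          funext i
          have := hidx i.succ
          rw [Function.update_of_ne (by omega)]
      | @tail b c hb hbc ih =>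
        obtain ⟨i1, i2⟩ := ih
        obtain ⟨b1, b2, b3⟩ := cbody _ _ hbc
        refine ⟨fun i hi => ?_, ?_⟩
        · rw [b1 i hi, i1 i hi]
        · rw [b3, b2, i2]
          simp only [recFun]
          have : (List.Vector.ofFn fun i => b (idx i.succ)) =
              (List.Vector.ofFn fun i => s (idx i.succ)) := by
            congr 1
            funext i
            exact i1 _ (hidx _)
          rw [this]
    obtain ⟨h4a, h4b⟩ := h4
    subst h4b
    subst h5
    refine ⟨fun i hi => ?_, ?_⟩
    · rw [Function.update_of_ne (by omega), key.1 i hi]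
    · rw [Function.update_self, key.2, ← h4a, key.1 _ (hidx 0)]
      simp only [List.Vector.ofFn, List.Vector.tail_cons, List.Vector.head_cons]
  · intro s
    obtain ⟨s2, hs2⟩ := t1 (Function.update s N 0)
    obtain ⟨a1, a2⟩ := c1 _ _ hs2
    have hloop : ∀ k : ℕ, ∃ s3, ReflTransGen body s2 s3 ∧ s3 N = k ∧ ∀ i < N, s3 i = s i := by
      intro k
      induction k with
      | zero =>
        refine ⟨s2, ReflTransGen.refl, ?_, fun i hi => ?_⟩
        · rw [a1 N (by omega), Function.update_self]
        · rw [a1 i (by omega), Function.update_of_ne (by omega)]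
      | succ k ih =>
        obtain ⟨s3, h1, h2, h3⟩ := ih
        obtain ⟨s4, h4⟩ := tbody s3
        obtain ⟨b1, b2, b3⟩ := cbody _ _ h4
        exact ⟨s4, h1.tail h4, by rw [b2, h2], fun i hi => by rw [b1 i hi, h3 i hi]⟩
    obtain ⟨s3, h3, h3a, h3b⟩ := hloop (s (idx 0))
    exact ⟨_, _, rfl, s2, hs2, s3, h3, s3, ⟨by rw [h3a, h3b _ (hidx 0)], rfl⟩, rfl⟩

theorem computes_of_primrec' {n : ℕ} {f : List.Vector ℕ n → ℕ} (hf : Nat.Primrec' f) :
    Computes f := by
  induction hf with
  | zero =>
    intro N idx hidx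
    refine ⟨(Op.clear N).rel, Real.op _, fun s s' h => ?_, fun s => ⟨_, rfl⟩⟩
    simp only [Op.rel] at h
    subst h
    refine ⟨fun i hi => ?_, by simp⟩
    rw [Function.update_of_ne (by omega)]
  | succ =>
    intro N idx hidx
    refine ⟨_, (Real.op (Op.copy N (idx 0))).seq (Real.op (Op.inc N)), ?_, fun s => ⟨_, _, rfl, rfl⟩⟩
    rintro s s' ⟨m, h1, h2⟩
    simp only [Op.rel] at h1 h2
    subst h1
    subst h2
    refine ⟨fun i hi => ?_, ?_⟩
    · rw [Function.update_of_ne (by omega), Function.update_of_ne (by omega)]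
    · rw [Function.update_self, Function.update_self]
      simp [List.Vector.ofFn]
  | get i =>
    intro N idx hidx
    refine ⟨(Op.copy N (idx i)).rel, Real.op _, fun s s' h => ?_, fun s => ⟨_, rfl⟩⟩
    simp only [Op.rel] at h
    subst h
    refine ⟨fun i hi => ?_, ?_⟩
    · rw [Function.update_of_ne (by omega)]
    · rw [Function.update_self]; simp
  | @comp m n f g _ _ hf hg =>
    intro N idx hidx
    obtain ⟨ρ1, r1, c1, t1⟩ := computes_family n g hg N idx hidx
    obtain ⟨ρ2, r2, c2, t2⟩ := hf (N + n) (fun i => N + i) (fun i => by have := i.2; omega)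
    refine ⟨_, r1.seq (r2.seq (Real.op (Op.copy N (N + n)))), ?_, ?_⟩
    · rintro s s' ⟨m1, h1, m2, h2, h3⟩
      simp only [Op.rel] at h3
      obtain ⟨a1, a2⟩ := c1 _ _ h1
      obtain ⟨b1, b2⟩ := c2 _ _ h2
      subst h3
      refine ⟨fun i hi => ?_, ?_⟩
      · rw [Function.update_of_ne (by omega), b1 i (by omega), a1 i hi]
      · rw [Function.update_self, b2]
        congr 2
        funext i
        exact a2 i
    · intro s
      obtain ⟨m1, h1⟩ := t1 s
      obtain ⟨m2, h2⟩ := t2 m1
      exact ⟨_, m1, h1, m2, h2, rfl⟩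
  | @prec n f g _ _ hf hg => exact computes_prec hf hg

/-- The set `{x | ∃ k, F x k = 0}` is recognised by a control graph, for `F` primitive
recursive. -/
theorem recognises {F : ℕ → ℕ → ℕ} (hF : Primrec₂ F) :
    ∃ (Λ : Type) (_ : Finite Λ) (start stop : Λ) (tr : List (Λ × Op × Λ)),
      ∀ x : ℕ, (∃ s', ReflTransGen (Step tr) (start, Function.update (fun _ => 0) 0 x) (stop, s')) ↔
        ∃ k, F x k = 0 := by
  have h1 : Nat.Primrec' (fun v : List.Vector ℕ 2 => F v.head v.tail.head) :=
    Nat.Primrec'.prim_iff₂.2 hF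
  obtain ⟨ρ1, r1, c1, t1⟩ := computes_of_primrec' h1 2 (fun i => i) (fun i => i.2)
  obtain ⟨Λ, f, a, b, tr, h⟩ := (Real.star (Real.op (Op.inc 1))).seq
    (r1.seq ((Real.op (Op.clear 3)).seq (Real.op (Op.test 2 3))))
  refine ⟨Λ, f, a, b, tr, fun x => ?_⟩
  simp only [h]
  constructor
  · rintro ⟨s', m1, h1, m2, h2, m3, h3, h4⟩
    obtain ⟨a1, a2⟩ := c1 _ _ h2
    have hm1 : m1 0 = x := by
      clear h2 a1 a2
      induction h1 with
      | refl => simp
      | tail _ hbc ih =>
        simp only [Op.rel] at hbc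
        subst hbc
        rw [Function.update_of_ne (by omega), ih]
    simp only [Op.rel] at h3 h4
    subst h3
    obtain ⟨h5, -⟩ := h4
    rw [Function.update_of_ne (by omega), Function.update_self, a2] at h5
    refine ⟨m1 1, ?_⟩
    rw [← hm1]
    simpa [List.Vector.ofFn] using h5
  · rintro ⟨k, hk⟩
    have h1 : ∀ j : ℕ, ReflTransGen (Op.inc 1).rel (Function.update (fun _ => 0) 0 x)
        (Function.update (Function.update (fun _ => 0) 0 x) 1 j) := by
      intro j
      induction j with
      | zero =>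
        have : Function.update (Function.update (fun _ => 0) 0 x) 1 0 =
            (Function.update (fun _ => 0) 0 x : ℕ → ℕ) := by
          funext i
          by_cases hi : i = 1
          · subst hi; simp
          · rw [Function.update_of_ne hi]
        rw [this]
      | succ j ih =>
        refine ih.tail ?_
        simp [Op.rel]
    obtain ⟨m2, h2⟩ := t1 (Function.update (Function.update (fun _ => 0) 0 x) 1 k)
    obtain ⟨a1, a2⟩ := c1 _ _ h2
    refine ⟨_, _, h1 k, m2, h2, _, rfl, ?_, rfl⟩
    rw [Function.update_of_ne (by omega), Function.update_self, a2]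
    simpa [List.Vector.ofFn] using hk

end Pool.Agent.MP9a50b7
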