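import Pool.Agent.Lib.MP_9a50b7_lc.Rep3

/-! A failure of the finiteness property for integer matrices yields a well-behaved
integer family (the core family). -/

set_option autoImplicit false
set_option linter.unusedSectionVars false

namespace Pool.Agent.MP9a50b7

open Module Matrix

/-- properties of the core family -/
structure CoreFam {ι : Type} {d : ℕ} (A : ι → Matrix (Fin d) (Fin d) ℝ) (ρ0 C c : ℝ)
    (i0 j0 : Fin d) : Prop where
  hρ0 : 0 < ρ0
  hC : 0 < C
  hc : 0 < c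
  U : ∀ (w : List ι) (i j : Fin d), |(w.map A).prod i j| ≤ C * ρ0 ^ w.length
  E : ∀ w : List ι, w ≠ [] → ∃ ρ : ℝ, 0 < ρ ∧ ρ < ρ0 ∧ PGr (w.map A).prod (ρ ^ w.length)
  L : ∀ N : ℕ, ∃ w : List ι, N ≤ w.length ∧ c * ρ0 ^ w.length ≤ |(w.map A).prod i0 j0|

theorem mul_entry_le {d : ℕ} {X Y : Matrix (Fin d) (Fin d) ℝ} {x y : ℝ} (hx : 0 ≤ x)
    (hX : ∀ i j, |X i j| ≤ x) (hY : ∀ i j, |Y i j| ≤ y) (i j : Fin d) :
    |(X * Y) i j| ≤ d * (x * y) := by
  rw [Matrix.mul_apply]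
  refine (Finset.abs_sum_le_sum_abs _ _).trans ?_
  calc ∑ k, |X i k * Y k j| ≤ ∑ _k : Fin d, x * y := by
        refine Finset.sum_le_sum fun k _ => ?_
        rw [abs_mul]
        exact mul_le_mul (hX i k) (hY k j) (abs_nonneg _) hx
    _ = d * (x * y) := by simp

theorem exists_large {ι : Type} {d : ℕ} (A : ι → Matrix (Fin d) (Fin d) ℝ) {ρ0 C : ℝ}
    (hρ0 : 0 < ρ0) (hC : 0 ≤ C)
    (hU : ∀ (w : List ι) (i j : Fin d), |(w.map A).prod i j| ≤ C * ρ0 ^ w.length)
    (hI : ∀ ρ : ℝ, 0 < ρ → ρ < ρ0 → ¬ Gr A ρ) :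
    ∃ (i0 j0 : Fin d) (c : ℝ), 0 < c ∧
      ∀ N : ℕ, ∃ w : List ι, N ≤ w.length ∧ c * ρ0 ^ w.length ≤ |(w.map A).prod i0 j0| := by
  by_contra hcon
  set c : ℝ := 1 / (2 * (d + 1)) with hc
  have hd0 : (0:ℝ) ≤ d := Nat.cast_nonneg d
  have hc0 : 0 < c := by positivity
  have hdc : (d : ℝ) * c ≤ 1 / 2 := by
    rw [hc, mul_one_div, div_le_div_iff₀ (by positivity) (by norm_num)]
    linarith
  have h1 : ∀ i j : Fin d, ∃ N : ℕ, ∀ w : List ι, N ≤ w.length →
      |(w.map A).prod i j| ≤ c * ρ0 ^ w.length := by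
    intro i j
    by_contra hc2
    push Not at hc2
    exact hcon ⟨i, j, c, hc0, fun N => by
      obtain ⟨w, hw1, hw2⟩ := hc2 N
      exact ⟨w, hw1, hw2.le⟩⟩
  choose Nij hN using h1
  set N : ℕ := 1 + ∑ i, ∑ j, Nij i j with hNdef
  have hN1 : 1 ≤ N := by omega
  have hNle : ∀ i j, Nij i j ≤ N := by
    intro i j
    have e1 : Nij i j ≤ ∑ j, Nij i j :=
      Finset.single_le_sum (f := fun j => Nij i j) (fun _ _ => Nat.zero_le _) (Finset.mem_univ j)
    have e2 : ∑ j, Nij i j ≤ ∑ i, ∑ j, Nij i j :=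
      Finset.single_le_sum (f := fun i => ∑ j, Nij i j) (fun _ _ => Nat.zero_le _)
        (Finset.mem_univ i)
    omega
  have hN0 : (0:ℝ) < N := by exact_mod_cast hN1
  set δ : ℝ := ρ0 * (1 - 1 / (2 * N)) with hδ
  have hfrac : 0 < 1 / (2 * (N:ℝ)) := by positivity
  have hfrac2 : 1 / (2 * (N:ℝ)) ≤ 1 / 2 := by
    have : (1:ℝ) ≤ N := by exact_mod_cast hN1
    rw [div_le_div_iff₀ (by positivity) (by norm_num)]
    linarith
  have hδ0 : 0 < δ := mul_pos hρ0 (by linarith)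
  have hδlt : δ < ρ0 := by
    rw [hδ]
    nlinarith
  have hδN : ρ0 ^ N / 2 ≤ δ ^ N := by
    have hB := one_add_mul_le_pow (a := -(1 / (2 * (N:ℝ)))) (by linarith) N
    have e1 : (1:ℝ) + N * (-(1 / (2 * (N:ℝ)))) = 1 / 2 := by
      field_simp
      ring
    rw [e1] at hB
    rw [hδ, mul_pow]
    have e2 : (1 - 1 / (2 * (N:ℝ))) = 1 + -(1 / (2 * (N:ℝ))) := by ring
    rw [e2]
    have e3 := pow_pos hρ0 N
    nlinarith
  refine hI δ hδ0 hδlt ⟨C * (ρ0 / δ) ^ N, fun w => ?_⟩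
  have hq1 : 1 ≤ ρ0 / δ := (one_le_div hδ0).2 hδlt.le
  induction hw : w.length using Nat.strong_induction_on generalizing w with
  | _ m ih =>
    intro i j
    by_cases hm : m < N
    · have e1 := hU w i j
      rw [hw] at e1
      refine e1.trans ?_
      have e2 : ρ0 ^ m = (ρ0 / δ) ^ m * δ ^ m := by
        rw [← mul_pow, div_mul_cancel₀ _ hδ0.ne']
      rw [e2, mul_assoc]
      refine mul_le_mul_of_nonneg_left ?_ hC
      exact mul_le_mul_of_nonneg_right (pow_le_pow_right₀ hq1 hm.le) (pow_nonneg hδ0.le _)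
    · push Not at hm
      set u := w.take N with hu
      set v := w.drop N with hv
      have huv : w = u ++ v := (List.take_append_drop N w).symm
      have hul : u.length = N := by rw [hu, List.length_take, hw]; omega
      have hvl : v.length = m - N := by rw [hv, List.length_drop, hw]
      have hX : ∀ i j, |(u.map A).prod i j| ≤ c * ρ0 ^ N := by
        intro i j
        have := hN i j u (by rw [hul]; exact hNle i j)
        rwa [hul] at this
      have hY := ih (m - N) (by omega) v hvl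
      rw [huv, List.map_append, List.prod_append]
      refine (mul_entry_le (by positivity) hX hY i j).trans ?_
      have e1 : δ ^ m = δ ^ N * δ ^ (m - N) := by rw [← pow_add]; congr 1; omega
      rw [e1]
      set z := C * (ρ0 / δ) ^ N * δ ^ (m - N) with hz
      have hz0 : 0 ≤ z := by positivity
      have e2 : (d:ℝ) * (c * ρ0 ^ N * z) ≤ ρ0 ^ N / 2 * z := by
        have e3 : 0 ≤ ρ0 ^ N * z := by positivity
        nlinarith
      calc (d:ℝ) * (c * ρ0 ^ N * z) ≤ ρ0 ^ N / 2 * z := e2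
        _ ≤ δ ^ N * z := mul_le_mul_of_nonneg_right hδN hz0
        _ = C * (ρ0 / δ) ^ N * (δ ^ N * δ ^ (m - N)) := by rw [hz]; ring

section transfer

variable {ι V : Type} [AddCommGroup V] [Module ℚ V] [FiniteDimensional ℚ V]

theorem rmat_prodE (T : ι → End ℚ V) (w : List ι) :
    rmat (prodE T w) = (w.map fun a => rmat (T a)).prod := by
  induction w with
  | nil => simp [prodE_nil, rmat_one]
  | cons a w ih => rw [prodE_cons, rmat_mul, ih]; simp

theorem grV_of_gr {T : ι → End ℚ V} {ρ : ℝ} (_hρ : 0 ≤ ρ) (h : Gr (fun a => rmat (T a)) ρ) :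
    GrV T ρ := by
  classical
  obtain ⟨C, hC⟩ := h
  intro v φ
  set b := finBasis ℚ V with hb
  refine ⟨∑ i, ∑ j, |((φ (b i) : ℚ) : ℝ)| * (C * |((b.coord j v : ℚ) : ℝ)|), fun w => ?_⟩
  have e1 : φ (prodE T w v) = ∑ i, ∑ j, φ (b i) * (b.coord i (prodE T w (b j)) * b.coord j v) := by
    have e2 : prodE T w v = ∑ j, b.coord j v • prodE T w (b j) := by
      conv_lhs => rw [← b.sum_repr v]
      rw [map_sum]
      simp [Basis.coord_apply]
    have e3 : ∀ x : V, φ x = ∑ i, b.coord i x * φ (b i) := by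
      intro x
      conv_lhs => rw [← b.sum_repr x]
      rw [map_sum]
      simp [Basis.coord_apply]
    rw [e3]
    refine Finset.sum_congr rfl fun i _ => ?_
    rw [e2, map_sum, Finset.sum_mul]
    refine Finset.sum_congr rfl fun j _ => ?_
    rw [map_smul, smul_eq_mul]
    ring
  rw [e1]
  push_cast
  refine (Finset.abs_sum_le_sum_abs _ _).trans ?_
  rw [Finset.sum_mul]
  refine Finset.sum_le_sum fun i _ => ?_
  refine (Finset.abs_sum_le_sum_abs _ _).trans ?_
  rw [Finset.sum_mul]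
  refine Finset.sum_le_sum fun j _ => ?_
  have e4 := hC w i j
  rw [← rmat_prodE, rmat_apply] at e4
  rw [abs_mul, abs_mul, mul_assoc]
  refine mul_le_mul_of_nonneg_left ?_ (abs_nonneg _)
  calc _ ≤ C * ρ ^ w.length * |((b.coord j v : ℚ) : ℝ)| :=
        mul_le_mul_of_nonneg_right e4 (abs_nonneg _)
    _ = _ := by ring

theorem GrV.gr {T : ι → End ℚ V} {ρ : ℝ} (hρ : 0 ≤ ρ) (h : GrV T ρ) :
    ∃ C : ℝ, 0 < C ∧ ∀ (w : List ι) i j, |(w.map fun a => rmat (T a)).prod i j| ≤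
      C * ρ ^ w.length := by
  choose C hC using fun i j => h (finBasis ℚ V j) ((finBasis ℚ V).coord i)
  have h0 : 0 ≤ ∑ i, ∑ j, |C i j| :=
    Finset.sum_nonneg fun _ _ => Finset.sum_nonneg fun _ _ => abs_nonneg _
  refine ⟨1 + ∑ i, ∑ j, |C i j|, by linarith, fun w i j => ?_⟩
  rw [← rmat_prodE, rmat_apply]
  refine (hC i j w).trans (mul_le_mul_of_nonneg_right ?_ (pow_nonneg hρ _))
  refine (le_abs_self _).trans ?_
  have e1 := Finset.single_le_sum (f := fun i => ∑ j, |C i j|)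
    (fun _ _ => Finset.sum_nonneg fun _ _ => abs_nonneg _) (Finset.mem_univ i)
  have e2 := Finset.single_le_sum (f := fun j => |C i j|) (fun _ _ => abs_nonneg _)
    (Finset.mem_univ j)
  linarith

/-- scaling of products -/
theorem prod_smul_map {I : Type} [Fintype I] [DecidableEq I] (D : ℝ)
    (M : ι → Matrix I I ℝ) (w : List ι) :
    (w.map fun a => D • M a).prod = D ^ w.length • (w.map M).prod := by
  induction w with
  | nil => simp
  | cons a w ih =>
    simp only [List.map_cons, List.prod_cons, ih, List.length_cons, pow_succ]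
    rw [Matrix.smul_mul, Matrix.mul_smul, smul_smul, mul_comm D]

theorem exists_int (T : ι → End ℚ V) [Finite ι] :
    ∃ (D : ℝ) (A : ι → Matrix (Fin (finrank ℚ V)) (Fin (finrank ℚ V)) ℤ), 0 < D ∧
      ∀ a, (A a).map (Int.cast : ℤ → ℝ) = D • rmat (T a) := by
  classical
  have := Fintype.ofFinite ι
  set M : ι → Matrix (Fin (finrank ℚ V)) (Fin (finrank ℚ V)) ℚ := fun a =>
    LinearMap.toMatrix (finBasis ℚ V) (finBasis ℚ V) (T a) with hM
  set D : ℕ := ∏ a, ∏ i, ∏ j, (M a i j).den with hD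
  have hD0 : 0 < D := Finset.prod_pos fun a _ => Finset.prod_pos fun i _ =>
    Finset.prod_pos fun j _ => (M a i j).den_pos
  have hdvd : ∀ a i j, (M a i j).den ∣ D := fun a i j =>
    (Finset.dvd_prod_of_mem (fun j => (M a i j).den) (Finset.mem_univ j)).trans
      ((Finset.dvd_prod_of_mem (fun i => ∏ j, (M a i j).den) (Finset.mem_univ i)).trans
        (Finset.dvd_prod_of_mem (fun a => ∏ i, ∏ j, (M a i j).den) (Finset.mem_univ a)))
  have hint : ∀ a i j, ∃ z : ℤ, (z : ℚ) = D * M a i j := by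
    intro a i j
    obtain ⟨k, hk⟩ := hdvd a i j
    refine ⟨k * (M a i j).num, ?_⟩
    rw [hk]
    push_cast
    have e1 : ((M a i j).den : ℚ) * M a i j = (M a i j).num := by
      rw [mul_comm]; exact Rat.mul_den_eq_num _
    calc (k : ℚ) * ((M a i j).num : ℚ) = k * (((M a i j).den : ℚ) * M a i j) := by rw [e1]
      _ = _ := by ring
  choose A hA using hint
  refine ⟨D, A, by exact_mod_cast hD0, fun a => ?_⟩
  ext i j
  have e1 := hA a i j
  have e2 : ((A a i j : ℤ) : ℝ) = (((A a i j : ℤ) : ℚ) : ℝ) := by push_cast; rfl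
  simp only [Matrix.map_apply, Matrix.smul_apply, smul_eq_mul, rmat]
  rw [e2, e1]
  push_cast
  rfl

/-- the core family -/
theorem exists_core [Finite ι] [Nonempty ι] {T : ι → End ℚ V} (hT : ¬ FPV T)
    (hirr : ∀ W : Submodule ℚ V, (∀ a, ∀ x ∈ W, T a x ∈ W) → W = ⊥ ∨ W = ⊤) :
    ∃ (A : ι → Matrix (Fin (finrank ℚ V)) (Fin (finrank ℚ V)) ℤ) (ρ0 C c : ℝ)
      (i0 j0 : Fin (finrank ℚ V)),
      CoreFam (fun a => (A a).map (Int.cast : ℤ → ℝ)) ρ0 C c i0 j0 := by
  classical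
  -- the growth rate
  set S : Set ℝ := {ρ | 0 < ρ ∧ GrV T ρ} with hS
  have hSne : S.Nonempty := by
    obtain ⟨ρ, h1, h2⟩ := exists_grV T
    exact ⟨ρ, h1, h2⟩
  have hSbd : BddBelow S := ⟨0, fun x hx => hx.1.le⟩
  set r := sInf S with hr
  have hr0 : 0 ≤ r := le_csInf hSne fun x hx => hx.1.le
  have habove : ∀ ρ, r < ρ → GrV T ρ := by
    intro ρ hρ
    obtain ⟨ρ', h1, h2⟩ := exists_lt_of_csInf_lt hSne hρ
    exact h1.2.mono h1.1.le h2.le
  have hbelow : ∀ ρ, 0 < ρ → ρ < r → ¬ GrV T ρ := by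
    intro ρ hρ hlt hg
    exact absurd (csInf_le hSbd (show ρ ∈ S from ⟨hρ, hg⟩)) (not_le.2 hlt)
  have hE : ∀ w : List ι, w ≠ [] → ∃ ρ : ℝ, 0 < ρ ∧ ρ < r ∧ PGrV (prodE T w) (ρ ^ w.length) := by
    intro w hw
    unfold FPV at hT
    push Not at hT
    obtain ⟨ρ, h1, h2, ε, h3, h4⟩ := hT w hw
    refine ⟨ρ, h1, ?_, h2⟩
    by_contra hge
    push Not at hge
    exact h4 (habove _ (by linarith))
  have hrpos : 0 < r := by
    obtain ⟨a⟩ := ‹Nonempty ι›
    obtain ⟨ρ, h1, h2, h3⟩ := hE [a] (by simp)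
    linarith
  have hlim : GrV T r := grV_limit hirr hr0 habove
  obtain ⟨D, A, hD, hA⟩ := exists_int T
  have hAf : (fun a => (A a).map (Int.cast : ℤ → ℝ)) = fun a => D • rmat (T a) := funext hA
  obtain ⟨C, hC0, hC⟩ := hlim.gr hr0
  have hDr : 0 < D * r := mul_pos hD hrpos
  have hU : ∀ (w : List ι) (i j : Fin (finrank ℚ V)),
      |(w.map fun a => (A a).map (Int.cast : ℤ → ℝ)).prod i j| ≤ C * (D * r) ^ w.length := by
    intro w i j
    rw [hAf, prod_smul_map, Matrix.smul_apply, smul_eq_mul, abs_mul, abs_of_pos (pow_pos hD _),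
      mul_pow]
    calc _ ≤ D ^ w.length * (C * r ^ w.length) :=
          mul_le_mul_of_nonneg_left (hC w i j) (pow_nonneg hD.le _)
      _ = _ := by ring
  have hI : ∀ ρ : ℝ, 0 < ρ → ρ < D * r →
      ¬ Gr (fun a => (A a).map (Int.cast : ℤ → ℝ)) ρ := by
    rintro ρ hρ hlt ⟨C', hC'⟩
    refine hbelow (ρ / D) (div_pos hρ hD) (by rw [div_lt_iff₀ hD]; linarith)
      (grV_of_gr (div_pos hρ hD).le ⟨C', fun w i j => ?_⟩)
    have e1 := hC' w i j
    rw [hAf, prod_smul_map, Matrix.smul_apply, smul_eq_mul, abs_mul,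
      abs_of_pos (pow_pos hD _)] at e1
    rw [div_pow, ← mul_div_assoc, le_div_iff₀ (pow_pos hD _)]
    linarith
  obtain ⟨i0, j0, c, hc, hL⟩ := exists_large _ hDr hC0.le hU hI
  refine ⟨A, D * r, C, c, i0, j0, hDr, hC0, hc, hU, ?_, hL⟩
  intro w hw
  obtain ⟨ρ, h1, h2, h3⟩ := hE w hw
  refine ⟨D * ρ, mul_pos hD h1, mul_lt_mul_of_pos_left h2 hD, ?_⟩
  obtain ⟨C', hC'⟩ := h3.pgr (pow_nonneg h1.le _)
  refine ⟨C', fun k i j => ?_⟩
  rw [hAf, prod_smul_map, smul_pow, Matrix.smul_apply, smul_eq_mul, abs_mul,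
    abs_of_pos (pow_pos (pow_pos hD _) _), mul_pow, mul_pow, ← rmat_prodE]
  calc _ ≤ (D ^ w.length) ^ k * (C' * (ρ ^ w.length) ^ k) :=
        mul_le_mul_of_nonneg_left (hC' k i j) (by positivity)
    _ = _ := by ring

end transfer

/-- failure for integer matrices gives failure for endomorphisms -/
theorem not_fpv_of_not_fpg {ι : Type} {n : ℕ} (M : ι → Matrix (Fin n) (Fin n) ℤ)
    (h : ¬ FPg (fun a => (M a).map (Int.cast : ℤ → ℝ))) :
    ¬ FPV (fun a => Matrix.toLin' ((M a).map (Int.cast : ℤ → ℚ))) := by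
  classical
  set T : ι → End ℚ (Fin n → ℚ) := fun a => Matrix.toLin' ((M a).map (Int.cast : ℤ → ℚ)) with hT
  have hprod : ∀ w : List ι, prodE T w = Matrix.toLin' (((w.map M).prod).map (Int.cast : ℤ → ℚ)) := by
    intro w
    induction w with
    | nil =>
      rw [prodE_nil]
      simp only [List.map_nil, List.prod_nil]
      rw [Matrix.map_one (Int.cast : ℤ → ℚ) (by simp) (by simp), Matrix.toLin'_one]
      rfl
    | cons a w ih =>
      rw [prodE_cons, ih, hT]
      simp only [List.map_cons, List.prod_cons]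
      have e1 : (M a * (w.map M).prod).map (Int.cast : ℤ → ℚ) =
          (M a).map (Int.cast : ℤ → ℚ) * ((w.map M).prod).map (Int.cast : ℤ → ℚ) :=
        Matrix.map_mul (f := Int.castRingHom ℚ)
      rw [e1, Matrix.toLin'_mul]
      rfl
  have hpow : ∀ (w : List ι) (k : ℕ),
      (prodE T w) ^ k = Matrix.toLin' ((((w.map M).prod) ^ k).map (Int.cast : ℤ → ℚ)) := by
    intro w k
    rw [hprod, ← Matrix.toLin'_pow]
    congr 1
    exact (_root_.map_pow ((Int.castRingHom ℚ).mapMatrix : Matrix (Fin n) (Fin n) ℤ →+* _) _ k).symm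
  have hentry : ∀ (X : Matrix (Fin n) (Fin n) ℤ) (v : Fin n → ℚ) (φ : Dual ℚ (Fin n → ℚ)),
      φ (Matrix.toLin' (X.map (Int.cast : ℤ → ℚ)) v) =
        ∑ i, ∑ j, (X i j : ℚ) * v j * φ (Pi.single i 1) := by
    intro X v φ
    have e1 : Matrix.toLin' (X.map (Int.cast : ℤ → ℚ)) v =
        ∑ i, (∑ j, (X i j : ℚ) * v j) • (Pi.single i 1 : Fin n → ℚ) := by
      rw [← pi_eq_sum_univ']
      funext i
      simp [Matrix.toLin'_apply, Matrix.mulVec, dotProduct]
    rw [e1, map_sum]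
    refine Finset.sum_congr rfl fun i _ => ?_
    rw [map_smul, smul_eq_mul, Finset.sum_mul]
  rintro ⟨w, hw, hfp⟩
  refine h ⟨w, hw, fun ρ hρ hP ε hε => ?_⟩
  have hPV : PGrV (prodE T w) (ρ ^ w.length) := by
    obtain ⟨C, hC⟩ := hP
    intro v φ
    refine ⟨∑ i : Fin n, ∑ j : Fin n, C * (|((v j : ℚ) : ℝ)| *
      |((φ (Pi.single i 1) : ℚ) : ℝ)|), fun k => ?_⟩
    rw [hpow, hentry]
    push_cast
    refine (Finset.abs_sum_le_sum_abs _ _).trans ?_
    rw [Finset.sum_mul]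
    refine Finset.sum_le_sum fun i _ => ?_
    refine (Finset.abs_sum_le_sum_abs _ _).trans ?_
    rw [Finset.sum_mul]
    refine Finset.sum_le_sum fun j _ => ?_
    have e1 := hC k i j
    have e2 : ((w.map fun a => (M a).map (Int.cast : ℤ → ℝ)).prod ^ k) i j =
        ((((w.map M).prod ^ k) i j : ℤ) : ℝ) := by
      rw [prod_map_cast]
      have := (_root_.map_pow ((Int.castRingHom ℝ).mapMatrix : Matrix (Fin n) (Fin n) ℤ →+* _)
        ((w.map M).prod) k).symm
      exact congrFun (congrFun this i) j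
    rw [e2] at e1
    rw [abs_mul, abs_mul, mul_assoc]
    calc _ ≤ C * (ρ ^ w.length) ^ k * (|((v j : ℚ) : ℝ)| * |((φ (Pi.single i 1) : ℚ) : ℝ)|) :=
          mul_le_mul_of_nonneg_right e1 (by positivity)
      _ = _ := by ring
  have hG := hfp ρ hρ hPV ε hε
  choose C hC using fun i j => hG (Pi.single j 1) (LinearMap.proj i)
  refine ⟨∑ i, ∑ j, |C i j|, fun u i j => ?_⟩
  have e1 := hC i j u
  rw [hprod] at e1
  have e2 : (LinearMap.proj i : Dual ℚ (Fin n → ℚ))
      (Matrix.toLin' (((u.map M).prod).map (Int.cast : ℤ → ℚ)) (Pi.single j 1)) =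
      (((u.map M).prod i j : ℤ) : ℚ) := by
    simp
  rw [e2] at e1
  have e3 : ((u.map fun a => (M a).map (Int.cast : ℤ → ℝ)).prod) i j =
      ((((u.map M).prod i j : ℤ) : ℚ) : ℝ) := by
    rw [prod_map_cast]; simp
  rw [e3]
  refine e1.trans (mul_le_mul_of_nonneg_right ?_ (by positivity))
  refine (le_abs_self _).trans ?_
  have e4 := Finset.single_le_sum (f := fun i => ∑ j, |C i j|)
    (fun _ _ => Finset.sum_nonneg fun _ _ => abs_nonneg _) (Finset.mem_univ i)
  have e5 := Finset.single_le_sum (f := fun j => |C i j|) (fun _ _ => abs_nonneg _)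
    (Finset.mem_univ j)
  linarith

/-- a failure for integer matrices gives a core family -/
theorem exists_core_of_not_fpg {ι : Type} [Finite ι] [Nonempty ι] {n : ℕ}
    (M : ι → Matrix (Fin n) (Fin n) ℤ)
    (h : ¬ FPg (fun a => (M a).map (Int.cast : ℤ → ℝ))) :
    ∃ (d : ℕ) (A : ι → Matrix (Fin d) (Fin d) ℤ) (ρ0 C c : ℝ) (i0 j0 : Fin d),
      CoreFam (fun a => (A a).map (Int.cast : ℤ → ℝ)) ρ0 C c i0 j0 := by
  obtain ⟨V, i1, i2, i3, T, hT, hirr⟩ := exists_irred
    ⟨Fin n → ℚ, inferInstance, inferInstance, inferInstance, _, not_fpv_of_not_fpg M h⟩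
  obtain ⟨A, ρ0, C, c, i0, j0, hc⟩ := exists_core hT hirr
  exact ⟨_, A, ρ0, C, c, i0, j0, hc⟩

end Pool.Agent.MP9a50b7
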