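import Mathlib

/-! Growth rates of products of matrices and the finiteness property. -/

set_option autoImplicit false

namespace Pool.Agent.MP9a50b7

open Matrix

/-- all products grow at rate at most `ρ` -/
def Gr {ι I : Type} [Fintype I] [DecidableEq I] (M : ι → Matrix I I ℝ) (ρ : ℝ) : Prop :=
  ∃ C : ℝ, ∀ (w : List ι) (i j : I), |(w.map M).prod i j| ≤ C * ρ ^ w.length

/-- powers grow at rate at most `r` -/
def PGr {I : Type} [Fintype I] [DecidableEq I] (X : Matrix I I ℝ) (r : ℝ) : Prop :=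
  ∃ C : ℝ, ∀ (k : ℕ) (i j : I), |(X ^ k) i j| ≤ C * r ^ k

/-- growth form of the finiteness property -/
def FPg {ι I : Type} [Fintype I] [DecidableEq I] (M : ι → Matrix I I ℝ) : Prop :=
  ∃ w : List ι, w ≠ [] ∧ ∀ ρ > 0, PGr ((w.map M).prod) (ρ ^ w.length) → ∀ ε > 0, Gr M (ρ + ε)

/-- eigenvalue form of the finiteness property, for integer matrices -/
def FPe {ι : Type} {n : ℕ} (M : ι → Matrix (Fin n) (Fin n) ℤ) : Prop :=
  ∃ w : List ι, w ≠ [] ∧ ∃ z : ℂ,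
    Polynomial.IsRoot (Matrix.charpoly (Matrix.map (w.map M).prod (Int.cast : ℤ → ℂ))) z ∧
    ∀ ε : ℝ, 0 < ε → ∃ C : ℝ, ∀ u : List ι, ∀ i j : Fin n,
      |(((u.map M).prod i j : ℤ) : ℝ)| ≤ C * (‖z‖ ^ ((1 : ℝ) / (w.length : ℝ)) + ε) ^ u.length

theorem Gr.mono {ι I : Type} [Fintype I] [DecidableEq I] {M : ι → Matrix I I ℝ} {ρ ρ' : ℝ}
    (h : Gr M ρ) (h0 : 0 ≤ ρ) (hρ : ρ ≤ ρ') : Gr M ρ' := by
  obtain ⟨C, hC⟩ := h
  refine ⟨max C 0, fun w i j => (hC w i j).trans ?_⟩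
  have h1 : ρ ^ w.length ≤ ρ' ^ w.length := pow_le_pow_left₀ h0 hρ _
  have h2 : 0 ≤ ρ ^ w.length := pow_nonneg h0 _
  calc C * ρ ^ w.length ≤ max C 0 * ρ ^ w.length :=
        mul_le_mul_of_nonneg_right (le_max_left _ _) h2
    _ ≤ max C 0 * ρ' ^ w.length := mul_le_mul_of_nonneg_left h1 (le_max_right _ _)

theorem PGr.mono {I : Type} [Fintype I] [DecidableEq I] {X : Matrix I I ℝ} {ρ ρ' : ℝ}
    (h : PGr X ρ) (h0 : 0 ≤ ρ) (hρ : ρ ≤ ρ') : PGr X ρ' := by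
  obtain ⟨C, hC⟩ := h
  refine ⟨max C 0, fun k i j => (hC k i j).trans ?_⟩
  have h1 : ρ ^ k ≤ ρ' ^ k := pow_le_pow_left₀ h0 hρ _
  have h2 : 0 ≤ ρ ^ k := pow_nonneg h0 _
  calc C * ρ ^ k ≤ max C 0 * ρ ^ k :=
        mul_le_mul_of_nonneg_right (le_max_left _ _) h2
    _ ≤ max C 0 * ρ' ^ k := mul_le_mul_of_nonneg_left h1 (le_max_right _ _)

/-- a geometric comparison -/
theorem le_of_pow_le {a r C : ℝ} (_ha : 0 ≤ a) (hr : 0 < r)
    (h : ∀ k : ℕ, a ^ k ≤ C * r ^ k) : a ≤ r := by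
  by_contra hlt
  push Not at hlt
  have h1 : 1 < a / r := (one_lt_div hr).2 hlt
  obtain ⟨k, hk⟩ := pow_unbounded_of_one_lt C h1
  have h2 := h k
  rw [div_pow, lt_div_iff₀ (pow_pos hr k)] at hk
  linarith

/-- complexification of powers -/
theorem map_pow_ofReal {n : ℕ} (X : Matrix (Fin n) (Fin n) ℝ) (k : ℕ) :
    (X.map ((↑) : ℝ → ℂ)) ^ k = (X ^ k).map ((↑) : ℝ → ℂ) := by
  exact (_root_.map_pow (Complex.ofRealHom.mapMatrix : Matrix (Fin n) (Fin n) ℝ →+* _) X k).symm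

theorem root_le {n : ℕ} {X : Matrix (Fin n) (Fin n) ℝ} {r : ℝ} (hr : 0 < r) (h : PGr X r)
    {z : ℂ} (hz : Polynomial.IsRoot (Matrix.charpoly (X.map ((↑) : ℝ → ℂ))) z) : ‖z‖ ≤ r := by
  obtain ⟨C, hC⟩ := h
  -- eigenvector
  have hdet : (Matrix.scalar (Fin n) z - X.map ((↑) : ℝ → ℂ)).det = 0 := by
    rw [← Matrix.eval_charpoly]; exact hz
  obtain ⟨y, hy0, hy⟩ := Matrix.exists_mulVec_eq_zero_iff.2 hdet
  have hy1 : (X.map ((↑) : ℝ → ℂ)) *ᵥ y = z • y := by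
    rw [Matrix.sub_mulVec, sub_eq_zero] at hy
    rw [← hy]
    funext i
    simp [Matrix.scalar, Matrix.mulVec_diagonal]
  have hyk : ∀ k : ℕ, ((X.map ((↑) : ℝ → ℂ)) ^ k) *ᵥ y = z ^ k • y := by
    intro k
    induction k with
    | zero => simp
    | succ k ih =>
      rw [pow_succ, ← Matrix.mulVec_mulVec, hy1, Matrix.mulVec_smul, ih, smul_smul, pow_succ']
  obtain ⟨i, hi⟩ : ∃ i, y i ≠ 0 := by
    by_contra hcon
    push Not at hcon
    exact hy0 (funext hcon)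
  have hyi : 0 < ‖y i‖ := norm_pos_iff.2 hi
  refine le_of_pow_le (C := C * (∑ j, ‖y j‖) / ‖y i‖) (norm_nonneg _) hr fun k => ?_
  have h1 : ‖z‖ ^ k * ‖y i‖ ≤ C * r ^ k * ∑ j, ‖y j‖ := by
    have h2 : z ^ k * y i = ∑ j, ((X ^ k) i j : ℂ) * y j := by
      have := congrFun (hyk k) i
      rw [map_pow_ofReal] at this
      simp only [Matrix.mulVec, dotProduct, Matrix.map_apply, Pi.smul_apply, smul_eq_mul] at this
      exact this.symm
    calc ‖z‖ ^ k * ‖y i‖ = ‖z ^ k * y i‖ := by rw [norm_mul, norm_pow]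
      _ = ‖∑ j, ((X ^ k) i j : ℂ) * y j‖ := by rw [h2]
      _ ≤ ∑ j, ‖((X ^ k) i j : ℂ) * y j‖ := norm_sum_le _ _
      _ ≤ ∑ j, C * r ^ k * ‖y j‖ := by
          refine Finset.sum_le_sum fun j _ => ?_
          rw [norm_mul, Complex.norm_real, Real.norm_eq_abs]
          exact mul_le_mul_of_nonneg_right (hC k i j) (norm_nonneg _)
      _ = C * r ^ k * ∑ j, ‖y j‖ := by rw [Finset.mul_sum]
  rw [div_mul_eq_mul_div, le_div_iff₀ hyi]
  linarith

theorem trace_le {n : ℕ} {X : Matrix (Fin n) (Fin n) ℝ} {r : ℝ} (hr : 0 < r) (h : PGr X r) :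
    |X.trace| ≤ n * r := by
  have h1 : ((X.trace : ℝ) : ℂ) = (X.map ((↑) : ℝ → ℂ)).trace := by
    simp [Matrix.trace]
  have h2 : ‖((X.trace : ℝ) : ℂ)‖ ≤ n * r := by
    rw [h1, Matrix.trace_eq_sum_roots_charpoly]
    refine le_trans (norm_multiset_sum_le _) ?_
    have h3 : (Multiset.map (fun z => ‖z‖) (X.map ((↑) : ℝ → ℂ)).charpoly.roots).sum ≤
        Multiset.card (Multiset.map (fun z => ‖z‖) (X.map ((↑) : ℝ → ℂ)).charpoly.roots) • r := by
      refine Multiset.sum_le_card_nsmul _ _ ?_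
      intro x hx
      obtain ⟨z, hz, rfl⟩ := Multiset.mem_map.1 hx
      exact root_le hr h ((Polynomial.mem_roots'.1 hz).2)
    refine le_trans h3 ?_
    rw [Multiset.card_map, nsmul_eq_mul]
    refine mul_le_mul_of_nonneg_right ?_ hr.le
    have h4 := Polynomial.card_roots' (X.map ((↑) : ℝ → ℂ)).charpoly
    rw [Matrix.charpoly_natDegree_eq_dim, Fintype.card_fin] at h4
    exact_mod_cast h4
  rwa [Complex.norm_real, Real.norm_eq_abs] at h2

section gelfand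

attribute [local instance] Matrix.linftyOpNormedRing Matrix.linftyOpNormedAlgebra
  Matrix.linftyOpNormedAddCommGroup

theorem entry_le_norm {n : ℕ} (Y : Matrix (Fin n) (Fin n) ℂ) (i j : Fin n) : ‖Y i j‖ ≤ ‖Y‖ := by
  rw [Matrix.linfty_opNorm_def]
  have h1 : ‖Y i j‖₊ ≤ ∑ j, ‖Y i j‖₊ :=
    Finset.single_le_sum (f := fun j => ‖Y i j‖₊) (fun _ _ => bot_le) (Finset.mem_univ j)
  have h2 : (∑ j, ‖Y i j‖₊) ≤ Finset.univ.sup fun i => ∑ j, ‖Y i j‖₊ :=
    Finset.le_sup (f := fun i => ∑ j, ‖Y i j‖₊) (Finset.mem_univ i)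
  exact_mod_cast h1.trans h2

theorem pgr_of_roots {n : ℕ} (hn : 0 < n) {X : Matrix (Fin n) (Fin n) ℝ} {r : ℝ} (hr : 0 < r)
    (h : ∀ z : ℂ, Polynomial.IsRoot (Matrix.charpoly (X.map ((↑) : ℝ → ℂ))) z → ‖z‖ < r) :
    PGr X r := by
  have : Nonempty (Fin n) := ⟨⟨0, hn⟩⟩
  set Y : Matrix (Fin n) (Fin n) ℂ := X.map ((↑) : ℝ → ℂ) with hY
  obtain ⟨rn, hrn⟩ : ∃ rn : NNReal, (rn : ℝ) = r := ⟨⟨r, hr.le⟩, rfl⟩
  have h1 : spectralRadius ℂ Y < (rn : ENNReal) := by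
    refine spectrum.spectralRadius_lt_of_forall_lt Y fun z hz => ?_
    have h2 := h z (Matrix.mem_spectrum_iff_isRoot_charpoly.1 hz)
    rw [← hrn] at h2
    exact_mod_cast h2
  have h2 := spectrum.pow_nnnorm_pow_one_div_tendsto_nhds_spectralRadius Y
  have h3 := h2.eventually_lt_const h1
  obtain ⟨N, hN⟩ := Filter.eventually_atTop.1 h3
  -- bound for large k
  have hbig : ∀ k ≥ max N 1, ‖Y ^ k‖ ≤ r ^ k := by
    intro k hk
    have hk1 : 1 ≤ k := le_trans (le_max_right _ _) hk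
    have h4 := (hN k (le_trans (le_max_left _ _) hk)).le
    have hk0 : (0:ℝ) < k := by exact_mod_cast hk1
    have h5 : (‖Y ^ k‖₊ : ENNReal) ≤ (rn : ENNReal) ^ (k : ℝ) := by
      have h6 := ENNReal.rpow_le_rpow h4 hk0.le
      rw [← ENNReal.rpow_mul, one_div, inv_mul_cancel₀ hk0.ne', ENNReal.rpow_one] at h6
      exact h6
    rw [ENNReal.rpow_natCast] at h5
    have h7 : ‖Y ^ k‖₊ ≤ rn ^ k := by exact_mod_cast h5
    rw [← hrn]
    exact_mod_cast h7
  -- constant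
  set C : ℝ := 1 + ∑ k ∈ Finset.range (max N 1), ‖Y ^ k‖ / r ^ k with hC
  have hCs : 0 ≤ ∑ k ∈ Finset.range (max N 1), ‖Y ^ k‖ / r ^ k :=
    Finset.sum_nonneg fun k _ => div_nonneg (norm_nonneg _) (pow_nonneg hr.le _)
  refine ⟨C, fun k i j => ?_⟩
  have h8 : |(X ^ k) i j| ≤ ‖Y ^ k‖ := by
    have := entry_le_norm (Y ^ k) i j
    rw [hY, map_pow_ofReal, Matrix.map_apply, Complex.norm_real, Real.norm_eq_abs] at this
    rw [hY, map_pow_ofReal]
    exact this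
  refine h8.trans ?_
  have hrk : 0 < r ^ k := pow_pos hr k
  by_cases hk : max N 1 ≤ k
  · calc ‖Y ^ k‖ ≤ r ^ k := hbig k hk
      _ = 1 * r ^ k := (one_mul _).symm
      _ ≤ C * r ^ k := mul_le_mul_of_nonneg_right (by linarith) hrk.le
  · push Not at hk
    have h9 : ‖Y ^ k‖ / r ^ k ≤ ∑ k ∈ Finset.range (max N 1), ‖Y ^ k‖ / r ^ k :=
      Finset.single_le_sum (f := fun k => ‖Y ^ k‖ / r ^ k)
        (fun k _ => div_nonneg (norm_nonneg _) (pow_nonneg hr.le _)) (Finset.mem_range.2 hk)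
    rw [← div_le_iff₀ hrk]
    linarith

end gelfand

theorem map_intCast_complex {n : ℕ} (X : Matrix (Fin n) (Fin n) ℤ) :
    X.map (Int.cast : ℤ → ℂ) = (X.map (Int.cast : ℤ → ℝ)).map ((↑) : ℝ → ℂ) := by
  ext i j; simp

theorem prod_map_cast {ι : Type} {n : ℕ} (M : ι → Matrix (Fin n) (Fin n) ℤ) (w : List ι) :
    (w.map fun a => (M a).map (Int.cast : ℤ → ℝ)).prod = ((w.map M).prod).map (Int.cast : ℤ → ℝ) := by
  induction w with
  | nil => simp
  | cons a w ih =>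
    simp only [List.map_cons, List.prod_cons, ih]
    exact (Matrix.map_mul (f := Int.castRingHom ℝ)).symm

theorem fpe_iff_fpg {ι : Type} {n : ℕ} (hn : 0 < n) (M : ι → Matrix (Fin n) (Fin n) ℤ) :
    FPe M ↔ FPg (fun a => (M a).map (Int.cast : ℤ → ℝ)) := by
  constructor
  · rintro ⟨w, hw, z, hz, hgr⟩
    refine ⟨w, hw, fun ρ hρ hP ε hε => ?_⟩
    rw [prod_map_cast] at hP
    rw [map_intCast_complex] at hz
    have h1 := root_le (pow_pos hρ _) hP hz
    have hl : w.length ≠ 0 := fun h => hw (List.length_eq_zero_iff.1 h)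
    have h2 : ‖z‖ ^ ((1 : ℝ) / (w.length : ℝ)) ≤ ρ := by
      have h3 := Real.rpow_le_rpow (norm_nonneg _) h1 (show (0:ℝ) ≤ 1 / (w.length : ℝ) by positivity)
      rwa [← Real.rpow_natCast, ← Real.rpow_mul hρ.le, mul_one_div_cancel (by exact_mod_cast hl),
        Real.rpow_one] at h3
    have h0 : 0 ≤ ‖z‖ ^ ((1 : ℝ) / (w.length : ℝ)) := Real.rpow_nonneg (norm_nonneg _) _
    have h4 : Gr (fun a => (M a).map (Int.cast : ℤ → ℝ)) (‖z‖ ^ ((1 : ℝ) / (w.length : ℝ)) + ε) := by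
      obtain ⟨C, hC⟩ := hgr ε hε
      refine ⟨C, fun u i j => ?_⟩
      rw [prod_map_cast]
      exact hC u i j
    exact h4.mono (by linarith) (by linarith)
  · rintro ⟨w, hw, h⟩
    set X := (w.map M).prod with hX
    set P := Matrix.charpoly (Matrix.map X (Int.cast : ℤ → ℂ)) with hP
    have hl : w.length ≠ 0 := fun h => hw (List.length_eq_zero_iff.1 h)
    have hP0 : P ≠ 0 := (Matrix.charpoly_monic _).ne_zero
    have hdeg : P.degree ≠ 0 := by
      rw [hP, Matrix.charpoly_degree_eq_dim, Fintype.card_fin]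
      have : (n : WithBot ℕ) ≠ 0 := by exact_mod_cast hn.ne'
      exact this
    obtain ⟨z0, hz0⟩ := IsAlgClosed.exists_root P hdeg
    have hne : P.roots.toFinset.Nonempty :=
      ⟨z0, Multiset.mem_toFinset.2 ((Polynomial.mem_roots hP0).2 hz0)⟩
    obtain ⟨z, hz, hmax⟩ := Finset.exists_max_image P.roots.toFinset (fun z => ‖z‖) hne
    have hzr : P.IsRoot z := (Polynomial.mem_roots hP0).1 (Multiset.mem_toFinset.1 hz)
    refine ⟨w, hw, z, hzr, fun ε hε => ?_⟩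
    set a := ‖z‖ ^ ((1 : ℝ) / (w.length : ℝ)) with ha
    have ha0 : 0 ≤ a := Real.rpow_nonneg (norm_nonneg _) _
    have haz : a ^ w.length = ‖z‖ := by
      rw [ha, ← Real.rpow_natCast, ← Real.rpow_mul (norm_nonneg _),
        one_div_mul_cancel (by exact_mod_cast hl), Real.rpow_one]
    have h1 : PGr (X.map (Int.cast : ℤ → ℝ)) ((a + ε / 2) ^ w.length) := by
      refine pgr_of_roots hn (pow_pos (by linarith) _) fun z' hz' => ?_
      rw [← map_intCast_complex] at hz'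
      have h2 : ‖z'‖ ≤ ‖z‖ := hmax z' (Multiset.mem_toFinset.2 ((Polynomial.mem_roots hP0).2 hz'))
      calc ‖z'‖ ≤ ‖z‖ := h2
        _ = a ^ w.length := haz.symm
        _ < (a + ε / 2) ^ w.length := pow_lt_pow_left₀ (by linarith) ha0 hl
    have h2 := h (a + ε / 2) (by linarith) (by rw [prod_map_cast]; exact h1) (ε / 2) (by linarith)
    obtain ⟨C, hC⟩ := h2
    refine ⟨C, fun u i j => ?_⟩
    have h3 := hC u i j
    rw [prod_map_cast] at h3
    have : a + ε / 2 + ε / 2 = a + ε := by ring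
    rw [this] at h3
    exact h3

end Pool.Agent.MP9a50b7
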