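import Pool.Agent.Lib.MP_9a50b7_lc.Growth

/-! Invariance properties of the finiteness property. -/

set_option autoImplicit false
set_option linter.unusedSectionVars false

namespace Pool.Agent.MP9a50b7

open Matrix

section inv

variable {ι ι' I J : Type} [Fintype I] [DecidableEq I] [Fintype J] [DecidableEq J]

theorem prod_smul_map' (D : ℝ) (M : ι → Matrix I I ℝ) (w : List ι) :
    (w.map fun a => D • M a).prod = D ^ w.length • (w.map M).prod := by
  induction w with
  | nil => simp
  | cons a w ih =>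
    simp only [List.map_cons, List.prod_cons, ih, List.length_cons, pow_succ]
    rw [Matrix.smul_mul, Matrix.mul_smul, smul_smul, mul_comm D]

theorem FPg.smul {M : ι → Matrix I I ℝ} {D : ℝ} (hD : 0 < D) (h : FPg M) :
    FPg (fun a => D • M a) := by
  obtain ⟨w, hw, h⟩ := h
  refine ⟨w, hw, fun ρ hρ hP ε hε => ?_⟩
  have h1 : PGr ((w.map M).prod) ((ρ / D) ^ w.length) := by
    obtain ⟨C, hC⟩ := hP
    refine ⟨C, fun k i j => ?_⟩
    have e1 := hC k i j
    rw [prod_smul_map', smul_pow, Matrix.smul_apply, smul_eq_mul, abs_mul,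
      abs_of_pos (pow_pos (pow_pos hD _) _)] at e1
    rw [div_pow, div_pow, ← mul_div_assoc, le_div_iff₀ (pow_pos (pow_pos hD _) _)]
    linarith
  obtain ⟨C, hC⟩ := h (ρ / D) (div_pos hρ hD) h1 (ε / D) (div_pos hε hD)
  refine ⟨C, fun u i j => ?_⟩
  have e1 := hC u i j
  rw [prod_smul_map', Matrix.smul_apply, smul_eq_mul, abs_mul, abs_of_pos (pow_pos hD _)]
  rw [← add_div, div_pow, ← mul_div_assoc, le_div_iff₀ (pow_pos hD _)] at e1
  linarith

theorem fpg_smul_iff {M : ι → Matrix I I ℝ} {D : ℝ} (hD : 0 < D) :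
    FPg (fun a => D • M a) ↔ FPg M := by
  refine ⟨fun h => ?_, fun h => h.smul hD⟩
  have h1 := h.smul (inv_pos.2 hD)
  have h2 : (fun a => D⁻¹ • D • M a) = M := by
    funext a
    rw [smul_smul, inv_mul_cancel₀ hD.ne', one_smul]
  rwa [h2] at h1

theorem prod_reindex (e : I ≃ J) (M : ι → Matrix I I ℝ) (w : List ι) :
    (w.map fun a => (M a).submatrix e.symm e.symm).prod =
      ((w.map M).prod).submatrix e.symm e.symm := by
  induction w with
  | nil => simp
  | cons a w ih =>
    simp only [List.map_cons, List.prod_cons, ih]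
    rw [Matrix.submatrix_mul_equiv]

theorem pow_reindex (e : I ≃ J) (X : Matrix I I ℝ) (k : ℕ) :
    (X.submatrix e.symm e.symm) ^ k = (X ^ k).submatrix e.symm e.symm := by
  induction k with
  | zero => simp
  | succ k ih => rw [pow_succ, ih, Matrix.submatrix_mul_equiv, ← pow_succ]

theorem FPg.reindex (e : I ≃ J) {M : ι → Matrix I I ℝ} (h : FPg M) :
    FPg (fun a => (M a).submatrix e.symm e.symm) := by
  obtain ⟨w, hw, h⟩ := h
  refine ⟨w, hw, fun ρ hρ hP ε hε => ?_⟩
  have h1 : PGr ((w.map M).prod) (ρ ^ w.length) := by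
    obtain ⟨C, hC⟩ := hP
    refine ⟨C, fun k i j => ?_⟩
    have e1 := hC k (e i) (e j)
    rw [prod_reindex, pow_reindex, Matrix.submatrix_apply, e.symm_apply_apply,
      e.symm_apply_apply] at e1
    exact e1
  obtain ⟨C, hC⟩ := h ρ hρ h1 ε hε
  refine ⟨C, fun u i j => ?_⟩
  rw [prod_reindex, Matrix.submatrix_apply]
  exact hC u _ _

theorem fpg_reindex_iff (e : I ≃ J) {M : ι → Matrix I I ℝ} :
    FPg (fun a => (M a).submatrix e.symm e.symm) ↔ FPg M := by
  refine ⟨fun h => ?_, fun h => h.reindex e⟩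
  have h1 := h.reindex e.symm
  have h2 : (fun a => ((M a).submatrix e.symm e.symm).submatrix e.symm.symm e.symm.symm) = M := by
    funext a
    ext i j
    simp
  rwa [h2] at h1

theorem fpe_comp_iff {n : ℕ} {M : ι → Matrix (Fin n) (Fin n) ℤ} {f : ι' → ι}
    (hf : Function.Surjective f) : FPe (fun a => M (f a)) ↔ FPe M := by
  have hprod : ∀ w : List ι', (w.map fun a => M (f a)).prod = ((w.map f).map M).prod := by
    intro w
    rw [List.map_map]
    rfl
  have hlift : ∀ w : List ι, ∃ w' : List ι', w'.map f = w :=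
    fun w => List.map_surjective_iff.2 hf w
  constructor
  · rintro ⟨w, hw, z, hz, h⟩
    refine ⟨w.map f, by simpa using hw, z, ?_, fun ε hε => ?_⟩
    · rw [← hprod]; exact hz
    · obtain ⟨C, hC⟩ := h ε hε
      refine ⟨C, fun u i j => ?_⟩
      obtain ⟨u', rfl⟩ := hlift u
      have := hC u' i j
      rw [hprod] at this
      rw [List.length_map, List.length_map]
      exact this
  · rintro ⟨w, hw, z, hz, h⟩
    obtain ⟨w', rfl⟩ := hlift w
    refine ⟨w', by simpa using hw, z, ?_, fun ε hε => ?_⟩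
    · rw [hprod]; exact hz
    · obtain ⟨C, hC⟩ := h ε hε
      refine ⟨C, fun u i j => ?_⟩
      have := hC (u.map f) i j
      rw [List.length_map, List.length_map] at this
      rw [hprod]
      exact this

end inv

/-- the matrix of a list of rows -/
def toMat (n : ℕ) (L : List (List ℤ)) : Matrix (Fin n) (Fin n) ℤ :=
  Matrix.of (fun i j : Fin n => (L.getD (i : ℕ) []).getD (j : ℕ) 0)

/-- the finiteness property in the form of the decision problem -/
def FP (p : ℕ × List (List (List ℤ))) : Prop :=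
  ∃ w : List (List (List ℤ)), w ≠ [] ∧ (∀ x ∈ w, x ∈ p.2) ∧
    ∃ z : ℂ,
      Polynomial.IsRoot
        (Matrix.charpoly
          (Matrix.map
            (w.map (fun L => Matrix.of
              (fun i j : Fin p.1 => (L.getD (i : ℕ) []).getD (j : ℕ) 0))).prod
            (Int.cast : ℤ → ℂ))) z ∧
      ∀ ε : ℝ, 0 < ε → ∃ C : ℝ, ∀ u : List (List (List ℤ)), (∀ x ∈ u, x ∈ p.2) →
        ∀ i j : Fin p.1,
          |(((u.map (fun L => Matrix.of
              (fun i j : Fin p.1 => (L.getD (i : ℕ) []).getD (j : ℕ) 0))).prod i j : ℤ) : ℝ)|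
            ≤ C * (‖z‖ ^ ((1 : ℝ) / (w.length : ℝ)) + ε) ^ u.length

theorem fp_iff_fpe (n : ℕ) (L : List (List (List ℤ))) :
    FP (n, L) ↔ FPe (fun a : {x // x ∈ L} => toMat n a.1) := by
  have hmap : ∀ w : List {x // x ∈ L},
      (w.map fun a : {x // x ∈ L} => toMat n a.1) =
        (w.map Subtype.val).map (fun L => Matrix.of
          (fun i j : Fin n => (L.getD (i : ℕ) []).getD (j : ℕ) (0:ℤ))) := by
    intro w
    rw [List.map_map]
    rfl
  have hlift : ∀ w : List (List (List ℤ)), (∀ x ∈ w, x ∈ L) →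
      ∃ w' : List {x // x ∈ L}, w'.map Subtype.val = w := by
    intro w hw
    exact ⟨w.attachWith _ hw, by simp⟩
  constructor
  · rintro ⟨w, hw, hwL, z, hz, h⟩
    obtain ⟨w', rfl⟩ := hlift w hwL
    refine ⟨w', fun h0 => hw (by rw [h0]; rfl), z, ?_, fun ε hε => ?_⟩
    · rw [hmap]; exact hz
    · obtain ⟨C, hC⟩ := h ε hε
      refine ⟨C, fun u i j => ?_⟩
      have := hC (u.map Subtype.val) (by
        intro x hx
        obtain ⟨y, _, rfl⟩ := List.mem_map.1 hx
        exact y.2) i j
      rw [List.length_map, List.length_map] at this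
      rw [hmap]
      exact this
  · rintro ⟨w, hw, z, hz, h⟩
    refine ⟨w.map Subtype.val, fun h0 => hw (List.map_eq_nil_iff.1 h0), ?_, z, ?_,
      fun ε hε => ?_⟩
    · intro x hx
      obtain ⟨y, _, rfl⟩ := List.mem_map.1 hx
      exact y.2
    · rw [hmap] at hz; exact hz
    · obtain ⟨C, hC⟩ := h ε hε
      refine ⟨C, fun u hu i j => ?_⟩
      obtain ⟨u', rfl⟩ := hlift u hu
      have := hC u' i j
      rw [hmap] at this
      rw [List.length_map, List.length_map]
      exact this

theorem not_fp_zero (L : List (List (List ℤ))) : ¬ FP (0, L) := by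
  rintro ⟨w, hw, hwL, z, hz, h⟩
  simp [Polynomial.IsRoot, Matrix.charpoly] at hz

theorem not_fp_nil (n : ℕ) : ¬ FP (n, []) := by
  rintro ⟨w, hw, hwL, z, hz, h⟩
  obtain ⟨a, ha⟩ := List.exists_mem_of_ne_nil w hw
  exact absurd (hwL a ha) (by simp)

/-- rows of a matrix -/
def encM {n : ℕ} (X : Matrix (Fin n) (Fin n) ℤ) : List (List ℤ) :=
  List.ofFn fun i => List.ofFn fun j => X i j

theorem getD_ofFn {α : Type} {n : ℕ} (f : Fin n → α) (d : α) (i : Fin n) :
    (List.ofFn f).getD (i : ℕ) d = f i := by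
  rw [List.getD_eq_getElem _ _ (by rw [List.length_ofFn]; exact i.2), List.getElem_ofFn]

theorem toMat_encM {n : ℕ} (X : Matrix (Fin n) (Fin n) ℤ) : toMat n (encM X) = X := by
  ext i j
  simp only [toMat, encM, Matrix.of_apply, getD_ofFn]

/-- the decision problem for an explicitly listed family -/
theorem fp_ofFn {m n : ℕ} (hn : 0 < n) (M : Fin m → Matrix (Fin n) (Fin n) ℤ) :
    FP (n, List.ofFn fun k => encM (M k)) ↔
      FPg (fun k => (M k).map (Int.cast : ℤ → ℝ)) := by
  rw [fp_iff_fpe, ← fpe_iff_fpg hn]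
  set L := List.ofFn fun k => encM (M k) with hL
  set f : Fin m → {x // x ∈ L} := fun k => ⟨encM (M k), by rw [hL, List.mem_ofFn]; exact ⟨k, rfl⟩⟩
    with hf
  have hsurj : Function.Surjective f := by
    rintro ⟨x, hx⟩
    rw [hL, List.mem_ofFn] at hx
    obtain ⟨k, hk⟩ := hx
    exact ⟨k, Subtype.ext hk⟩
  rw [← fpe_comp_iff hsurj]
  have : (fun a => toMat n (f a).1) = M := by
    funext k
    simp only [hf, toMat_encM]
  rw [this]

end Pool.Agent.MP9a50b7
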