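import Pool.Agent.Lib.MP_9a50b7_lc.Amplifier
import Pool.Agent.Lib.MP_9a50b7_lc.Comb
import Pool.Agent.Lib.MP_9a50b7_lc.Transfer

/-! Integer scaling of the combined family and computability of its entries. -/

set_option autoImplicit false
set_option linter.unusedSectionVars false
set_option linter.unusedSimpArgs false
set_option linter.unusedVariables false

namespace Pool.Agent.MP9a50b7

open Matrix

open scoped Kronecker

section cast

variable {κ : Type} [Fintype κ] [DecidableEq κ] {q : ℕ}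

def acZ (Th E G : ℤ) (c0 : κ) : Sig κ → ℤ :=
  Sum.elim ![Th * E * G, 0, 0] (fun p => if p = (c0, c0) then Th else 0)

def muZ (Th E G : ℤ) (gf : κ → ℤ) (c0 : κ) : Sig κ → ℤ :=
  Sum.elim ![0, Th * E * G, -(Th * E)]
    (fun p => -(Th * E * gf p.1 * gf p.2) - (if p = (c0, c0) then Th else 0))

def peZ (Th E G : ℤ) (b : AInstr κ) : Sig κ → ℤ :=
  Sum.elim ![0, 0, Th * E * G]
    (fun p => Th * E * G * (b.g1 p.1 * b.g1 p.2 + b.g2 p.1 * b.g2 p.2))

def enZ (E G : ℤ) (b : AInstr κ) (r : κ × κ) : Sig κ → ℤ :=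
  Sum.elim ![0, 0, 0] (fun p => E * G * b.T r.1 p.1 * b.T r.2 p.2)

/-- the integer version of the amplifier -/
def BZ (instr : Fin q → AInstr κ) (gf ξ : κ → ℤ) (c0 : κ) (Th E G : ℤ) :
    Option (Option (Fin q)) → Matrix (Sig κ) (Sig κ) ℤ
  | none => Matrix.of fun p r => if p = r then Th * E * G else 0
  | some none => Matrix.of fun p r =>
      Sum.elim ![acZ Th E G c0 p, muZ Th E G gf c0 p, 0]
        (fun r' => muZ Th E G gf c0 p * ξ r'.1 * ξ r'.2) r
  | some (some b) => Matrix.of fun p r =>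
      Sum.elim ![Sum.elim ![Th * E * G, 0, 0] 0 p, Sum.elim ![0, Th * E * G, 0] 0 p,
        peZ Th E G (instr b) p] (fun r' => enZ E G (instr b) r' p) r

theorem acZ_cast {Th E G : ℤ} (hE : 0 < E) (hG : 0 < G) (c0 : κ) (p : Sig κ) :
    ((acZ Th E G c0 p : ℤ) : ℝ) =
      ((Th * E * G : ℤ) : ℝ) * acF c0 (1 / (G : ℝ)) (1 / (E : ℝ)) p := by
  have hE' : (E : ℝ) ≠ 0 := by exact_mod_cast hE.ne'
  have hG' : (G : ℝ) ≠ 0 := by exact_mod_cast hG.ne'
  rcases p with p | p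
  · fin_cases p <;> simp [acZ, acF]
  · simp only [acZ, acF, Sum.elim_inr]
    split_ifs
    · push_cast; field_simp
    · simp

theorem muZ_cast {Th E G : ℤ} (hE : 0 < E) (hG : 0 < G) (gf : κ → ℤ) (c0 : κ) (p : Sig κ) :
    ((muZ Th E G gf c0 p : ℤ) : ℝ) =
      ((Th * E * G : ℤ) : ℝ) * muF gf c0 (1 / (G : ℝ)) (1 / (E : ℝ)) p := by
  have hE' : (E : ℝ) ≠ 0 := by exact_mod_cast hE.ne'
  have hG' : (G : ℝ) ≠ 0 := by exact_mod_cast hG.ne'
  rcases p with p | p
  · fin_cases p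
    · simp [muZ, muF]
    · simp [muZ, muF]
    · simp [muZ, muF]; field_simp
  · simp only [muZ, muF, Sum.elim_inr]
    split_ifs
    · push_cast; field_simp
    · push_cast; field_simp; ring

theorem peZ_cast {Th E G : ℤ} (b : AInstr κ) (p : Sig κ) :
    ((peZ Th E G b p : ℤ) : ℝ) = ((Th * E * G : ℤ) : ℝ) * peF b p := by
  rcases p with p | p
  · fin_cases p <;> simp [peZ, peF]
  · simp only [peZ, peF, Sum.elim_inr]
    push_cast
    ring

theorem enZ_cast {Th E G : ℤ} (hTh : 0 < Th) (b : AInstr κ) (r : κ × κ) (p : Sig κ) :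
    ((enZ E G b r p : ℤ) : ℝ) = ((Th * E * G : ℤ) : ℝ) * enF (1 / (Th : ℝ)) b r p := by
  have hTh' : (Th : ℝ) ≠ 0 := by exact_mod_cast hTh.ne'
  rcases p with p | p
  · fin_cases p <;> simp [enZ, enF]
  · simp only [enZ, enF, Sum.elim_inr]
    push_cast
    field_simp

theorem BZ_cast (instr : Fin q → AInstr κ) (gf ξ : κ → ℤ) (c0 : κ) {Th E G : ℤ} (hTh : 0 < Th)
    (hE : 0 < E) (hG : 0 < G) (b : Option (Option (Fin q))) (p r : Sig κ) :
    ((BZ instr gf ξ c0 Th E G b p r : ℤ) : ℝ) =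
      ((Th * E * G : ℤ) : ℝ) *
        Bmat instr gf ξ c0 (1 / (Th : ℝ)) (1 / (G : ℝ)) (1 / (E : ℝ)) b p r := by
  rcases b with _ | _ | b
  · simp only [BZ, Bmat, Matrix.of_apply, Matrix.one_apply]
    split_ifs <;> simp
  · simp only [BZ, Bmat, Matrix.of_apply]
    rcases r with r | r
    · fin_cases r
      · simpa using acZ_cast (Th := Th) hE hG c0 p
      · simpa using muZ_cast (Th := Th) hE hG gf c0 p
      · simp
    · simp only [Sum.elim_inr]
      rw [Int.cast_mul, Int.cast_mul, muZ_cast (Th := Th) hE hG gf c0 p]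
      ring
  · simp only [BZ, Bmat, Matrix.of_apply]
    rcases r with r | r
    · fin_cases r
      · rcases p with p | p
        · fin_cases p <;> simp
        · simp
      · rcases p with p | p
        · fin_cases p <;> simp
        · simp
      · simpa using peZ_cast (Th := Th) (E := E) (G := G) (instr b) p
    · simpa only [Sum.elim_inr] using enZ_cast (E := E) (G := G) hTh (instr b) r p

def yZ (ξ : κ → ℤ) : Sig κ → ℤ := Sum.elim ![0, 1, 0] (fun p => ξ p.1 * ξ p.2)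

theorem yZ_cast (ξ : κ → ℤ) (p : Sig κ) : ((yZ ξ p : ℤ) : ℝ) = y0 ξ p := by
  rcases p with p | p
  · fin_cases p <;> simp [yZ, y0, pst, st]
  · simp [yZ, y0, pst, st]

variable {ι : Type} {d : ℕ}

/-- the integer version of the combined family -/
def cmbZ (A : ι → Matrix (Fin d) (Fin d) ℤ) (instr : Fin q → AInstr κ) (gf ξ : κ → ℤ) (c0 : κ)
    (Th E G K : ℤ) (i0 j0 : Fin d) :
    Option (ι × Option (Option (Fin q))) → Matrix (Fin d × Sig κ) (Fin d × Sig κ) ℤ
  | none => Matrix.of fun p r =>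
      if p = (j0, Sum.inl 0) then (if r.1 = i0 then Th * E * G * K * yZ ξ r.2 else 0) else 0
  | some c => Matrix.of fun p r => A c.1 p.1 r.1 * BZ instr gf ξ c0 Th E G c.2 p.2 r.2

theorem cmbZ_cast (A : ι → Matrix (Fin d) (Fin d) ℤ) (instr : Fin q → AInstr κ)
    (gf ξ : κ → ℤ) (c0 : κ) {Th E G K : ℤ} (hTh : 0 < Th) (hE : 0 < E) (hG : 0 < G)
    (i0 j0 : Fin d) (c : Option (ι × Option (Option (Fin q)))) :
    (cmbZ A instr gf ξ c0 Th E G K i0 j0 c).map (Int.cast : ℤ → ℝ) =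
      ((Th * E * G : ℤ) : ℝ) • cmb (fun a => (A a).map (Int.cast : ℤ → ℝ))
        (Bmat instr gf ξ c0 (1 / (Th : ℝ)) (1 / (G : ℝ)) (1 / (E : ℝ))) (y0 ξ) (Sum.inl 0)
        (K : ℝ) i0 j0 c := by
  ext p r
  rcases c with _ | c
  · simp only [cmbZ, cmb, Matrix.map_apply, Matrix.of_apply, Matrix.smul_apply, smul_eq_mul,
      vecMulVec_apply, row0]
    by_cases h1 : p = (j0, Sum.inl 0)
    · subst h1
      by_cases h2 : r.1 = i0
      · simp only [if_true, h2, Pi.single_eq_same]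
        rw [← yZ_cast]
        push_cast
        ring
      · simp [h2]
    · simp [h1]
  · simp only [cmbZ, cmb, Matrix.map_apply, Matrix.of_apply, Matrix.smul_apply, smul_eq_mul,
      Matrix.kroneckerMap_apply]
    rw [Int.cast_mul, BZ_cast instr gf ξ c0 hTh hE hG]
    ring

end cast

section comp

/-- differences of primitive recursive functions -/
def PZ (f : ℕ → ℤ) : Prop :=
  ∃ p q : ℕ → ℕ, Primrec p ∧ Primrec q ∧ ∀ x, f x = (p x : ℤ) - (q x : ℤ)

theorem PZ.natCast {p : ℕ → ℕ} (hp : Primrec p) : PZ (fun x => (p x : ℤ)) :=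
  ⟨p, fun _ => 0, hp, Primrec.const 0, fun x => by simp⟩

theorem PZ.const (z : ℤ) : PZ (fun _ => z) := by
  refine ⟨fun _ => z.toNat, fun _ => (-z).toNat, Primrec.const _, Primrec.const _, fun x => ?_⟩
  have := Int.toNat_sub_toNat_neg z
  exact this.symm

theorem PZ.add {f g : ℕ → ℤ} (hf : PZ f) (hg : PZ g) : PZ (fun x => f x + g x) := by
  obtain ⟨p, q, hp, hq, h⟩ := hf
  obtain ⟨p', q', hp', hq', h'⟩ := hg
  refine ⟨fun x => p x + p' x, fun x => q x + q' x, Primrec.nat_add.comp hp hp',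
    Primrec.nat_add.comp hq hq', fun x => ?_⟩
  simp only [h, h']
  push_cast
  ring

theorem PZ.neg {f : ℕ → ℤ} (hf : PZ f) : PZ (fun x => -f x) := by
  obtain ⟨p, q, hp, hq, h⟩ := hf
  exact ⟨q, p, hq, hp, fun x => by simp only [h]; ring⟩

theorem PZ.sub {f g : ℕ → ℤ} (hf : PZ f) (hg : PZ g) : PZ (fun x => f x - g x) := by
  simpa [sub_eq_add_neg] using hf.add hg.neg

theorem PZ.mul {f g : ℕ → ℤ} (hf : PZ f) (hg : PZ g) : PZ (fun x => f x * g x) := by
  obtain ⟨p, q, hp, hq, h⟩ := hf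
  obtain ⟨p', q', hp', hq', h'⟩ := hg
  refine ⟨fun x => p x * p' x + q x * q' x, fun x => p x * q' x + q x * p' x,
    Primrec.nat_add.comp (Primrec.nat_mul.comp hp hp') (Primrec.nat_mul.comp hq hq'),
    Primrec.nat_add.comp (Primrec.nat_mul.comp hp hq') (Primrec.nat_mul.comp hq hp'),
    fun x => ?_⟩
  simp only [h, h']
  push_cast
  ring

theorem primrec_ofNat : Primrec Int.ofNat := by
  refine Primrec.encode_iff.1 ?_
  have : (fun n : ℕ => Encodable.encode (Int.ofNat n)) = fun n => 2 * n := by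
    funext n
    rfl
  rw [this]
  exact Primrec.nat_mul.comp (Primrec.const 2) Primrec.id

theorem primrec_negSucc : Primrec Int.negSucc := by
  refine Primrec.encode_iff.1 ?_
  have : (fun n : ℕ => Encodable.encode (Int.negSucc n)) = fun n => 2 * n + 1 := by
    funext n
    rfl
  rw [this]
  exact Primrec.nat_add.comp (Primrec.nat_mul.comp (Primrec.const 2) Primrec.id)
    (Primrec.const 1)

theorem PZ.primrec {f : ℕ → ℤ} (hf : PZ f) : Primrec f := by
  obtain ⟨p, q, hp, hq, h⟩ := hf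
  have h1 : Primrec fun x => if q x ≤ p x then Int.ofNat (p x - q x)
      else Int.negSucc (q x - p x - 1) := by
    refine Primrec.ite (Primrec.nat_le.comp hq hp) ?_ ?_
    · exact primrec_ofNat.comp (Primrec.nat_sub.comp hp hq)
    · exact primrec_negSucc.comp
        (Primrec.nat_sub.comp (Primrec.nat_sub.comp hq hp) (Primrec.const 1))
  refine h1.of_eq fun x => ?_
  rw [h]
  split_ifs with hle
  · rw [Int.ofNat_eq_natCast]; omega
  · rw [Int.negSucc_eq]; omega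

end comp

section entries

variable {κ : Type} [Fintype κ] [DecidableEq κ] {q : ℕ}

theorem PZ.elim3 {f0 f1 f2 : ℕ → ℤ} {g : ℕ → κ × κ → ℤ} (h0 : PZ f0) (h1 : PZ f1) (h2 : PZ f2)
    (hg : ∀ r, PZ (fun x => g x r)) (r : Sig κ) :
    PZ (fun x => (Sum.elim ![f0 x, f1 x, f2 x] (g x) r : ℤ)) := by
  rcases r with r | r
  · fin_cases r
    · simpa using h0
    · simpa using h1
    · simpa using h2
  · simpa using hg r

theorem pz_acZ {Th E : ℤ} {G : ℕ → ℤ} (hG : PZ G) (c0 : κ) (p : Sig κ) :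
    PZ (fun x => acZ Th E (G x) c0 p) := by
  unfold acZ
  refine PZ.elim3 ((PZ.const (Th * E)).mul hG) (PZ.const 0) (PZ.const 0) (fun r => ?_) p
  exact PZ.const _

theorem pz_muZ {Th E : ℤ} {G : ℕ → ℤ} (hG : PZ G) (gf : κ → ℤ) (c0 : κ) (p : Sig κ) :
    PZ (fun x => muZ Th E (G x) gf c0 p) := by
  unfold muZ
  refine PZ.elim3 (PZ.const 0) ((PZ.const (Th * E)).mul hG) (PZ.const _) (fun r => ?_) p
  exact PZ.const _

theorem pz_peZ {Th E : ℤ} {G : ℕ → ℤ} (hG : PZ G) (b : AInstr κ) (p : Sig κ) :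
    PZ (fun x => peZ Th E (G x) b p) := by
  unfold peZ
  refine PZ.elim3 (PZ.const 0) (PZ.const 0) ((PZ.const (Th * E)).mul hG) (fun r => ?_) p
  exact ((PZ.const (Th * E)).mul hG).mul (PZ.const _)

theorem pz_enZ {E : ℤ} {G : ℕ → ℤ} (hG : PZ G) (b : AInstr κ) (r : κ × κ) (p : Sig κ) :
    PZ (fun x => enZ E (G x) b r p) := by
  unfold enZ
  refine PZ.elim3 (PZ.const 0) (PZ.const 0) (PZ.const 0) (fun r => ?_) p
  exact (((PZ.const E).mul hG).mul (PZ.const _)).mul (PZ.const _)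

theorem pz_BZ (instr : Fin q → AInstr κ) (gf : κ → ℤ) (c0 : κ) {Th E : ℤ} {G : ℕ → ℤ}
    (hG : PZ G) {ξ : ℕ → κ → ℤ} (hξ : ∀ i, PZ (fun x => ξ x i)) (b : Option (Option (Fin q)))
    (p r : Sig κ) : PZ (fun x => BZ instr gf (ξ x) c0 Th E (G x) b p r) := by
  have hS := (PZ.const (Th * E)).mul hG
  rcases b with _ | _ | b
  · simp only [BZ, Matrix.of_apply]
    split_ifs
    · exact hS
    · exact PZ.const 0
  · simp only [BZ, Matrix.of_apply]
    refine PZ.elim3 (pz_acZ hG c0 p) (pz_muZ hG gf c0 p) (PZ.const 0) (fun r' => ?_) r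
    exact ((pz_muZ hG gf c0 p).mul (hξ _)).mul (hξ _)
  · simp only [BZ, Matrix.of_apply]
    refine PZ.elim3 ?_ ?_ (pz_peZ hG _ p) (fun r' => pz_enZ hG _ r' p) r
    · exact PZ.elim3 (g := fun _ _ => 0) hS (PZ.const 0) (PZ.const 0) (fun _ => PZ.const 0) p
    · exact PZ.elim3 (g := fun _ _ => 0) (PZ.const 0) hS (PZ.const 0) (fun _ => PZ.const 0) p

theorem pz_yZ {ξ : ℕ → κ → ℤ} (hξ : ∀ i, PZ (fun x => ξ x i)) (p : Sig κ) :
    PZ (fun x => yZ (ξ x) p) := by
  unfold yZ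
  exact PZ.elim3 (PZ.const 0) (PZ.const 1) (PZ.const 0) (fun r => (hξ _).mul (hξ _)) p

theorem pz_cmbZ {ι : Type} {d : ℕ} (A : ι → Matrix (Fin d) (Fin d) ℤ)
    (instr : Fin q → AInstr κ) (gf : κ → ℤ) (c0 : κ) {Th E K : ℤ} {G : ℕ → ℤ} (i0 j0 : Fin d)
    (hG : PZ G) {ξ : ℕ → κ → ℤ} (hξ : ∀ i, PZ (fun x => ξ x i))
    (c : Option (ι × Option (Option (Fin q)))) (p r : Fin d × Sig κ) :
    PZ (fun x => cmbZ A instr gf (ξ x) c0 Th E (G x) K i0 j0 c p r) := by
  rcases c with _ | c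
  · simp only [cmbZ, Matrix.of_apply]
    split_ifs
    · exact (((PZ.const (Th * E)).mul hG).mul (PZ.const K)).mul (pz_yZ hξ _)
    · exact PZ.const 0
    · exact PZ.const 0
  · simp only [cmbZ, Matrix.of_apply]
    exact (PZ.const _).mul (pz_BZ instr gf c0 hG hξ _ _ _)

end entries

end Pool.Agent.MP9a50b7
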