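import Mathlib

/-! Register programs given by finite control graphs. -/

set_option autoImplicit false

namespace Pool.Agent.MP9a50b7

open Relation

/-- Basic operations on registers holding natural numbers. -/
inductive Op
  | inc (i : ℕ)
  | clear (i : ℕ)
  | copy (i j : ℕ)
  | test (i j : ℕ)
  | skip

/-- The relation between the register states before and after an operation. -/
def Op.rel : Op → (ℕ → ℕ) → (ℕ → ℕ) → Prop
  | .inc i, s, s' => s' = Function.update s i (s i + 1)
  | .clear i, s, s' => s' = Function.update s i 0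
  | .copy i j, s, s' => s' = Function.update s i (s j)
  | .test i j, s, s' => s i = s j ∧ s' = s
  | .skip, s, s' => s' = s

/-- One step in a control graph `tr`, whose edges carry basic operations. -/
def Step {Λ : Type} (tr : List (Λ × Op × Λ)) (c c' : Λ × (ℕ → ℕ)) : Prop :=
  ∃ op, (c.1, op, c'.1) ∈ tr ∧ op.rel c.2 c'.2

/-- A relation on register states that is computed by some finite control graph. -/
def Real (ρ : (ℕ → ℕ) → (ℕ → ℕ) → Prop) : Prop :=
  ∃ (Λ : Type) (_ : Finite Λ) (start stop : Λ) (tr : List (Λ × Op × Λ)),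
    ∀ s s', ReflTransGen (Step tr) (start, s) (stop, s') ↔ ρ s s'

theorem Real.congr {ρ σ : (ℕ → ℕ) → (ℕ → ℕ) → Prop} (h : Real ρ)
    (H : ∀ s s', ρ s s' ↔ σ s s') : Real σ := by
  obtain ⟨Λ, hΛ, a, b, tr, hS⟩ := h
  exact ⟨Λ, hΛ, a, b, tr, fun s s' => (hS s s').trans (H s s')⟩

theorem Real.op (o : Op) : Real o.rel := by
  refine ⟨Bool, inferInstance, false, true, [(false, o, true)], fun s s' => ?_⟩
  constructor
  · intro h
    have key : ∀ c : Bool × (ℕ → ℕ), ReflTransGen
        (Step [(false, o, true)]) c (true, s') →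
        (c.1 = true → c.2 = s') ∧ (c.1 = false → o.rel c.2 s') := by
      intro c hc
      induction hc using ReflTransGen.head_induction_on with
      | refl => exact ⟨fun _ => rfl, fun h => by simp at h⟩
      | @head a b hab hbc ih =>
        obtain ⟨op, hmem, hrel⟩ := hab
        simp only [List.mem_singleton, Prod.mk.injEq] at hmem
        obtain ⟨h1, h2, h3⟩ := hmem
        subst h2
        constructor
        · intro h; rw [h] at h1; simp at h1
        · intro _
          have := ih.1 h3
          rw [← this]; exact hrel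
    exact (key _ h).2 rfl
  · intro h
    refine ReflTransGen.single ⟨o, by simp, h⟩

/-- control graph of a sequential composition -/
def seqTr {Λ₁ Λ₂ : Type} (tr1 : List (Λ₁ × Op × Λ₁)) (tr2 : List (Λ₂ × Op × Λ₂))
    (b1 : Λ₁) (a2 : Λ₂) : List ((Λ₁ ⊕ Λ₂) × Op × (Λ₁ ⊕ Λ₂)) :=
  (tr1.map fun t => (Sum.inl t.1, t.2.1, Sum.inl t.2.2)) ++
    ((tr2.map fun t => (Sum.inr t.1, t.2.1, Sum.inr t.2.2)) ++
      [(Sum.inl b1, Op.skip, Sum.inr a2)])

theorem Real.seq {ρ σ : (ℕ → ℕ) → (ℕ → ℕ) → Prop} (hρ : Real ρ) (hσ : Real σ) :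
    Real (fun s s' => ∃ m, ρ s m ∧ σ m s') := by
  obtain ⟨Λ₁, f1, a1, b1, tr1, h1⟩ := hρ
  obtain ⟨Λ₂, f2, a2, b2, tr2, h2⟩ := hσ
  refine ⟨Λ₁ ⊕ Λ₂, inferInstance, Sum.inl a1, Sum.inr b2, seqTr tr1 tr2 b1 a2, fun s s' => ?_⟩
  constructor
  · intro h
    have key : ∀ c : (Λ₁ ⊕ Λ₂) × (ℕ → ℕ),
        ReflTransGen (Step (seqTr tr1 tr2 b1 a2)) c (Sum.inr b2, s') →
        (∀ l, c.1 = Sum.inl l → ∃ m, ReflTransGen (Step tr1) (l, c.2) (b1, m) ∧
            ReflTransGen (Step tr2) (a2, m) (b2, s')) ∧
        (∀ l, c.1 = Sum.inr l → ReflTransGen (Step tr2) (l, c.2) (b2, s')) := by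
      intro c hc
      induction hc using ReflTransGen.head_induction_on with
      | refl =>
        refine ⟨fun l hl => by simp at hl, fun l hl => ?_⟩
        simp only [Sum.inr.injEq] at hl
        rw [← hl]
      | @head a b hab hbc ih =>
        obtain ⟨op, hmem, hrel⟩ := hab
        simp only [seqTr, List.mem_append, List.mem_map, List.mem_singleton,
          Prod.mk.injEq] at hmem
        rcases hmem with ⟨⟨l, o, l'⟩, ht, e1, e2, e3⟩ | ⟨⟨l, o, l'⟩, ht, e1, e2, e3⟩ | ⟨e1, e2, e3⟩
        · refine ⟨fun k hk => ?_, fun k hk => ?_⟩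
          · rw [← e1] at hk
            simp only [Sum.inl.injEq] at hk
            subst hk
            obtain ⟨m, hm1, hm2⟩ := ih.1 l' e3.symm
            refine ⟨m, ReflTransGen.head ⟨op, ?_, hrel⟩ hm1, hm2⟩
            simp only at e2; subst e2; exact ht
          · rw [← e1] at hk; simp at hk
        · refine ⟨fun k hk => ?_, fun k hk => ?_⟩
          · rw [← e1] at hk; simp at hk
          · rw [← e1] at hk
            simp only [Sum.inr.injEq] at hk
            subst hk
            refine ReflTransGen.head ⟨op, ?_, hrel⟩ (ih.2 l' e3.symm)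
            simp only at e2; subst e2; exact ht
        · refine ⟨fun k hk => ?_, fun k hk => ?_⟩
          · rw [e1] at hk
            simp only [Sum.inl.injEq] at hk
            subst hk
            have := ih.2 a2 e3
            rw [e2] at hrel
            simp only [Op.rel] at hrel
            rw [hrel] at this
            exact ⟨a.2, ReflTransGen.refl, this⟩
          · rw [e1] at hk; simp at hk
    obtain ⟨m, hm1, hm2⟩ := (key _ h).1 a1 rfl
    exact ⟨m, (h1 _ _).1 hm1, (h2 _ _).1 hm2⟩
  · rintro ⟨m, hm1, hm2⟩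
    have x1 : ReflTransGen (Step (seqTr tr1 tr2 b1 a2)) (Sum.inl a1, s) (Sum.inl b1, m) := by
      have := (h1 _ _).2 hm1
      refine ReflTransGen.lift
        (fun c : Λ₁ × (ℕ → ℕ) => ((Sum.inl c.1, c.2) : (Λ₁ ⊕ Λ₂) × (ℕ → ℕ))) ?_ _ _ this
      rintro a b ⟨op, hmem, hrel⟩
      exact ⟨op, by
        simp only [seqTr, List.mem_append, List.mem_map]
        exact Or.inl ⟨_, hmem, rfl⟩, hrel⟩
    have x2 : ReflTransGen (Step (seqTr tr1 tr2 b1 a2)) (Sum.inr a2, m) (Sum.inr b2, s') := by
      have := (h2 _ _).2 hm2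
      refine ReflTransGen.lift
        (fun c : Λ₂ × (ℕ → ℕ) => ((Sum.inr c.1, c.2) : (Λ₁ ⊕ Λ₂) × (ℕ → ℕ))) ?_ _ _ this
      rintro a b ⟨op, hmem, hrel⟩
      exact ⟨op, by
        simp only [seqTr, List.mem_append, List.mem_map]
        exact Or.inr (Or.inl ⟨_, hmem, rfl⟩), hrel⟩
    have x3 : Step (seqTr tr1 tr2 b1 a2) (Sum.inl b1, m) (Sum.inr a2, m) :=
      ⟨Op.skip, by simp [seqTr], rfl⟩
    exact (x1.tail x3).trans x2

/-- control graph of an iteration -/
def starTr {Λ₁ : Type} (tr1 : List (Λ₁ × Op × Λ₁)) (a1 b1 : Λ₁) :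
    List (Option Λ₁ × Op × Option Λ₁) :=
  (tr1.map fun t => (some t.1, t.2.1, some t.2.2)) ++
      [(none, Op.skip, some a1), (some b1, Op.skip, none)]

theorem Real.star {ρ : (ℕ → ℕ) → (ℕ → ℕ) → Prop} (hρ : Real ρ) :
    Real (ReflTransGen ρ) := by
  obtain ⟨Λ₁, f1, a1, b1, tr1, h1⟩ := hρ
  refine ⟨Option Λ₁, inferInstance, none, none, starTr tr1 a1 b1, fun s s' => ?_⟩
  constructor
  · intro h
    have key : ∀ c : Option Λ₁ × (ℕ → ℕ),
        ReflTransGen (Step (starTr tr1 a1 b1)) c (none, s') →
        (c.1 = none → ReflTransGen ρ c.2 s') ∧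
        (∀ l, c.1 = some l → ∃ m, ReflTransGen (Step tr1) (l, c.2) (b1, m) ∧
          ReflTransGen ρ m s') := by
      intro c hc
      induction hc using ReflTransGen.head_induction_on with
      | refl =>
        refine ⟨fun _ => ReflTransGen.refl, fun l hl => ?_⟩
        simp at hl
      | @head a b hab hbc ih =>
        obtain ⟨op, hmem, hrel⟩ := hab
        simp only [starTr, List.mem_append, List.mem_map, List.mem_cons, Prod.mk.injEq,
          List.not_mem_nil, or_false] at hmem
        rcases hmem with ⟨⟨l, o, l'⟩, ht, e1, e2, e3⟩ | ⟨e1, e2, e3⟩ | ⟨e1, e2, e3⟩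
        · refine ⟨fun hk => ?_, fun k hk => ?_⟩
          · rw [← e1] at hk; simp at hk
          · rw [← e1] at hk
            simp only [Option.some.injEq] at hk
            subst hk
            obtain ⟨m, hm1, hm2⟩ := ih.2 l' e3.symm
            refine ⟨m, ReflTransGen.head ⟨op, ?_, hrel⟩ hm1, hm2⟩
            simp only at e2; subst e2; exact ht
        · refine ⟨fun hk => ?_, fun k hk => ?_⟩
          · rw [e2] at hrel
            simp only [Op.rel] at hrel
            obtain ⟨m, hm1, hm2⟩ := ih.2 a1 e3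
            rw [hrel] at hm1
            exact ReflTransGen.head ((h1 _ _).1 hm1) hm2
          · rw [e1] at hk; simp at hk
        · refine ⟨fun hk => ?_, fun k hk => ?_⟩
          · rw [e1] at hk; simp at hk
          · rw [e1] at hk
            simp only [Option.some.injEq] at hk
            subst hk
            rw [e2] at hrel
            simp only [Op.rel] at hrel
            have := ih.1 e3
            rw [hrel] at this
            exact ⟨a.2, ReflTransGen.refl, this⟩
    exact (key _ h).1 rfl
  · intro h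
    induction h with
    | refl => exact ReflTransGen.refl
    | @tail b c hab hbc ih =>
      refine ih.trans ?_
      have x1 : ReflTransGen (Step (starTr tr1 a1 b1)) (some a1, b) (some b1, c) := by
        have := (h1 _ _).2 hbc
        refine ReflTransGen.lift
          (fun c : Λ₁ × (ℕ → ℕ) => ((some c.1, c.2) : Option Λ₁ × (ℕ → ℕ))) ?_ _ _ this
        rintro a b ⟨op, hmem, hrel⟩
        exact ⟨op, by
          simp only [starTr, List.mem_append, List.mem_map]
          exact Or.inl ⟨_, hmem, rfl⟩, hrel⟩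
      have x2 : Step (starTr tr1 a1 b1) (none, b) (some a1, b) :=
        ⟨Op.skip, by simp [starTr], rfl⟩
      have x3 : Step (starTr tr1 a1 b1) (some b1, c) (none, c) :=
        ⟨Op.skip, by simp [starTr], rfl⟩
      exact (ReflTransGen.head x2 x1).tail x3

end Pool.Agent.MP9a50b7
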