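import Pool.Agent.Lib.MP_9a50b7_lc.Integer

/-! The dichotomy: the finiteness property is decidable if and only if every finite nonempty
set of integer matrices of positive size has it. -/

set_option autoImplicit false
set_option linter.unusedSectionVars false

namespace Pool.Agent.MP9a50b7

open Matrix Relation

theorem fpg_comp_iff {ι ι' I : Type} [Fintype I] [DecidableEq I] {M : ι → Matrix I I ℝ}
    {f : ι' → ι} (hf : Function.Surjective f) : FPg (fun a => M (f a)) ↔ FPg M := by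
  have hprod : ∀ w : List ι', (w.map fun a => M (f a)).prod = ((w.map f).map M).prod := by
    intro w
    rw [List.map_map]
    rfl
  have hlift : ∀ w : List ι, ∃ w' : List ι', w'.map f = w :=
    fun w => List.map_surjective_iff.2 hf w
  have hgr : ∀ ρ, Gr (fun a => M (f a)) ρ ↔ Gr M ρ := by
    intro ρ
    constructor
    · rintro ⟨C, hC⟩
      refine ⟨C, fun u i j => ?_⟩
      obtain ⟨u', rfl⟩ := hlift u
      have := hC u' i j
      rw [hprod] at this
      rw [List.length_map]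
      exact this
    · rintro ⟨C, hC⟩
      refine ⟨C, fun u i j => ?_⟩
      have := hC (u.map f) i j
      rw [List.length_map] at this
      rw [hprod]
      exact this
  constructor
  · rintro ⟨w, hw, h⟩
    refine ⟨w.map f, fun h0 => hw (List.map_eq_nil_iff.1 h0), fun ρ hρ hP ε hε => ?_⟩
    rw [← hprod, List.length_map] at hP
    exact (hgr _).1 (h ρ hρ hP ε hε)
  · rintro ⟨w, hw, h⟩
    obtain ⟨w', rfl⟩ := hlift w
    refine ⟨w', fun h0 => hw (by rw [h0]; rfl), fun ρ hρ hP ε hε => ?_⟩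
    rw [List.length_map] at h
    rw [hprod] at hP
    exact (hgr _).2 (h ρ hρ hP ε hε)

theorem natAbs_sum_le {κ : Type} [Fintype κ] (f : κ → ℤ) {R : ℕ}
    (h : ∑ i, (f i).natAbs ≤ R) : ∑ i, |(f i : ℝ)| ≤ R := by
  have e1 : ∀ i, |(f i : ℝ)| = ((f i).natAbs : ℝ) := fun i => by
    rw [Nat.cast_natAbs, Int.cast_abs]
  simp only [e1]
  exact_mod_cast h

/-- the reduction -/
theorem reduce {ι : Type} [Finite ι] {d : ℕ} (A : ι → Matrix (Fin d) (Fin d) ℤ)
    {ρ0 C c : ℝ} {i0 j0 : Fin d}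
    (hA : CoreFam (fun a => (A a).map (Int.cast : ℤ → ℝ)) ρ0 C c i0 j0) :
    ¬ ComputablePred FP := by
  classical
  intro hcomp
  have : Fintype ι := Fintype.ofFinite ι
  obtain ⟨Kk, q, instr, gf, v0, v1, hT0, hv0, hv1, hundec⟩ := exists_undecidable
  apply hundec
  -- constants
  set R : ℕ := 1 + (∑ b, ∑ i, ∑ j, ((instr b).T i j).natAbs) +
    (∑ b, ∑ j, ((instr b).g1 j).natAbs) + (∑ b, ∑ j, ((instr b).g2 j).natAbs) +
    (∑ j, (gf j).natAbs) with hR
  set P : ℕ := 1 + (∑ i, (v0 i).natAbs) + (∑ i, (v1 i).natAbs) with hP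
  have hR1 : 1 ≤ R := by omega
  have hP1 : 1 ≤ P := by omega
  obtain ⟨K, hK⟩ := exists_nat_gt (2 * ρ0 / c)
  have hK0 : (0:ℝ) < K := lt_trans (div_pos (by linarith [hA.hρ0]) hA.hc) hK
  have hK' : (0:ℤ) < (K:ℤ) := by exact_mod_cast hK0
  have hKc : 2 * ρ0 < K * c := by rwa [div_lt_iff₀ hA.hc] at hK
  obtain ⟨E0, hE0⟩ := exists_nat_gt (K * C / ρ0)
  set E : ℕ := E0 + 1 with hE
  have hE1 : (1:ℝ) ≤ E := by rw [hE]; push_cast; linarith [Nat.cast_nonneg (α := ℝ) E0]
  have hEpos : (0:ℝ) < E := by linarith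
  have hEs : K * C * (1 / (E : ℝ)) < ρ0 := by
    rw [mul_one_div, div_lt_iff₀ hEpos]
    rw [div_lt_iff₀ hA.hρ0] at hE0
    have e1 : (E0 : ℝ) * ρ0 ≤ ρ0 * E := by
      rw [hE]; push_cast; nlinarith [hA.hρ0]
    linarith
  set Th : ℕ := 2 * R ^ 2 with hTh
  set H : ℕ := 4 * R ^ 2 * P ^ 2 + 1 with hH
  set G : ℕ → ℕ := fun x => H * (1 + x) ^ 2 with hG
  have hTh0 : 0 < Th := by positivity
  have hH0 : 0 < H := by positivity
  have hG0 : ∀ x, 0 < G x := fun x => by positivity
  set ξ : ℕ → Idx Kk → ℤ := fun x => v0 + (x : ℤ) • v1 with hξ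
  have hR1' : (1:ℝ) ≤ R := by exact_mod_cast hR1
  have hP1' : (1:ℝ) ≤ P := by exact_mod_cast hP1
  -- bounds on rows
  have hTle : ∀ b, ∑ i, ∑ j, ((instr b).T i j).natAbs ≤ R := by
    intro b
    have := Finset.single_le_sum (f := fun b => ∑ i, ∑ j, ((instr b).T i j).natAbs)
      (fun _ _ => Nat.zero_le _) (Finset.mem_univ b)
    omega
  have hrow : ∀ b i, ∑ j, ((instr b).T i j).natAbs ≤ R := by
    intro b i
    have := Finset.single_le_sum (f := fun i => ∑ j, ((instr b).T i j).natAbs)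
      (fun _ _ => Nat.zero_le _) (Finset.mem_univ i)
    exact this.trans (hTle b)
  have hcol : ∀ b j, ∑ i, ((instr b).T i j).natAbs ≤ R := by
    intro b j
    have := Finset.single_le_sum (f := fun j => ∑ i, ((instr b).T i j).natAbs)
      (fun _ _ => Nat.zero_le _) (Finset.mem_univ j)
    refine this.trans ?_
    rw [Finset.sum_comm]
    exact hTle b
  have hg1 : ∀ b, ∑ j, ((instr b).g1 j).natAbs ≤ R := by
    intro b
    have := Finset.single_le_sum (f := fun b => ∑ j, ((instr b).g1 j).natAbs)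
      (fun _ _ => Nat.zero_le _) (Finset.mem_univ b)
    omega
  have hg2 : ∀ b, ∑ j, ((instr b).g2 j).natAbs ≤ R := by
    intro b
    have := Finset.single_le_sum (f := fun b => ∑ j, ((instr b).g2 j).natAbs)
      (fun _ _ => Nat.zero_le _) (Finset.mem_univ b)
    omega
  have hgf : ∑ j, (gf j).natAbs ≤ R := by omega
  have hξb : ∀ x i, |((ξ x i : ℤ) : ℝ)| ≤ (P : ℝ) * (1 + x) := by
    intro x i
    have e1 : (v0 i).natAbs ≤ P := by
      have := Finset.single_le_sum (f := fun i => (v0 i).natAbs)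
        (fun _ _ => Nat.zero_le _) (Finset.mem_univ i)
      omega
    have e2 : (v1 i).natAbs ≤ P := by
      have := Finset.single_le_sum (f := fun i => (v1 i).natAbs)
        (fun _ _ => Nat.zero_le _) (Finset.mem_univ i)
      omega
    have e3 : |((v0 i : ℤ) : ℝ)| ≤ P := by
      rw [← Int.cast_abs, ← Nat.cast_natAbs]; exact_mod_cast e1
    have e4 : |((v1 i : ℤ) : ℝ)| ≤ P := by
      rw [← Int.cast_abs, ← Nat.cast_natAbs]; exact_mod_cast e2
    have e5 : ((ξ x i : ℤ) : ℝ) = (v0 i : ℝ) + x * (v1 i : ℝ) := by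
      simp [hξ]
    rw [e5]
    refine (abs_add_le _ _).trans ?_
    rw [abs_mul, abs_of_nonneg (Nat.cast_nonneg (α := ℝ) x)]
    have e6 := mul_le_mul_of_nonneg_left e4 (Nat.cast_nonneg (α := ℝ) x)
    linarith
  have good : ∀ x, Good instr gf (ξ x) none (1 / ((Th : ℤ) : ℝ)) (1 / ((G x : ℤ) : ℝ))
      (1 / ((E : ℤ) : ℝ)) (R : ℝ) (P * (1 + x)) := by
    intro x
    have hx0 : (0:ℝ) ≤ x := Nat.cast_nonneg x
    have hTh0' : (0:ℝ) < ((Th : ℤ) : ℝ) := by exact_mod_cast hTh0
    have hG0' : (0:ℝ) < ((G x : ℤ) : ℝ) := by exact_mod_cast hG0 x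
    have hE0' : (0:ℝ) < ((E : ℤ) : ℝ) := by exact_mod_cast hEpos
    refine ⟨hR1', ?_, fun b i => natAbs_sum_le _ (hrow b i), fun b j => natAbs_sum_le _ (hcol b j),
      fun b => natAbs_sum_le _ (hg1 b), fun b => natAbs_sum_le _ (hg2 b), natAbs_sum_le _ hgf,
      hξb x, ?_, hT0, by positivity, ?_, by positivity, ?_, by positivity, ?_⟩
    · nlinarith
    · simp [hξ, hv0, hv1]
    · rw [one_div, inv_mul_le_iff₀ hTh0', hTh]
      push_cast
      linarith
    · rw [one_div, inv_mul_le_iff₀ hG0', hG, hH]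
      push_cast
      nlinarith
    · rw [div_le_one hE0']
      exact_mod_cast hE1
  -- the combined real family
  set M : ℕ → Option (ι × Option (Option (Fin q))) →
      Matrix (Fin d × Sig (Idx Kk)) (Fin d × Sig (Idx Kk)) ℝ := fun x =>
    cmb (fun a => (A a).map (Int.cast : ℤ → ℝ))
      (Bmat instr gf (ξ x) none (1 / ((Th : ℤ) : ℝ)) (1 / ((G x : ℤ) : ℝ)) (1 / ((E : ℤ) : ℝ)))
      (y0 (ξ x)) (Sum.inl 0) ((K : ℤ) : ℝ) i0 j0 with hM
  have hKreal : ((K : ℤ) : ℝ) = (K : ℝ) := by simp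
  have hEreal : ((E : ℤ) : ℝ) = (E : ℝ) := by simp
  have key : ∀ x, (∃ v, ReflTransGen (AStep instr) (ξ x) v ∧ gf ⬝ᵥ v = 0) ↔ FPg (M x) := by
    intro x
    obtain ⟨CB, hCB0, hCB⟩ := Bmat_bounded (good x)
    constructor
    · intro hyes
      refine cmb_hold hA (b0 := none) rfl (by rw [hKreal]; exact hK0) hCB
        (reach_large (good x) hyes) (by rw [hKreal]; exact hKc)
    · intro hfp
      by_contra hno
      refine cmb_fail hA (b0 := none) rfl (by rw [hKreal]; exact hK0) hCB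
        (accept_small (good x) hno) ?_ hfp
      rw [hKreal, hEreal]
      exact hEs
  -- the integer family
  set e := Fintype.equivFin (Fin d × Sig (Idx Kk)) with he
  set eG := Fintype.equivFin (Option (ι × Option (Option (Fin q)))) with heG
  set N := Fintype.card (Fin d × Sig (Idx Kk)) with hN
  have hN0 : 0 < N := Fintype.card_pos_iff.2 ⟨(i0, Sum.inl 0)⟩
  set Z : ℕ → Fin (Fintype.card (Option (ι × Option (Option (Fin q))))) →
      Matrix (Fin N) (Fin N) ℤ := fun x k =>
    (cmbZ A instr gf (ξ x) none (Th : ℤ) (E : ℤ) ((G x : ℕ) : ℤ) (K : ℤ) i0 j0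
      (eG.symm k)).submatrix e.symm e.symm with hZ
  set g : ℕ → ℕ × List (List (List ℤ)) := fun x => (N, List.ofFn fun k => encM (Z x k)) with hg
  have hS : ∀ x, (0:ℝ) < (((Th : ℤ) * (E : ℤ) * ((G x : ℕ) : ℤ) : ℤ) : ℝ) := by
    intro x
    have h1 : (0:ℝ) < (Th : ℝ) := by exact_mod_cast hTh0
    have h2 : (0:ℝ) < (G x : ℝ) := by exact_mod_cast hG0 x
    push_cast
    positivity
  have hred : ∀ x, (∃ v, ReflTransGen (AStep instr) (ξ x) v ∧ gf ⬝ᵥ v = 0) ↔ FP (g x) := by
    intro x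
    rw [key x, hg, fp_ofFn hN0]
    have e1 : (fun k => (Z x k).map (Int.cast : ℤ → ℝ)) =
        fun k => (((((Th : ℤ) * (E : ℤ) * ((G x : ℕ) : ℤ) : ℤ) : ℝ)) •
          M x (eG.symm k)).submatrix e.symm e.symm := by
      funext k
      rw [hM]
      simp only
      rw [← cmbZ_cast A instr gf (ξ x) none (by exact_mod_cast hTh0)
        (by exact_mod_cast hEpos) (by exact_mod_cast hG0 x) i0 j0 (eG.symm k)]
      rfl
    rw [e1]
    have e2 := fpg_comp_iff (M := fun c => (((((Th : ℤ) * (E : ℤ) * ((G x : ℕ) : ℤ) : ℤ) : ℝ)) •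
          M x c).submatrix e.symm e.symm) (f := eG.symm) eG.symm.surjective
    rw [e2, fpg_reindex_iff e
      (M := fun c => ((((Th : ℤ) * (E : ℤ) * ((G x : ℕ) : ℤ) : ℤ) : ℝ)) • M x c),
      fpg_smul_iff (hS x)]
  have hgcomp : Computable g := by
    refine Primrec.to_comp ?_
    refine Primrec.pair (Primrec.const N) ?_
    refine Primrec.list_ofFn fun k => ?_
    unfold encM
    refine Primrec.list_ofFn fun i => Primrec.list_ofFn fun j => ?_
    refine PZ.primrec ?_
    simp only [hZ, Matrix.submatrix_apply]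
    refine pz_cmbZ A instr gf none i0 j0 ?_ ?_ _ _ _
    · refine PZ.natCast ?_
      have h1 : Primrec fun x : ℕ => 1 + x := Primrec.nat_add.comp (Primrec.const 1) Primrec.id
      refine (Primrec.nat_mul.comp (Primrec.const H) (Primrec.nat_mul.comp h1 h1)).of_eq
        fun x => ?_
      simp only [hG]
      ring
    · intro i
      simp only [hξ, Pi.add_apply, Pi.smul_apply, smul_eq_mul]
      exact (PZ.const _).add ((PZ.natCast Primrec.id).mul (PZ.const _))
  exact ComputablePred.computable_of_manyOneReducible ⟨g, hgcomp, hred⟩ hcomp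

/-- the dichotomy -/
theorem dichotomy : ComputablePred FP ↔
    ∀ (n : ℕ) (L : List (List (List ℤ))), 0 < n → L ≠ [] → FP (n, L) := by
  constructor
  · intro hcomp n L hn hL
    by_contra hfail
    rw [fp_iff_fpe, fpe_iff_fpg hn] at hfail
    have : Nonempty {x // x ∈ L} := by
      obtain ⟨a, ha⟩ := List.exists_mem_of_ne_nil L hL
      exact ⟨⟨a, ha⟩⟩
    obtain ⟨d, A, ρ0, C, c, i0, j0, hA⟩ := exists_core_of_not_fpg _ hfail
    exact reduce A hA hcomp
  · intro hall
    have h1 : FP = fun p => 0 < p.1 ∧ 0 < p.2.length := by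
      funext p
      obtain ⟨n, L⟩ := p
      refine propext ⟨fun h => ⟨?_, ?_⟩, fun h => ?_⟩
      · rcases Nat.eq_zero_or_pos n with rfl | hn
        · exact absurd h (not_fp_zero L)
        · exact hn
      · rcases L with _ | ⟨a, L⟩
        · exact absurd h (not_fp_nil n)
        · simp
      · refine hall n L h.1 ?_
        rintro rfl
        simp at h
    rw [h1]
    have h2 : PrimrecPred fun p : ℕ × List (List (List ℤ)) => 0 < p.1 ∧ 0 < p.2.length :=
      PrimrecPred.and (Primrec.nat_lt.comp (Primrec.const 0) Primrec.fst)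
        (Primrec.nat_lt.comp (Primrec.const 0) (Primrec.list_length.comp Primrec.snd))
    exact h2.computablePred

end Pool.Agent.MP9a50b7
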