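import Pool.Agent.Lib.MP_9a50b7_lc.Growth

/-! Growth of products of endomorphisms of finite dimensional rational vector spaces;
reduction to irreducible families. -/

set_option autoImplicit false

namespace Pool.Agent.MP9a50b7

open Module

section defs

variable {ι V : Type} [AddCommGroup V] [Module ℚ V]

/-- product along a word -/
def prodE (T : ι → End ℚ V) (w : List ι) : End ℚ V := (w.map T).prod

/-- growth of all products at rate at most `ρ` -/
def GrV (T : ι → End ℚ V) (ρ : ℝ) : Prop :=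
  ∀ (v : V) (φ : Dual ℚ V), ∃ C : ℝ, ∀ w : List ι, |((φ (prodE T w v) : ℚ) : ℝ)| ≤ C * ρ ^ w.length

/-- growth of powers at rate at most `r` -/
def PGrV (X : End ℚ V) (r : ℝ) : Prop :=
  ∀ (v : V) (φ : Dual ℚ V), ∃ C : ℝ, ∀ k : ℕ, |((φ ((X ^ k) v) : ℚ) : ℝ)| ≤ C * r ^ k

/-- growth form of the finiteness property -/
def FPV (T : ι → End ℚ V) : Prop :=
  ∃ w : List ι, w ≠ [] ∧ ∀ ρ > 0, PGrV (prodE T w) (ρ ^ w.length) → ∀ ε > 0, GrV T (ρ + ε)

/-- adapted norms -/
structure AdN (T : ι → End ℚ V) (ρ : ℝ) (N : V → ℝ) : Prop where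
  nonneg : ∀ x, 0 ≤ N x
  add : ∀ x y, N (x + y) ≤ N x + N y
  smul : ∀ (c : ℚ) x, N (c • x) = |(c : ℝ)| * N x
  step : ∀ a x, N (T a x) ≤ ρ * N x
  dom : ∀ φ : Dual ℚ V, ∃ C : ℝ, 0 ≤ C ∧ ∀ x, |((φ x : ℚ) : ℝ)| ≤ C * N x

theorem prodE_nil (T : ι → End ℚ V) : prodE T [] = 1 := rfl

theorem prodE_cons (T : ι → End ℚ V) (a : ι) (w : List ι) :
    prodE T (a :: w) = T a * prodE T w := by simp [prodE]

theorem prodE_append (T : ι → End ℚ V) (w w' : List ι) :
    prodE T (w ++ w') = prodE T w * prodE T w' := by simp [prodE]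

theorem GrV.mono {T : ι → End ℚ V} {ρ ρ' : ℝ} (h : GrV T ρ) (h0 : 0 ≤ ρ) (hρ : ρ ≤ ρ') :
    GrV T ρ' := by
  intro v φ
  obtain ⟨C, hC⟩ := h v φ
  refine ⟨max C 0, fun w => (hC w).trans ?_⟩
  have h1 : ρ ^ w.length ≤ ρ' ^ w.length := pow_le_pow_left₀ h0 hρ _
  have h2 : 0 ≤ ρ ^ w.length := pow_nonneg h0 _
  calc C * ρ ^ w.length ≤ max C 0 * ρ ^ w.length :=
        mul_le_mul_of_nonneg_right (le_max_left _ _) h2
    _ ≤ max C 0 * ρ' ^ w.length := mul_le_mul_of_nonneg_left h1 (le_max_right _ _)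

theorem AdN.grV {T : ι → End ℚ V} {ρ : ℝ} {N : V → ℝ} (h : AdN T ρ N) (hρ : 0 ≤ ρ) :
    GrV T ρ := by
  intro v φ
  obtain ⟨C, hC0, hC⟩ := h.dom φ
  have key : ∀ w : List ι, N (prodE T w v) ≤ ρ ^ w.length * N v := by
    intro w
    induction w with
    | nil => simp [prodE_nil]
    | cons a w ih =>
      rw [prodE_cons, Module.End.mul_apply]
      calc N (T a (prodE T w v)) ≤ ρ * N (prodE T w v) := h.step _ _
        _ ≤ ρ * (ρ ^ w.length * N v) := mul_le_mul_of_nonneg_left ih hρ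
        _ = ρ ^ (a :: w).length * N v := by rw [List.length_cons, pow_succ]; ring
  refine ⟨C * N v, fun w => ?_⟩
  calc |((φ (prodE T w v) : ℚ) : ℝ)| ≤ C * N (prodE T w v) := hC _
    _ ≤ C * (ρ ^ w.length * N v) := mul_le_mul_of_nonneg_left (key w) hC0
    _ = C * N v * ρ ^ w.length := by ring

theorem GrV.exists_adN [FiniteDimensional ℚ V] {T : ι → End ℚ V} {ρ : ℝ} (hρ : 0 < ρ)
    (h : GrV T ρ) : ∃ N : V → ℝ, AdN T ρ N := by
  classical
  set b := Module.finBasis ℚ V with hb
  choose C hC using fun j k => h (b j) (b.coord k)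
  -- basic quantity
  set f : V → List ι → ℝ := fun x w =>
    (∑ k, |((b.coord k (prodE T w x) : ℚ) : ℝ)|) / ρ ^ w.length with hf
  have hf0 : ∀ x w, 0 ≤ f x w := fun x w =>
    div_nonneg (Finset.sum_nonneg fun _ _ => abs_nonneg _) (pow_nonneg hρ.le _)
  have hbd : ∀ x w, f x w ≤ ∑ k, ∑ j, |((b.coord j x : ℚ) : ℝ)| * C j k := by
    intro x w
    simp only [hf]
    rw [div_le_iff₀ (pow_pos hρ _), Finset.sum_mul]
    refine Finset.sum_le_sum fun k _ => ?_
    have e1 : prodE T w x = ∑ j, b.coord j x • prodE T w (b j) := by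
      conv_lhs => rw [← b.sum_repr x]
      rw [map_sum]
      simp [Basis.coord_apply]
    rw [e1, map_sum]
    push_cast
    refine (Finset.abs_sum_le_sum_abs _ _).trans ?_
    rw [Finset.sum_mul]
    refine Finset.sum_le_sum fun j _ => ?_
    rw [map_smul, smul_eq_mul]
    push_cast
    rw [abs_mul, mul_assoc]
    exact mul_le_mul_of_nonneg_left (hC j k w) (abs_nonneg _)
  have hbdd : ∀ x, BddAbove (Set.range (f x)) := by
    intro x
    refine ⟨∑ k, ∑ j, |((b.coord j x : ℚ) : ℝ)| * C j k, ?_⟩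
    rintro _ ⟨w, rfl⟩
    exact hbd x w
  refine ⟨fun x => ⨆ w, f x w, ?_, ?_, ?_, ?_, ?_⟩
  · intro x
    exact (hf0 x []).trans (le_ciSup (hbdd x) [])
  · intro x y
    refine ciSup_le fun w => ?_
    have : f (x + y) w ≤ f x w + f y w := by
      simp only [hf]
      rw [← add_div, ← Finset.sum_add_distrib]
      refine div_le_div_of_nonneg_right (Finset.sum_le_sum fun k _ => ?_) (pow_nonneg hρ.le _)
      rw [map_add, map_add]
      push_cast
      exact abs_add_le _ _
    exact this.trans (add_le_add (le_ciSup (hbdd x) w) (le_ciSup (hbdd y) w))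
  · intro c x
    have : ∀ w, f (c • x) w = |(c : ℝ)| * f x w := by
      intro w
      simp only [hf]
      rw [← mul_div_assoc, Finset.mul_sum]
      congr 1
      refine Finset.sum_congr rfl fun k _ => ?_
      rw [map_smul, map_smul, smul_eq_mul]
      push_cast
      rw [abs_mul]
    simp only [this]
    rw [Real.mul_iSup_of_nonneg (abs_nonneg _)]
  · intro a x
    refine ciSup_le fun w => ?_
    have : f (T a x) w = ρ * f x (w ++ [a]) := by
      simp only [hf]
      have e1 : prodE T (w ++ [a]) x = prodE T w (T a x) := by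
        rw [prodE_append]
        simp [prodE]
      rw [e1, List.length_append, List.length_singleton, pow_succ]
      field_simp
    rw [this]
    exact mul_le_mul_of_nonneg_left (le_ciSup (hbdd x) _) hρ.le
  · intro φ
    refine ⟨∑ k, |((φ (b k) : ℚ) : ℝ)|, Finset.sum_nonneg fun _ _ => abs_nonneg _, fun x => ?_⟩
    have e1 : φ x = ∑ j, b.coord j x * φ (b j) := by
      conv_lhs => rw [← b.sum_repr x]
      rw [map_sum]
      simp [Basis.coord_apply]
    have e2 : f x [] = ∑ k, |((b.coord k x : ℚ) : ℝ)| := by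
      simp [hf, prodE_nil]
    rw [e1]
    push_cast
    refine (Finset.abs_sum_le_sum_abs _ _).trans ?_
    rw [Finset.sum_mul]
    refine Finset.sum_le_sum fun j _ => ?_
    rw [abs_mul, mul_comm]
    refine mul_le_mul_of_nonneg_left ?_ (abs_nonneg _)
    refine le_trans ?_ (le_ciSup (hbdd x) [])
    rw [e2]
    exact Finset.single_le_sum (f := fun k => |((b.coord k x : ℚ) : ℝ)|)
      (fun _ _ => abs_nonneg _) (Finset.mem_univ j)

/-- every finite family has some growth rate -/
theorem exists_grV [Finite ι] [FiniteDimensional ℚ V] (T : ι → End ℚ V) :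
    ∃ ρ : ℝ, 0 < ρ ∧ GrV T ρ := by
  classical
  have := Fintype.ofFinite ι
  set b := Module.finBasis ℚ V with hb
  set N : V → ℝ := fun x => ∑ k, |((b.coord k x : ℚ) : ℝ)| with hN
  have hN0 : ∀ x, 0 ≤ N x := fun x => Finset.sum_nonneg fun _ _ => abs_nonneg _
  have hadd : ∀ x y, N (x + y) ≤ N x + N y := by
    intro x y
    simp only [hN]
    rw [← Finset.sum_add_distrib]
    refine Finset.sum_le_sum fun k _ => ?_
    rw [map_add]
    push_cast
    exact abs_add_le _ _
  have hsmul : ∀ (c : ℚ) x, N (c • x) = |(c : ℝ)| * N x := by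
    intro c x
    simp only [hN, Finset.mul_sum]
    refine Finset.sum_congr rfl fun k _ => ?_
    rw [map_smul, smul_eq_mul]
    push_cast
    rw [abs_mul]
  have hsum : ∀ (s : Finset (Fin (finrank ℚ V))) (g : Fin (finrank ℚ V) → V),
      N (∑ j ∈ s, g j) ≤ ∑ j ∈ s, N (g j) := by
    intro s g
    induction s using Finset.induction_on with
    | empty => simp [hN]
    | insert j s hj ih =>
      rw [Finset.sum_insert hj, Finset.sum_insert hj]
      exact (hadd _ _).trans (add_le_add le_rfl ih)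
  set ρ : ℝ := 1 + ∑ a, ∑ j, N (T a (b j)) with hρ
  have hρ0 : 0 ≤ ∑ a, ∑ j, N (T a (b j)) :=
    Finset.sum_nonneg fun _ _ => Finset.sum_nonneg fun _ _ => hN0 _
  refine ⟨ρ, by linarith, (AdN.grV (N := N) ⟨hN0, hadd, hsmul, ?_, ?_⟩ (by linarith))⟩
  · intro a x
    have e1 : T a x = ∑ j, b.coord j x • T a (b j) := by
      conv_lhs => rw [← b.sum_repr x]
      rw [map_sum]
      simp [Basis.coord_apply]
    rw [e1]
    refine (hsum _ _).trans ?_
    have e2 : ∀ j, N (T a (b j)) ≤ ρ := by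
      intro j
      have h1 : N (T a (b j)) ≤ ∑ j, N (T a (b j)) :=
        Finset.single_le_sum (f := fun j => N (T a (b j))) (fun _ _ => hN0 _) (Finset.mem_univ j)
      have h2 : ∑ j, N (T a (b j)) ≤ ∑ a, ∑ j, N (T a (b j)) :=
        Finset.single_le_sum (f := fun a => ∑ j, N (T a (b j)))
          (fun _ _ => Finset.sum_nonneg fun _ _ => hN0 _) (Finset.mem_univ a)
      linarith
    have e3 : ∑ j, N (b.coord j x • T a (b j)) ≤ ∑ j, |((b.coord j x : ℚ) : ℝ)| * ρ := by
      refine Finset.sum_le_sum fun j _ => ?_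
      rw [hsmul]
      exact mul_le_mul_of_nonneg_left (e2 j) (abs_nonneg _)
    refine e3.trans ?_
    rw [← Finset.sum_mul, mul_comm]
  · intro φ
    refine ⟨∑ k, |((φ (b k) : ℚ) : ℝ)|, Finset.sum_nonneg fun _ _ => abs_nonneg _, fun x => ?_⟩
    have e1 : φ x = ∑ j, b.coord j x * φ (b j) := by
      conv_lhs => rw [← b.sum_repr x]
      rw [map_sum]
      simp [Basis.coord_apply]
    rw [e1]
    push_cast
    refine (Finset.abs_sum_le_sum_abs _ _).trans ?_
    rw [Finset.sum_mul]
    refine Finset.sum_le_sum fun j _ => ?_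
    rw [abs_mul, mul_comm]
    refine mul_le_mul_of_nonneg_left ?_ (abs_nonneg _)
    exact Finset.single_le_sum (f := fun k => |((b.coord k x : ℚ) : ℝ)|)
      (fun _ _ => abs_nonneg _) (Finset.mem_univ j)

end defs

end Pool.Agent.MP9a50b7
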