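import Pool.Agent.Lib.MP_9a50b7_lc.Rep

/-! Extensions of families of endomorphisms and reduction to irreducible families. -/

set_option autoImplicit false

namespace Pool.Agent.MP9a50b7

open Module

section ext

variable {ι V : Type} [AddCommGroup V] [Module ℚ V]

/-- restriction to an invariant subspace -/
def resW (T : ι → End ℚ V) (W : Submodule ℚ V) (hW : ∀ a, ∀ x ∈ W, T a x ∈ W) : ι → End ℚ W :=
  fun a => (T a).restrict (hW a)

/-- quotient by an invariant subspace -/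
def quoW (T : ι → End ℚ V) (W : Submodule ℚ V) (hW : ∀ a, ∀ x ∈ W, T a x ∈ W) :
    ι → End ℚ (V ⧸ W) :=
  fun a => W.mapQ W (T a) (hW a)

theorem resW_apply (T : ι → End ℚ V) (W : Submodule ℚ V) (hW : ∀ a, ∀ x ∈ W, T a x ∈ W)
    (a : ι) (x : W) : ((resW T W hW a x : W) : V) = T a x := rfl

theorem quoW_apply (T : ι → End ℚ V) (W : Submodule ℚ V) (hW : ∀ a, ∀ x ∈ W, T a x ∈ W)
    (a : ι) (x : V) : quoW T W hW a (W.mkQ x) = W.mkQ (T a x) := rfl

theorem prodE_resW (T : ι → End ℚ V) (W : Submodule ℚ V) (hW : ∀ a, ∀ x ∈ W, T a x ∈ W)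
    (w : List ι) (x : W) : ((prodE (resW T W hW) w x : W) : V) = prodE T w x := by
  induction w with
  | nil => simp [prodE_nil]
  | cons a w ih =>
    rw [prodE_cons, prodE_cons, Module.End.mul_apply, Module.End.mul_apply, resW_apply, ih]

theorem prodE_quoW (T : ι → End ℚ V) (W : Submodule ℚ V) (hW : ∀ a, ∀ x ∈ W, T a x ∈ W)
    (w : List ι) (x : V) : prodE (quoW T W hW) w (W.mkQ x) = W.mkQ (prodE T w x) := by
  induction w with
  | nil => simp [prodE_nil]
  | cons a w ih =>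
    rw [prodE_cons, prodE_cons, Module.End.mul_apply, Module.End.mul_apply, ih, quoW_apply]

theorem pow_resW (T : ι → End ℚ V) (W : Submodule ℚ V) (hW : ∀ a, ∀ x ∈ W, T a x ∈ W)
    (w : List ι) (k : ℕ) (x : W) :
    ((((prodE (resW T W hW) w) ^ k) x : W) : V) = ((prodE T w) ^ k) x := by
  induction k with
  | zero => simp
  | succ k ih =>
    rw [pow_succ', pow_succ', Module.End.mul_apply, Module.End.mul_apply, prodE_resW, ih]

theorem pow_quoW (T : ι → End ℚ V) (W : Submodule ℚ V) (hW : ∀ a, ∀ x ∈ W, T a x ∈ W)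
    (w : List ι) (k : ℕ) (x : V) :
    ((prodE (quoW T W hW) w) ^ k) (W.mkQ x) = W.mkQ (((prodE T w) ^ k) x) := by
  induction k with
  | zero => simp
  | succ k ih =>
    rw [pow_succ', pow_succ', Module.End.mul_apply, Module.End.mul_apply, ih, prodE_quoW]

theorem PGrV.resW {T : ι → End ℚ V} {W : Submodule ℚ V} (hW : ∀ a, ∀ x ∈ W, T a x ∈ W)
    {w : List ι} {r : ℝ} (h : PGrV (prodE T w) r) : PGrV (prodE (resW T W hW) w) r := by
  intro v φ
  obtain ⟨ψ, hψ⟩ := LinearMap.exists_extend φ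
  obtain ⟨C, hC⟩ := h v ψ
  refine ⟨C, fun k => ?_⟩
  have e : φ (((prodE (MP9a50b7.resW T W hW) w) ^ k) v) = ψ (((prodE T w) ^ k) v) := by
    rw [← pow_resW, ← hψ]; rfl
  rw [e]
  exact hC k

theorem PGrV.quoW {T : ι → End ℚ V} {W : Submodule ℚ V} (hW : ∀ a, ∀ x ∈ W, T a x ∈ W)
    {w : List ι} {r : ℝ} (h : PGrV (prodE T w) r) : PGrV (prodE (quoW T W hW) w) r := by
  intro v φ
  obtain ⟨v, rfl⟩ := W.mkQ_surjective v
  obtain ⟨C, hC⟩ := h v (φ ∘ₗ W.mkQ)
  refine ⟨C, fun k => ?_⟩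
  rw [pow_quoW]
  exact hC k

/-- adapted norms dominate linear maps into normed spaces -/
theorem AdN.dom_map [FiniteDimensional ℚ V] {T : ι → End ℚ V} {ρ : ℝ} {N : V → ℝ}
    (h : AdN T ρ N) {V' : Type} [AddCommGroup V'] [Module ℚ V'] {N' : V' → ℝ}
    (h0 : ∀ x, 0 ≤ N' x) (hadd : ∀ x y, N' (x + y) ≤ N' x + N' y)
    (hsmul : ∀ (c : ℚ) x, N' (c • x) = |(c : ℝ)| * N' x) (R : V →ₗ[ℚ] V') :
    ∃ C : ℝ, 0 ≤ C ∧ ∀ x, N' (R x) ≤ C * N x := by
  classical
  set b := Module.finBasis ℚ V with hb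
  choose C hC0 hC using fun j => h.dom (b.coord j)
  have hz : N' 0 = 0 := by
    have := hsmul 0 0
    simpa using this
  have hsum : ∀ (s : Finset (Fin (finrank ℚ V))) (g : Fin (finrank ℚ V) → V'),
      N' (∑ j ∈ s, g j) ≤ ∑ j ∈ s, N' (g j) := by
    intro s g
    induction s using Finset.induction_on with
    | empty => simp [hz]
    | insert j s hj ih =>
      rw [Finset.sum_insert hj, Finset.sum_insert hj]
      exact (hadd _ _).trans (add_le_add le_rfl ih)
  refine ⟨∑ j, C j * N' (R (b j)),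
    Finset.sum_nonneg fun j _ => mul_nonneg (hC0 j) (h0 _), fun x => ?_⟩
  have e1 : R x = ∑ j, b.coord j x • R (b j) := by
    conv_lhs => rw [← b.sum_repr x]
    rw [map_sum]
    simp [Basis.coord_apply]
  rw [e1, Finset.sum_mul]
  refine (hsum _ _).trans (Finset.sum_le_sum fun j _ => ?_)
  rw [hsmul]
  calc |((b.coord j x : ℚ) : ℝ)| * N' (R (b j)) ≤ C j * N x * N' (R (b j)) :=
        mul_le_mul_of_nonneg_right (hC j x) (h0 _)
    _ = C j * N' (R (b j)) * N x := by ring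

theorem grV_ext [Finite ι] [FiniteDimensional ℚ V] {T : ι → End ℚ V} {W : Submodule ℚ V}
    (hW : ∀ a, ∀ x ∈ W, T a x ∈ W) {ρ : ℝ} (hρ : 0 < ρ) (h1 : GrV (resW T W hW) ρ)
    (h2 : GrV (quoW T W hW) ρ) {ε : ℝ} (hε : 0 < ε) : GrV T (ρ + ε) := by
  classical
  have := Fintype.ofFinite ι
  obtain ⟨N1, hN1⟩ := h1.exists_adN hρ
  obtain ⟨N2, hN2⟩ := h2.exists_adN hρ
  obtain ⟨p, hp⟩ := W.subtype.exists_leftInverse_of_injective W.ker_subtype
  have hpW : ∀ x : W, p (x : V) = x := fun x => by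
    have := LinearMap.congr_fun hp x
    simpa using this
  -- the correction maps
  set Rm : ι → V →ₗ[ℚ] W := fun a => p ∘ₗ (T a) ∘ₗ (LinearMap.id - W.subtype ∘ₗ p) with hRm
  have hRmW : ∀ a, W ≤ LinearMap.ker (Rm a) := by
    intro a x hx
    rw [LinearMap.mem_ker]
    simp only [hRm, LinearMap.comp_apply, LinearMap.sub_apply, LinearMap.id_apply,
      Submodule.subtype_apply]
    have : p x = ⟨x, hx⟩ := hpW ⟨x, hx⟩
    rw [this]
    simp
  choose C hC0 hC using fun a =>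
    hN2.dom_map (N' := N1) hN1.nonneg hN1.add hN1.smul (W.liftQ (Rm a) (hRmW a))
  set Ct : ℝ := ∑ a, C a with hCt
  have hCt0 : 0 ≤ Ct := Finset.sum_nonneg fun a _ => hC0 a
  have hCa : ∀ a, C a ≤ Ct := fun a =>
    Finset.single_le_sum (f := C) (fun a _ => hC0 a) (Finset.mem_univ a)
  set K : ℝ := (Ct + 1) / ε with hK
  have hK0 : 0 < K := div_pos (by linarith) hε
  have hKε : Ct ≤ ε * K := by
    rw [hK, mul_div_cancel₀ _ hε.ne']; linarith
  refine AdN.grV (N := fun x => N1 (p x) + K * N2 (W.mkQ x)) ⟨?_, ?_, ?_, ?_, ?_⟩ (by linarith)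
  · intro x
    exact add_nonneg (hN1.nonneg _) (mul_nonneg hK0.le (hN2.nonneg _))
  · intro x y
    have e1 := hN1.add (p x) (p y)
    have e2 := mul_le_mul_of_nonneg_left (hN2.add (W.mkQ x) (W.mkQ y)) hK0.le
    simp only [map_add]
    rw [mul_add] at e2
    linarith
  · intro c x
    simp only [map_smul, hN1.smul, hN2.smul]
    ring
  · intro a x
    have e1 : p (T a x) = resW T W hW a (p x) + Rm a x := by
      have e2 : p (T a (p x : V)) = resW T W hW a (p x) := by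
        rw [← resW_apply T W hW, hpW]
      rw [← e2]
      simp only [hRm, LinearMap.comp_apply, LinearMap.sub_apply, LinearMap.id_apply,
        Submodule.subtype_apply, map_sub]
      abel
    have e3 : Rm a x = W.liftQ (Rm a) (hRmW a) (W.mkQ x) := by simp
    have e4 := hN1.add (resW T W hW a (p x)) (Rm a x)
    have e5 := hN1.step a (p x)
    have e6 := hC a (W.mkQ x)
    have e7 := hN2.step a (W.mkQ x)
    rw [quoW_apply] at e7
    have e8 := mul_le_mul_of_nonneg_right (hCa a) (hN2.nonneg (W.mkQ x))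
    have e9 := mul_le_mul_of_nonneg_right hKε (hN2.nonneg (W.mkQ x))
    have e10 := mul_le_mul_of_nonneg_left e7 hK0.le
    have e11 := mul_nonneg hε.le (hN1.nonneg (p x))
    rw [e1]
    rw [← e3] at e6
    nlinarith
  · intro φ
    obtain ⟨C1, hC10, hC1⟩ := hN1.dom (φ ∘ₗ W.subtype)
    have hker : W ≤ LinearMap.ker (φ ∘ₗ (LinearMap.id - W.subtype ∘ₗ p)) := by
      intro x hx
      rw [LinearMap.mem_ker]
      simp only [LinearMap.comp_apply, LinearMap.sub_apply, LinearMap.id_apply,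
        Submodule.subtype_apply]
      have : p x = ⟨x, hx⟩ := hpW ⟨x, hx⟩
      rw [this]
      simp
    obtain ⟨C2, hC20, hC2⟩ := hN2.dom (W.liftQ (φ ∘ₗ (LinearMap.id - W.subtype ∘ₗ p)) hker)
    refine ⟨C1 + C2 / K, add_nonneg hC10 (div_nonneg hC20 hK0.le), fun x => ?_⟩
    have e1 : φ x = (φ ∘ₗ W.subtype) (p x) +
        W.liftQ (φ ∘ₗ (LinearMap.id - W.subtype ∘ₗ p)) hker (W.mkQ x) := by
      simp
    rw [e1]
    push_cast
    refine (abs_add_le _ _).trans ?_
    have e2 := hC1 (p x)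
    have e3 := hC2 (W.mkQ x)
    have e4 : 0 ≤ C1 * (K * N2 (W.mkQ x)) :=
      mul_nonneg hC10 (mul_nonneg hK0.le (hN2.nonneg _))
    have e5 : 0 ≤ C2 / K * N1 (p x) := mul_nonneg (div_nonneg hC20 hK0.le) (hN1.nonneg _)
    have e6 : C2 / K * (K * N2 (W.mkQ x)) = C2 * N2 (W.mkQ x) := by
      field_simp
    calc _ ≤ C1 * N1 (p x) + C2 * N2 (W.mkQ x) := add_le_add e2 e3
      _ ≤ C1 * N1 (p x) + C1 * (K * N2 (W.mkQ x)) + (C2 / K * N1 (p x) +
          C2 / K * (K * N2 (W.mkQ x))) := by linarith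
      _ = (C1 + C2 / K) * (N1 (p x) + K * N2 (W.mkQ x)) := by ring

theorem fpv_ext [Finite ι] [FiniteDimensional ℚ V] {T : ι → End ℚ V} {W : Submodule ℚ V}
    (hW : ∀ a, ∀ x ∈ W, T a x ∈ W) (h1 : FPV (resW T W hW)) (h2 : FPV (quoW T W hW)) :
    FPV T := by
  by_cases hA : ∀ ρ > 0, GrV (resW T W hW) ρ → ∀ ε > 0, GrV (quoW T W hW) (ρ + ε)
  · obtain ⟨w, hw, h⟩ := h1
    refine ⟨w, hw, fun ρ hρ hP ε hε => ?_⟩
    have e1 := h ρ hρ (hP.resW hW) (ε / 4) (by linarith)
    have e2 := hA _ (by linarith) e1 (ε / 4) (by linarith)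
    have e3 := e1.mono (by linarith) (show ρ + ε / 4 ≤ ρ + ε / 4 + ε / 4 by linarith)
    have e4 := grV_ext hW (by linarith) e3 e2 (show 0 < ε / 4 by linarith)
    exact e4.mono (by linarith) (by linarith)
  · push Not at hA
    obtain ⟨ρ0, hρ0, hg, ε0, hε0, hng⟩ := hA
    obtain ⟨w, hw, h⟩ := h2
    refine ⟨w, hw, fun ρ hρ hP ε hε => ?_⟩
    have e1 := h ρ hρ (hP.quoW hW) (ε / 4) (by linarith)
    have e2 : GrV (resW T W hW) (ρ + ε / 4) := by
      refine hg.mono hρ0.le ?_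
      by_contra hlt
      push Not at hlt
      exact hng (e1.mono (by linarith) (by linarith))
    have e4 := grV_ext hW (by linarith) e2 e1 (show 0 < ε / 4 by linarith)
    exact e4.mono (by linarith) (by linarith)

end ext

/-- a failing family on a rational space, if one exists, can be taken irreducible -/
theorem exists_irred {ι : Type} [Finite ι]
    (h : ∃ (V : Type) (_ : AddCommGroup V) (_ : Module ℚ V) (_ : FiniteDimensional ℚ V)
      (T : ι → End ℚ V), ¬ FPV T) :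
    ∃ (V : Type) (_ : AddCommGroup V) (_ : Module ℚ V) (_ : FiniteDimensional ℚ V)
      (T : ι → End ℚ V), ¬ FPV T ∧
      ∀ W : Submodule ℚ V, (∀ a, ∀ x ∈ W, T a x ∈ W) → W = ⊥ ∨ W = ⊤ := by
  classical
  have h' : ∃ n : ℕ, ∃ (V : Type) (_ : AddCommGroup V) (_ : Module ℚ V)
      (_ : FiniteDimensional ℚ V) (T : ι → End ℚ V), finrank ℚ V = n ∧ ¬ FPV T := by
    obtain ⟨V, i1, i2, i3, T, hT⟩ := h
    exact ⟨finrank ℚ V, V, i1, i2, i3, T, rfl, hT⟩
  obtain ⟨V, i1, i2, i3, T, hn, hT⟩ := Nat.find_spec h'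
  refine ⟨V, i1, i2, i3, T, hT, fun W hW => ?_⟩
  by_contra hcon
  push Not at hcon
  have hlt1 : finrank ℚ W < finrank ℚ V := Submodule.finrank_lt hcon.2
  have hlt2 : finrank ℚ (V ⧸ W) < finrank ℚ V := by
    have e1 := Submodule.finrank_quotient_add_finrank W
    have e2 : 0 < finrank ℚ W := by
      have : Nontrivial W := (Submodule.nontrivial_iff_ne_bot).2 hcon.1
      exact Module.finrank_pos
    omega
  have f1 : FPV (resW T W hW) := by
    by_contra hc
    exact Nat.find_min h' (by rw [← hn]; exact hlt1)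
      ⟨W, inferInstance, inferInstance, inferInstance, resW T W hW, rfl, hc⟩
  have f2 : FPV (quoW T W hW) := by
    by_contra hc
    exact Nat.find_min h' (by rw [← hn]; exact hlt2)
      ⟨V ⧸ W, inferInstance, inferInstance, inferInstance, quoW T W hW, rfl, hc⟩
  exact hT (fpv_ext hW f1 f2)

end Pool.Agent.MP9a50b7
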