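import Pool.Agent.Lib.MP_9a50b7_lc.Rep2

/-! The trace form of an irreducible family, and boundedness of its normalised products. -/

set_option autoImplicit false
set_option linter.unusedSectionVars false

namespace Pool.Agent.MP9a50b7

open Module Polynomial

section trace

variable {ι V : Type} [AddCommGroup V] [Module ℚ V] [FiniteDimensional ℚ V]

/-- an endomorphism with eigenvalue one has a power with nonzero trace -/
theorem exists_trace_pow_ne (Z : End ℚ V) {m : V} (hm : m ≠ 0) (hZ : Z m = m) :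
    ∃ k : ℕ, LinearMap.trace ℚ V (Z ^ (k + 1)) ≠ 0 := by
  by_contra hcon
  push Not at hcon
  have hev : Module.End.HasEigenvector Z 1 m :=
    ⟨Module.End.mem_eigenspace_iff.2 (by simpa using hZ), hm⟩
  set P := minpoly ℚ Z with hP
  have hP0 : P ≠ 0 := minpoly.ne_zero (Algebra.IsIntegral.isIntegral Z)
  obtain ⟨q, hq1, hq2⟩ := P.exists_eq_pow_rootMultiplicity_mul_and_not_dvd hP0 0
  set a := P.rootMultiplicity 0 with ha
  rw [C_0, sub_zero] at hq1 hq2
  have hcop : IsCoprime (X : ℚ[X]) q := (irreducible_X.coprime_iff_not_dvd).2 hq2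
  obtain ⟨u, v, huv⟩ := hcop.pow_left (m := a + 1)
  have hPZ : aeval Z P = 0 := minpoly.aeval ℚ Z
  have hP1 : P.eval 1 = 0 := by
    have h1 := Module.End.aeval_apply_of_hasEigenvector (p := P) hev
    rw [hPZ, LinearMap.zero_apply] at h1
    exact (smul_eq_zero.1 h1.symm).resolve_right hm
  have hq1' : q.eval 1 = 0 := by
    rw [hq1] at hP1
    simpa using hP1
  set g : ℚ[X] := u * X ^ (a + 1) with hg
  have hg1 : g.eval 1 = 1 := by
    have h1 := congrArg (Polynomial.eval 1) huv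
    rw [eval_add, eval_mul (p := v), hq1', mul_zero, add_zero, eval_one] at h1
    exact h1
  have hgg : g * g = g - (u * v * X) * P := by
    have h1 : g = 1 - v * q := by rw [← huv]; ring
    calc g * g = g * (1 - v * q) := by rw [← h1]
      _ = g - g * (v * q) := by ring
      _ = g - (u * v * X) * P := by rw [hq1, hg]; ring
  have hid : IsIdempotentElem (aeval Z g) := by
    have h1 := congrArg (aeval Z) hgg
    rw [map_mul (aeval Z) g g, map_sub, map_mul (aeval Z) (u * v * X) P, hPZ, mul_zero,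
      sub_zero] at h1
    exact h1
  have hne : aeval Z g ≠ 0 := by
    intro h0
    have h1 := Module.End.aeval_apply_of_hasEigenvector (p := g) hev
    rw [h0, hg1, LinearMap.zero_apply, one_smul] at h1
    exact hm h1.symm
  refine hne (LinearMap.IsIdempotentElem.eq_zero_of_trace_eq_zero hid ?_)
  have h2 : g = X * (u * X ^ a) := by rw [hg]; ring
  rw [h2, map_mul, aeval_X, aeval_eq_sum_range (p := u * X ^ a), Finset.mul_sum, map_sum]
  refine Finset.sum_eq_zero fun k _ => ?_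
  rw [mul_smul_comm, map_smul, ← pow_succ', hcon k, smul_zero]

/-- the span of the products -/
def Alg (T : ι → End ℚ V) : Submodule ℚ (End ℚ V) := Submodule.span ℚ (Set.range (prodE T))

theorem prodE_mem (T : ι → End ℚ V) (w : List ι) : prodE T w ∈ Alg T :=
  Submodule.subset_span ⟨w, rfl⟩

theorem one_mem_alg (T : ι → End ℚ V) : (1 : End ℚ V) ∈ Alg T := prodE_mem T []

theorem mul_mem_alg (T : ι → End ℚ V) {X Y : End ℚ V} (hX : X ∈ Alg T) (hY : Y ∈ Alg T) :
    X * Y ∈ Alg T := by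
  have h1 : Alg T * Alg T ≤ Alg T := by
    unfold Alg
    rw [Submodule.span_mul_span]
    refine Submodule.span_mono ?_
    rintro _ ⟨x, ⟨w, rfl⟩, y, ⟨w', rfl⟩, rfl⟩
    exact ⟨w ++ w', prodE_append T w w'⟩
  exact h1 (Submodule.mul_mem_mul hX hY)

theorem pow_mem_alg (T : ι → End ℚ V) {X : End ℚ V} (hX : X ∈ Alg T) (k : ℕ) :
    X ^ k ∈ Alg T := by
  induction k with
  | zero => simpa using one_mem_alg T
  | succ k ih => rw [pow_succ]; exact mul_mem_alg T ih hX

theorem nondeg {T : ι → End ℚ V}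
    (hirr : ∀ W : Submodule ℚ V, (∀ a, ∀ x ∈ W, T a x ∈ W) → W = ⊥ ∨ W = ⊤)
    {Y : End ℚ V} (hY : Y ∈ Alg T) (h : ∀ X ∈ Alg T, LinearMap.trace ℚ V (X * Y) = 0) :
    Y = 0 := by
  by_contra hne
  obtain ⟨m, hm⟩ : ∃ m, Y m ≠ 0 := by
    by_contra hc
    push Not at hc
    exact hne (LinearMap.ext hc)
  set U : Submodule ℚ V := (Alg T).map (LinearMap.applyₗ (Y m)) with hU
  have hinv : ∀ a, ∀ x ∈ U, T a x ∈ U := by
    rintro a _ ⟨Z, hZ, rfl⟩
    refine ⟨T a * Z, mul_mem_alg T ?_ hZ, rfl⟩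
    have := prodE_mem T [a]
    simpa [prodE] using this
  have hYm : Y m ∈ U := ⟨1, one_mem_alg T, rfl⟩
  rcases hirr U hinv with h1 | h1
  · rw [h1, Submodule.mem_bot] at hYm
    exact hm hYm
  · have hmU : m ∈ U := by rw [h1]; trivial
    obtain ⟨Z, hZ, hZm⟩ := hmU
    have hZm' : (Z * Y) m = m := hZm
    have hm0 : m ≠ 0 := by
      rintro rfl
      exact hm (map_zero _)
    obtain ⟨k, hk⟩ := exists_trace_pow_ne (Z * Y) hm0 hZm'
    apply hk
    rw [pow_succ, ← mul_assoc]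
    exact h _ (mul_mem_alg T (pow_mem_alg T (mul_mem_alg T hZ hY) k) hZ)

theorem exists_dual {T : ι → End ℚ V}
    (hirr : ∀ W : Submodule ℚ V, (∀ a, ∀ x ∈ W, T a x ∈ W) → W = ⊥ ∨ W = ⊤)
    (v : V) (φ : Dual ℚ V) :
    ∃ Y ∈ Alg T, ∀ X ∈ Alg T, φ (X v) = LinearMap.trace ℚ V (X * Y) := by
  set B : Alg T →ₗ[ℚ] Dual ℚ (Alg T) :=
    LinearMap.mk₂ ℚ (fun Y X : Alg T => LinearMap.trace ℚ V ((X : End ℚ V) * (Y : End ℚ V)))
      (fun Y Y' X => by simp [mul_add]) (fun c Y X => by simp)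
      (fun Y X X' => by simp [add_mul]) (fun c Y X => by simp) with hB
  have hinj : Function.Injective B := by
    rw [injective_iff_map_eq_zero]
    intro Y hY0
    have h1 : (Y : End ℚ V) = 0 := nondeg hirr Y.2 fun X hX => by
      have := LinearMap.congr_fun hY0 ⟨X, hX⟩
      simpa [hB] using this
    exact Subtype.ext h1
  have hsurj : Function.Surjective B :=
    (LinearMap.injective_iff_surjective_of_finrank_eq_finrank
      (Subspace.dual_finrank_eq (K := ℚ) (V := Alg T)).symm).1 hinj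
  obtain ⟨Y, hY⟩ := hsurj (φ ∘ₗ (LinearMap.applyₗ v) ∘ₗ (Alg T).subtype)
  refine ⟨Y, Y.2, fun X hX => ?_⟩
  have := LinearMap.congr_fun hY ⟨X, hX⟩
  simpa [hB] using this.symm

theorem prodE_pow (T : ι → End ℚ V) (w : List ι) (k : ℕ) :
    ∃ w' : List ι, w'.length = k * w.length ∧ (prodE T w) ^ k = prodE T w' := by
  induction k with
  | zero => exact ⟨[], by simp, by simp [prodE_nil]⟩
  | succ k ih =>
    obtain ⟨w', h1, h2⟩ := ih
    refine ⟨w' ++ w, ?_, ?_⟩
    · rw [List.length_append, h1]; ring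
    · rw [pow_succ, h2, prodE_append]

theorem GrV.pgrV {T : ι → End ℚ V} {ρ : ℝ} (h : GrV T ρ) (w : List ι) :
    PGrV (prodE T w) (ρ ^ w.length) := by
  intro v φ
  obtain ⟨C, hC⟩ := h v φ
  refine ⟨C, fun k => ?_⟩
  obtain ⟨w', h1, h2⟩ := prodE_pow T w k
  have := hC w'
  rw [h1, mul_comm k, pow_mul] at this
  rw [h2]
  exact this

/-- real matrix of an endomorphism -/
noncomputable def rmat (X : End ℚ V) : Matrix (Fin (finrank ℚ V)) (Fin (finrank ℚ V)) ℝ :=
  (LinearMap.toMatrix (finBasis ℚ V) (finBasis ℚ V) X).map ((↑) : ℚ → ℝ)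

theorem rmat_apply (X : End ℚ V) (i j : Fin (finrank ℚ V)) :
    rmat X i j = (((finBasis ℚ V).coord i (X (finBasis ℚ V j)) : ℚ) : ℝ) := by
  simp [rmat, LinearMap.toMatrix_apply]

theorem rmat_mul (X Y : End ℚ V) : rmat (X * Y) = rmat X * rmat Y := by
  unfold rmat
  rw [LinearMap.toMatrix_mul]
  exact Matrix.map_mul (f := (Rat.castHom ℝ))

theorem rmat_one : rmat (1 : End ℚ V) = 1 := by
  unfold rmat
  rw [LinearMap.toMatrix_one]
  exact Matrix.map_one (Rat.castHom ℝ) (map_zero _) (map_one _)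

theorem rmat_pow (X : End ℚ V) (k : ℕ) : rmat (X ^ k) = rmat X ^ k := by
  induction k with
  | zero => simp [rmat_one]
  | succ k ih => rw [pow_succ, pow_succ, rmat_mul, ih]

theorem rmat_trace (X : End ℚ V) : (rmat X).trace = ((LinearMap.trace ℚ V X : ℚ) : ℝ) := by
  rw [LinearMap.trace_eq_matrix_trace ℚ (finBasis ℚ V)]
  simp [rmat, Matrix.trace]

theorem PGrV.pgr {X : End ℚ V} {r : ℝ} (hr : 0 ≤ r) (h : PGrV X r) : PGr (rmat X) r := by
  choose C hC using fun i j => h (finBasis ℚ V j) ((finBasis ℚ V).coord i)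
  refine ⟨∑ i, ∑ j, |C i j|, fun k i j => ?_⟩
  rw [← rmat_pow, rmat_apply]
  refine (hC i j k).trans (mul_le_mul_of_nonneg_right ?_ (pow_nonneg hr k))
  refine (le_abs_self _).trans ?_
  refine le_trans ?_ (Finset.single_le_sum (f := fun i => ∑ j, |C i j|)
    (fun _ _ => Finset.sum_nonneg fun _ _ => abs_nonneg _) (Finset.mem_univ i))
  exact Finset.single_le_sum (f := fun j => |C i j|) (fun _ _ => abs_nonneg _)
    (Finset.mem_univ j)

theorem GrV.trace_le {T : ι → End ℚ V} {ρ : ℝ} (hρ : 0 < ρ) (h : GrV T ρ) (w : List ι) :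
    |((LinearMap.trace ℚ V (prodE T w) : ℚ) : ℝ)| ≤ finrank ℚ V * ρ ^ w.length := by
  rw [← rmat_trace]
  exact MP9a50b7.trace_le (pow_pos hρ _) ((h.pgrV w).pgr (pow_nonneg hρ.le _))

end trace

section core

variable {ι V : Type} [AddCommGroup V] [Module ℚ V] [FiniteDimensional ℚ V]

/-- boundedness of the normalised products of an irreducible family -/
theorem grV_limit {T : ι → End ℚ V}
    (hirr : ∀ W : Submodule ℚ V, (∀ a, ∀ x ∈ W, T a x ∈ W) → W = ⊥ ∨ W = ⊤)
    {ρ0 : ℝ} (h0 : 0 ≤ ρ0) (h : ∀ ρ, ρ0 < ρ → GrV T ρ) : GrV T ρ0 := by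
  have htr : ∀ w : List ι,
      |((LinearMap.trace ℚ V (prodE T w) : ℚ) : ℝ)| ≤ finrank ℚ V * ρ0 ^ w.length := by
    intro w
    have hcont : Continuous fun ρ : ℝ => (finrank ℚ V : ℝ) * ρ ^ w.length := by fun_prop
    have hten : Filter.Tendsto (fun ρ : ℝ => (finrank ℚ V : ℝ) * ρ ^ w.length)
        (nhdsWithin ρ0 (Set.Ioi ρ0)) (nhds ((finrank ℚ V : ℝ) * ρ0 ^ w.length)) :=
      (hcont.tendsto ρ0).mono_left nhdsWithin_le_nhds
    refine ge_of_tendsto hten ?_
    filter_upwards [self_mem_nhdsWithin] with ρ hρ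
    exact (h ρ hρ).trace_le (lt_of_le_of_lt h0 hρ) w
  have htrY : ∀ Y ∈ Alg T, ∃ C : ℝ, ∀ w : List ι,
      |((LinearMap.trace ℚ V (prodE T w * Y) : ℚ) : ℝ)| ≤ C * ρ0 ^ w.length := by
    intro Y hY
    unfold Alg at hY
    induction hY using Submodule.span_induction with
    | mem x hx =>
      obtain ⟨u, rfl⟩ := hx
      refine ⟨finrank ℚ V * ρ0 ^ u.length, fun w => ?_⟩
      have := htr (w ++ u)
      rw [prodE_append, List.length_append, pow_add] at this
      calc _ ≤ _ := this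
        _ = _ := by ring
    | zero => exact ⟨0, fun w => by simp⟩
    | add x y _ _ hx hy =>
      obtain ⟨C1, h1⟩ := hx
      obtain ⟨C2, h2⟩ := hy
      refine ⟨C1 + C2, fun w => ?_⟩
      rw [mul_add, map_add]
      push_cast
      refine (abs_add_le _ _).trans ?_
      rw [add_mul]
      exact add_le_add (h1 w) (h2 w)
    | smul c x _ hx =>
      obtain ⟨C1, h1⟩ := hx
      refine ⟨|(c : ℝ)| * C1, fun w => ?_⟩
      rw [mul_smul_comm, map_smul, smul_eq_mul]
      push_cast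
      rw [abs_mul, mul_assoc]
      exact mul_le_mul_of_nonneg_left (h1 w) (abs_nonneg _)
  intro v φ
  obtain ⟨Y, hY, hYφ⟩ := exists_dual hirr v φ
  obtain ⟨C, hC⟩ := htrY Y hY
  refine ⟨C, fun w => ?_⟩
  rw [hYφ _ (prodE_mem T w)]
  exact hC w

end core

end Pool.Agent.MP9a50b7
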